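import Pool.Agent.W603.BP.PS

/-!
Pseudo-Picard hyperbolicity of quasi-projective varieties given, up to units, by few monomials that
are high powers.
-/

set_option autoImplicit false

namespace Pool.Agent.W603.BP

open MvPolynomial Filter Metric Topology Pool.Agent.H159R3.GGLLog Pool.Agent.H159R3.NV

variable {n : ℕ} {ι : Type} (U : Set (Fin (n + 1)))

/-- pseudo-Picard hyperbolicity implies pseudo-Brody hyperbolicity -/
theorem brody_of_picard (F : ι → MvPolynomial (Fin (n + 1)) ℂ) (h : PseudoPicard U F) :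
    PseudoBrody U F := by
  obtain ⟨G, hG, hx, hf⟩ := h
  refine ⟨G, hG, hx, fun f hfc z => ?_⟩
  by_contra hz
  obtain ⟨h1, h2⟩ := sin_curve hfc
  obtain ⟨w, hw, hwz⟩ := sin_point z
  exact h2 (hf _ h1 ⟨w, hw, by rw [hwz]; exact hz⟩)

/-- if all one-parameter groups that preserve `X` act trivially then `X` is pseudo-Picard
hyperbolic -/
theorem picard_of_trivial [Finite ι] (F : ι → MvPolynomial (Fin (n + 1)) ℂ)
    (hF : ∀ i, ∃ d, (F i).IsHomogeneous d) (hC : ∀ i, PowerSparse U (F i)) (hirr : Irred U F)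
    (h : ∀ b : Fin (n + 1) → ℤ, Preserves U b F → ActsTrivially U b F) : PseudoPicard U F := by
  classical
  have := Fintype.ofFinite ι
  refine ⟨exc U F, exc_hom U F hF, exc_ne U F hirr, ?_⟩
  rintro f hf ⟨z1, hz1, hG⟩
  by_contra hE
  obtain ⟨b, j, k, hj, hk, hbjk, hs⟩ := pcurve F hC f hf hE
  have hz1' : z1 ∈ PB 1 := mem_disc.mp hz1
  have hpres : Preserves U b F := by
    intro x hx t ht
    apply orbit_mem hx _ ht
    intro i v
    exact exc_sub U F (f z1) hG i _ (Finset.filter_subset _ _) (hs i v z1 hz1') x hx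
  obtain ⟨z, hz, hgood⟩ := good_point (fun a : Fin 2 => fun w => f w (if a = 0 then j else k))
    (fun a => hf.an _) (by
      intro a
      fin_cases a
      · exact hj
      · exact hk)
  have h0 : f z j ≠ 0 := hgood 0
  have h1 : f z k ≠ 0 := hgood 1
  obtain ⟨c, hc⟩ := h b hpres (f z) (hf.2 z (mem_disc.mpr hz)) 2 two_ne_zero
  have h2 : ∀ l, f z l ≠ 0 → (2 : ℂ) ^ b l = c := by
    intro l hl
    have h3 := congrFun hc l
    simp only [Pi.smul_apply, smul_eq_mul] at h3
    rw [mul_comm] at h3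
    exact mul_right_cancel₀ hl h3
  exact hbjk (two_pow_inj ((h2 j h0).trans (h2 k h1).symm))

/-- The main equivalences. -/
theorem picard_main [Finite ι] (F : ι → MvPolynomial (Fin (n + 1)) ℂ)
    (hF : ∀ i, ∃ d, (F i).IsHomogeneous d) (hC : ∀ i, PowerSparse U (F i)) (hirr : Irred U F) :
    (PseudoPicard U F ↔ PseudoBrody U F) ∧
      (PseudoPicard U F ↔ ∀ b : Fin (n + 1) → ℤ, Preserves U b F → ActsTrivially U b F) := by
  have h1 := main U F hF hC hirr
  have h2 : PseudoPicard U F ↔ ∀ b : Fin (n + 1) → ℤ, Preserves U b F → ActsTrivially U b F :=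
    ⟨fun h => h1.mp (brody_of_picard U F h), picard_of_trivial U F hF hC hirr⟩
  exact ⟨h2.trans h1.symm, h2⟩

/-- a torus curve through a point of an essential punctured curve -/
theorem torusCurve_of_p (F : ι → MvPolynomial (Fin (n + 1)) ℂ) (hC : ∀ i, PowerSparse U (F i))
    (f : ℂ → Fin (n + 1) → ℂ) (hf : PCurve U F f) (hE : ¬ Extends f)
    (G : MvPolynomial (Fin (n + 1)) ℂ) (z1 : ℂ) (hz1 : z1 ∈ ball (0 : ℂ) 1 \ {0})
    (hG : eval (f z1) G ≠ 0) : ∃ v, TorusCurve U F v ∧ eval (v 1) G ≠ 0 := by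
  obtain ⟨b, j, k, hj, hk, hbjk, hs⟩ := pcurve F hC f hf hE
  have hGn : Nz (fun w => eval (f w) G) := nz_of_on (eval_an hf.an G) (mem_disc.mp hz1) hG
  obtain ⟨z0, hz0, hgood⟩ := good_point
    (fun a : Fin 3 => fun w => if a = 0 then f w j else if a = 1 then f w k else eval (f w) G)
    (by
      intro a
      fin_cases a
      · exact hf.an j
      · exact hf.an k
      · exact eval_an hf.an G)
    (by
      intro a
      fin_cases a
      · exact hj
      · exact hk
      · exact hGn)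
  have h0 : f z0 j ≠ 0 := hgood 0
  have h1 : f z0 k ≠ 0 := hgood 1
  have h2 : eval (f z0) G ≠ 0 := hgood 2
  have hX : f z0 ∈ Pts U F := hf.2 z0 (mem_disc.mpr hz0)
  refine ⟨fun t j => f z0 j * t ^ b j,
    ⟨fun j => (Pool.Agent.H159R3.Exp.Laur.const _).mul (Pool.Agent.H159R3.Exp.Laur.zpow _), ?_, ?_⟩, ?_⟩
  · intro t ht
    exact orbit_mem hX (fun i v => hs i v z0 hz0) ht
  · refine ⟨2, 1, two_ne_zero, one_ne_zero, fun c hc => ?_⟩
    have h3 : ∀ l, f z0 l ≠ 0 → (2 : ℂ) ^ b l = c := by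
      intro l hl
      have h4 := congrFun hc l
      simp only [Pi.smul_apply, smul_eq_mul, one_zpow, mul_one] at h4
      rw [mul_comm] at h4
      exact mul_right_cancel₀ hl h4
    exact hbjk (two_pow_inj ((h3 j h0).trans (h3 k h1).symm))
  · simpa using h2

/-- the Zariski closures of the essential punctured curves and of the algebraic tori coincide -/
theorem special_picard (F : ι → MvPolynomial (Fin (n + 1)) ℂ) (hC : ∀ i, PowerSparse U (F i)) :
    SpP U F = SpH U F ∧ SpP U F = SpT U F := by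
  have h1 := special U F hC
  have h2 : SpP U F = SpT U F := by
    ext x
    constructor
    · rintro ⟨hx, h⟩
      refine ⟨hx, fun G hG hv => h G hG fun f hf hE z hz => ?_⟩
      by_contra hz2
      obtain ⟨v, hv', hv1⟩ := torusCurve_of_p U F hC f hf hE G z hz hz2
      exact hv1 (hv v hv' 1 one_ne_zero)
    · intro hx
      rw [← h1] at hx
      obtain ⟨hx, h⟩ := hx
      refine ⟨hx, fun G hG hf => h G hG fun f hfc z => ?_⟩
      obtain ⟨h3, h4⟩ := sin_curve hfc
      obtain ⟨w, hw, hwz⟩ := sin_point z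
      have := hf _ h3 h4 w hw
      rwa [hwz] at this
  exact ⟨h2.trans h1.symm, h2⟩

end Pool.Agent.W603.BP
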