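import Pool.Agent.H159R3.NV.Final

/-!
A quotient of entire functions of logarithmic growth is rational.
-/

set_option autoImplicit false

namespace Pool.Agent.W603.BP

open Filter Metric Set Topology Pool.Agent.H159R3.NV ValueDistribution MeromorphicOn

theorem order_ne_top {f : ℂ → ℂ} (hf : Differentiable ℂ f) (h0 : f 0 ≠ 0) (z : ℂ) :
    meromorphicOrderAt f z ≠ ⊤ :=
  (meromorphicOrderAt_ne_top_iff_eventually_ne_zero (mero_of_diff hf z)).mpr (ev_ne hf h0 z)

theorem lc_top {f : ℂ → ℂ} (hf : Differentiable ℂ f) : logCounting f ⊤ = 0 := by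
  rw [logCounting_top, negPart_eq_zero.mpr (AnalyticOnNhd.divisor_nonneg
    (fun z _ => hf.analyticAt z)), map_zero]

theorem lc_zero {f : ℂ → ℂ} (hf : Differentiable ℂ f) (h0 : f 0 ≠ 0) {R : ℝ} (hR : R ≠ 0) :
    logCounting f 0 R = L f R - Real.log ‖f 0‖ := by
  have h1 := ValueDistribution.logCounting_zero_sub_logCounting_top_eq_circleAverage_sub_const
    (mero_of_diff hf) hR
  rw [lc_top hf, (hf.analyticAt 0).meromorphicTrailingCoeffAt_of_ne_zero h0, sub_zero] at h1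
  exact h1

theorem lc_quot {G0 G1 q g0 g1 : ℂ → ℂ} (hG0 : Differentiable ℂ G0) (hg0 : Differentiable ℂ g0)
    (hg1 : Differentiable ℂ g1) (n0 : G0 0 ≠ 0) (n1 : G1 0 ≠ 0)
    (e0 : ∀ z, G0 z = q z * g0 z) (e1 : ∀ z, G1 z = q z * g1 z) {ρ : ℝ} (hρ : 1 ≤ ρ) :
    logCounting (fun z => G1 z / G0 z) ⊤ ρ ≤ L g0 ρ - Real.log ‖g0 0‖ ∧
      logCounting (fun z => G1 z / G0 z) 0 ρ ≤ L g1 ρ - Real.log ‖g1 0‖ := by
  have m0 : g0 0 ≠ 0 := fun h => n0 (by rw [e0, h, mul_zero])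
  have m1 : g1 0 ≠ 0 := fun h => n1 (by rw [e1, h, mul_zero])
  have hcod : (fun z => G1 z / G0 z) =ᶠ[codiscrete ℂ] (g1 * g0⁻¹ : ℂ → ℂ) := by
    have h1 : ∀ᶠ z in codiscrete ℂ, G0 z ≠ 0 :=
      AnalyticOnNhd.preimage_zero_mem_codiscrete (fun z _ => hG0.analyticAt z) n0
    filter_upwards [h1] with z hz
    rw [Pi.mul_apply, Pi.inv_apply, e1, e0]
    rw [e0] at hz
    have := left_ne_zero_of_mul hz
    have := right_ne_zero_of_mul hz
    field_simp
  have h1 : Meromorphic g1 := mero_of_diff hg1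
  have h0 : Meromorphic (g0⁻¹ : ℂ → ℂ) := fun z => (mero_of_diff hg0 z).inv
  have o1 := order_ne_top hg1 m1
  have o0 : ∀ z, meromorphicOrderAt (g0⁻¹ : ℂ → ℂ) z ≠ ⊤ := by
    intro z
    rw [meromorphicOrderAt_ne_top_iff_eventually_ne_zero (h0 z)]
    filter_upwards [ev_ne hg0 m0 z] with w hw
    exact inv_ne_zero hw
  rw [logCounting_congr_codiscrete hcod]
  have hρ0 : ρ ≠ 0 := by linarith
  constructor
  · have h2 := logCounting_mul_top_le hρ h1 o1 h0 o0
    rw [Pi.add_apply, lc_top hg1, logCounting_inv, lc_zero hg0 m0 hρ0] at h2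
    simpa using h2
  · have h2 := logCounting_mul_zero_le hρ h1 o1 h0 o0
    have h3 : logCounting (g0⁻¹ : ℂ → ℂ) 0 = logCounting g0 ⊤ := by
      rw [← logCounting_inv, inv_inv]
    rw [Pi.add_apply, h3, lc_top hg0, lc_zero hg1 m1 hρ0] at h2
    simpa using h2

theorem isBigO_log {u : ℝ → ℝ} {A B ρ0 : ℝ} (h0 : ∀ ρ, 1 ≤ ρ → 0 ≤ u ρ)
    (h : ∀ ρ, ρ0 ≤ ρ → u ρ ≤ A + B * Real.log ρ) : u =O[atTop] Real.log := by
  rw [Asymptotics.isBigO_iff]
  refine ⟨|A| + |B|, ?_⟩
  filter_upwards [eventually_ge_atTop ρ0, eventually_ge_atTop (Real.exp 1), eventually_ge_atTop 1]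
    with ρ h1 h2 h3
  have h4 : 1 ≤ Real.log ρ := by
    rw [← Real.log_exp 1]
    exact Real.log_le_log (Real.exp_pos 1) h2
  rw [Real.norm_of_nonneg (h0 ρ h3), Real.norm_of_nonneg (by linarith)]
  refine (h ρ h1).trans ?_
  have h5 : A ≤ |A| * Real.log ρ :=
    (le_abs_self A).trans (le_mul_of_one_le_right (abs_nonneg A) h4)
  have h6 : B * Real.log ρ ≤ |B| * Real.log ρ :=
    mul_le_mul_of_nonneg_right (le_abs_self B) (by linarith)
  linarith

theorem avg_abs_lin' {u : ℂ} {R : ℝ} (hR : 1 ≤ R) (hu : ‖u‖ ≤ R) (n : ℤ) :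
    Real.circleAverage (fun z => |Real.log ‖(z - u) ^ n‖|) 0 R ≤ |(n : ℝ)| * (2 * Real.log (2 * R)) := by
  have e : (fun z : ℂ => |Real.log ‖(z - u) ^ n‖|) = fun z => |(n : ℝ)| • |Real.log ‖z - u‖| := by
    funext z
    rw [norm_zpow, Real.log_zpow, abs_mul, smul_eq_mul]
  rw [e, Real.circleAverage_fun_smul, smul_eq_mul]
  exact mul_le_mul_of_nonneg_left (avg_abs_lin hR hu) (abs_nonneg _)

theorem const_of_avg {g : ℂ → ℂ} (hg : Differentiable ℂ g) (hne : ∀ z, g z ≠ 0) {A B ρ0 : ℝ}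
    (h : ∀ ρ, ρ0 ≤ ρ → Real.circleAverage (fun z => |Real.log ‖g z‖|) 0 ρ ≤ A + B * Real.log ρ) :
    ∃ c : ℂ, c ≠ 0 ∧ ∀ z, g z = c := by
  have key : ∀ w z : ℂ, Real.log ‖g w‖ = Real.log ‖g z‖ := by
    intro w z
    have h1 : ∀ᶠ ρ : ℝ in atTop, |Real.log ‖g w‖ - Real.log ‖g z‖|
        ≤ 8 * ‖w - z‖ * ((A + B * Real.log ρ) / ρ) := by
      filter_upwards [eventually_ge_atTop ρ0, eventually_gt_atTop 0,
        eventually_ge_atTop (2 * ‖w‖), eventually_ge_atTop (2 * ‖z‖)] with ρ h1 h2 h3 h4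
      have h5 := poisson_diff (k := g) (R := ρ) (δ := ρ / 2) h2 (by linarith)
        (fun z _ => hg.analyticAt z) (fun z _ => hne z) (w := w) (z := z) (by linarith)
        (by linarith)
      refine h5.trans ?_
      have e : 2 * ρ * ‖w - z‖ / (ρ / 2) ^ 2 = 8 * ‖w - z‖ / ρ := by field_simp; ring
      rw [e]
      calc 8 * ‖w - z‖ / ρ * Real.circleAverage (fun ζ => |Real.log ‖g ζ‖|) 0 ρ
          ≤ 8 * ‖w - z‖ / ρ * (A + B * Real.log ρ) :=
            mul_le_mul_of_nonneg_left (h ρ h1) (by positivity)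
        _ = _ := by ring
    have h2 : Tendsto (fun ρ : ℝ => 8 * ‖w - z‖ * ((A + B * Real.log ρ) / ρ)) atTop (𝓝 0) := by
      have t1 : Tendsto (fun ρ : ℝ => A / ρ) atTop (𝓝 0) := tendsto_const_nhds.div_atTop tendsto_id
      have t2 : Tendsto (fun ρ : ℝ => Real.log ρ / ρ) atTop (𝓝 0) :=
        Real.isLittleO_log_id_atTop.tendsto_div_nhds_zero
      have t3 := (t1.add (t2.const_mul B)).const_mul (8 * ‖w - z‖)
      simp only [mul_zero, add_zero] at t3
      apply t3.congr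
      intro ρ
      ring
    have h3 := ge_of_tendsto h2 h1
    have h4 : |Real.log ‖g w‖ - Real.log ‖g z‖| = 0 := le_antisymm h3 (abs_nonneg _)
    linarith [abs_eq_zero.mp h4]
  have hn : ∀ z, ‖g z‖ = ‖g 0‖ := fun z =>
    Real.log_injOn_pos (mem_Ioi.mpr (norm_pos_iff.mpr (hne z))) (mem_Ioi.mpr (norm_pos_iff.mpr (hne 0)))
      (key z 0)
  refine ⟨g 0, hne 0, fun z => ?_⟩
  apply hg.apply_eq_apply_of_bounded
  rw [isBounded_iff_forall_norm_le]
  refine ⟨‖g 0‖, ?_⟩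
  rintro _ ⟨z, rfl⟩
  exact (hn z).le

theorem rational_quot {G0 G1 : ℂ → ℂ} (hG0 : Differentiable ℂ G0) (hG1 : Differentiable ℂ G1)
    (n0 : G0 0 ≠ 0) (n1 : G1 0 ≠ 0) {A B ρ0 : ℝ}
    (h : ∀ ρ, ρ0 ≤ ρ → ∃ q g0 g1 : ℂ → ℂ, Differentiable ℂ g0 ∧ Differentiable ℂ g1 ∧
      (∀ z, G0 z = q z * g0 z) ∧ (∀ z, G1 z = q z * g1 z) ∧
      L g0 ρ - Real.log ‖g0 0‖ ≤ A + B * Real.log ρ ∧
      L g1 ρ - Real.log ‖g1 0‖ ≤ A + B * Real.log ρ ∧
      2 * T2 g0 g1 ρ - L g0 ρ - L g1 ρ ≤ A + B * Real.log ρ) :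
    ∃ R : ℂ → ℂ, MeromorphicAt (fun w => R w⁻¹) 0 ∧ ∃ R0 : ℝ, ∀ z, R0 < ‖z‖ → G1 z = R z * G0 z := by
  classical
  set Φ : ℂ → ℂ := fun z => G1 z / G0 z with hΦ
  have hΦm : Meromorphic Φ := quot_mero hG0 hG1
  have hcodG0 : ∀ᶠ z in codiscrete ℂ, G0 z ≠ 0 :=
    AnalyticOnNhd.preimage_zero_mem_codiscrete (fun z _ => hG0.analyticAt z) n0
  -- finitely many zeros and poles
  have hpole : logCounting Φ ⊤ =O[atTop] Real.log := by
    apply isBigO_log (A := A) (B := B) (ρ0 := max ρ0 1) (fun ρ hρ => logCounting_nonneg hρ)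
    intro ρ hρ
    obtain ⟨q, g0, g1, hg0, hg1, e0, e1, b1, b2, b3⟩ := h ρ ((le_max_left _ _).trans hρ)
    exact ((lc_quot hG0 hg0 hg1 n0 n1 e0 e1 ((le_max_right _ _).trans hρ)).1).trans b1
  have hzero : logCounting Φ 0 =O[atTop] Real.log := by
    apply isBigO_log (A := A) (B := B) (ρ0 := max ρ0 1) (fun ρ hρ => logCounting_nonneg hρ)
    intro ρ hρ
    obtain ⟨q, g0, g1, hg0, hg1, e0, e1, b1, b2, b3⟩ := h ρ ((le_max_left _ _).trans hρ)
    exact ((lc_quot hG0 hg0 hg1 n0 n1 e0 e1 ((le_max_right _ _).trans hρ)).2).trans b2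
  rw [logCounting_top] at hpole
  rw [logCounting_zero] at hzero
  have f1 := Function.locallyFinsuppWithin.finite_support_of_logCounting_isBigO_log
    (negPart_nonneg _) hpole
  have f2 := Function.locallyFinsuppWithin.finite_support_of_logCounting_isBigO_log
    (posPart_nonneg _) hzero
  have hfin : (divisor Φ univ).support.Finite := by
    apply (f1.union f2).subset
    intro z hz
    by_contra hcon
    rw [mem_union, not_or, Function.notMem_support, Function.notMem_support] at hcon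
    apply hz
    have h1 := posPart_sub_negPart (divisor Φ univ)
    rw [← h1, Function.locallyFinsuppWithin.coe_sub, Pi.sub_apply, hcon.1, hcon.2, sub_zero]
  have hord0 : ∀ u : ℂ, meromorphicOrderAt Φ u ≠ ⊤ := by
    intro u
    rw [meromorphicOrderAt_ne_top_iff_eventually_ne_zero (hΦm u)]
    filter_upwards [ev_ne hG0 n0 u, ev_ne hG1 n1 u] with w h1 h2
    exact div_ne_zero h2 h1
  have hord : ∀ u : (univ : Set ℂ), meromorphicOrderAt Φ u.1 ≠ ⊤ := fun u => hord0 u.1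
  obtain ⟨g, hg, hgne, hge⟩ := MeromorphicOn.extract_zeros_poles (fun z _ => hΦm z) hord hfin
  have hgd : Differentiable ℂ g := fun z => (hg z (mem_univ z)).differentiableAt
  have hgne' : ∀ z, g z ≠ 0 := fun z => hgne ⟨z, mem_univ z⟩
  let D : ℂ → ℤ := fun u => divisor Φ univ u
  set T : Finset ℂ := hfin.toFinset with hT
  have hprod : ∀ z, (∏ᶠ u, (fun w : ℂ => w - u) ^ divisor Φ univ u) z
      = ∏ u ∈ T, (z - u) ^ D u := by
    intro z
    rw [finprod_eq_prod_of_mulSupport_subset (s := T)]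
    · simp [D]
    · rw [Function.FactorizedRational.mulSupport]
      intro u hu
      simp only [hT, Finite.coe_toFinset]
      exact hu
  have hge' : ∀ᶠ z in codiscrete ℂ, Φ z = (∏ u ∈ T, (z - u) ^ D u) * g z := by
    filter_upwards [hge] with z hz
    rw [hz, Pi.smul_apply', hprod, smul_eq_mul]
  -- the mean of `|log ‖g‖|`
  set T0 : ℝ := ∑ u ∈ T, ‖u‖ with hT0
  have hTn : ∀ u ∈ T, ‖u‖ ≤ T0 := fun u hu =>
    Finset.single_le_sum (f := fun u => ‖u‖) (fun i _ => norm_nonneg _) hu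
  set K : ℝ := ∑ u ∈ T, |(D u : ℝ)| with hK
  have hKn : 0 ≤ K := Finset.sum_nonneg fun _ _ => abs_nonneg _
  obtain ⟨c, hc, hgc⟩ := const_of_avg hgd hgne' (A := A + K * (2 * Real.log 2)) (B := B + 2 * K)
    (ρ0 := max (max ρ0 1) T0) (by
    intro ρ hρ
    have hρ1 : 1 ≤ ρ := ((le_max_right _ _).trans (le_max_left _ _)).trans hρ
    have hρ0 : ρ ≠ 0 := by linarith
    obtain ⟨q, g0, g1, hg0, hg1, e0, e1, b1, b2, b3⟩ := h ρ
      (((le_max_left _ _).trans (le_max_left _ _)).trans hρ)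
    have m0 : g0 0 ≠ 0 := fun h => n0 (by rw [e0, h, mul_zero])
    have m1 : g1 0 ≠ 0 := fun h => n1 (by rw [e1, h, mul_zero])
    have i0 := ci_abs (ci_log (mero_of_diff hgd) ρ)
    have i1 := ci_abs (ci_log (quot_mero hg0 hg1) ρ)
    have i2 : ∀ u ∈ T, CircleIntegrable (fun z => |Real.log ‖(z - u) ^ D u‖|) 0 ρ := by
      intro u _
      apply ci_abs
      apply ci_log
      intro z
      exact ((mero_of_diff (differentiable_id.sub_const u)) z).zpow (D u)
    have i3 : CircleIntegrable (fun z => ∑ u ∈ T, |Real.log ‖(z - u) ^ D u‖|) 0 ρ :=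
      CircleIntegrable.fun_sum _ i2
    have h1 : Real.circleAverage (fun z => |Real.log ‖g z‖|) 0 ρ
        ≤ Real.circleAverage (fun z => |Real.log ‖g1 z / g0 z‖|
          + ∑ u ∈ T, |Real.log ‖(z - u) ^ D u‖|) 0 ρ := by
      apply avg_le_cod i0 (i1.add i3) hρ0
      have hcs : ∀ {P : ℂ → Prop}, (∀ᶠ z in codiscrete ℂ, P z) →
          ∀ᶠ z in codiscreteWithin (sphere (0 : ℂ) |ρ|), P z := fun hP =>
        (codiscreteWithin_mono (subset_univ _)) hP
      filter_upwards [hcs hge', ne_cod hG0 n0 ρ, ne_cod hG1 n1 ρ] with z hz1 hz2 hz3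
      rw [Pi.add_apply]
      have a1 : Φ z = g1 z / g0 z := by
        rw [hΦ]
        simp only
        rw [e0, e1]
        rw [e0] at hz2
        have := left_ne_zero_of_mul hz2
        have := right_ne_zero_of_mul hz2
        field_simp
      have a2 : Φ z ≠ 0 := div_ne_zero hz3 hz2
      have a3 : ∏ u ∈ T, (z - u) ^ D u ≠ 0 := by
        intro h0
        rw [hz1, h0, zero_mul] at a2
        exact a2 rfl
      have a4 : Real.log ‖g z‖ = Real.log ‖g1 z / g0 z‖ - ∑ u ∈ T, Real.log ‖(z - u) ^ D u‖ := by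
        rw [← a1, hz1, norm_mul, Real.log_mul (norm_ne_zero_iff.mpr a3)
          (norm_ne_zero_iff.mpr (hgne' z)), norm_prod, Real.log_prod]
        · ring
        · intro u hu
          exact norm_ne_zero_iff.mpr (Finset.prod_ne_zero_iff.mp a3 u hu)
      rw [a4]
      refine (abs_sub _ _).trans ?_
      gcongr
      exact Finset.abs_sum_le_sum_abs _ _
    have e2 : Real.circleAverage (fun z => |Real.log ‖g1 z / g0 z‖|
          + ∑ u ∈ T, |Real.log ‖(z - u) ^ D u‖|) 0 ρ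
        = (2 * T2 g0 g1 ρ - L g0 ρ - L g1 ρ)
          + ∑ u ∈ T, Real.circleAverage (fun z => |Real.log ‖(z - u) ^ D u‖|) 0 ρ := by
      rw [Real.circleAverage_fun_add i1 i3, avg_abs_quot hg0 hg1 m0 m1 hρ0,
        Real.circleAverage_fun_sum i2]
    have h2 : ∑ u ∈ T, Real.circleAverage (fun z => |Real.log ‖(z - u) ^ D u‖|) 0 ρ
        ≤ K * (2 * Real.log (2 * ρ)) := by
      rw [hK, Finset.sum_mul]
      apply Finset.sum_le_sum
      intro u hu
      exact avg_abs_lin' hρ1 ((hTn u hu).trans ((le_max_right _ _).trans hρ)) (D u)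
    have h3 : Real.log (2 * ρ) = Real.log 2 + Real.log ρ := Real.log_mul (by norm_num) hρ0
    rw [h3] at h2
    rw [e2] at h1
    linarith)
  refine ⟨fun z => (∏ u ∈ T, (z - u) ^ D u) * c, ?_, T0, ?_⟩
  · apply MeromorphicAt.fun_mul _ (MeromorphicAt.const c 0)
    apply MeromorphicAt.fun_prod
    intro u _
    apply MeromorphicAt.fun_zpow
    exact ((MeromorphicAt.id 0).fun_inv).fun_sub (MeromorphicAt.const u 0)
  · intro z hz
    have hne : ∀ u ∈ T, z - u ≠ 0 := by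
      intro u hu h0
      have := hTn u hu
      rw [← sub_eq_zero.mp h0] at this
      linarith
    have hRan : AnalyticAt ℂ (fun z => (∏ u ∈ T, (z - u) ^ D u) * c) z := by
      apply AnalyticAt.fun_mul _ analyticAt_const
      apply Finset.analyticAt_fun_prod
      intro u hu
      exact (analyticAt_id.fun_sub analyticAt_const).fun_zpow (hne u hu)
    have hcont : ContinuousAt (fun z => G1 z - (∏ u ∈ T, (z - u) ^ D u) * c * G0 z) z :=
      (hG1.continuous.continuousAt).sub (hRan.continuousAt.mul hG0.continuous.continuousAt)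
    have hev : ∀ᶠ w in 𝓝[≠] z, G1 w - (∏ u ∈ T, (w - u) ^ D u) * c * G0 w = 0 := by
      have h1 : ∀ᶠ w in 𝓝[≠] z, Φ w = (∏ u ∈ T, (w - u) ^ D u) * g w := by
        have h3 := (mem_codiscreteWithin_iff_forall_mem_nhdsNE.1 hge') z (mem_univ _)
        filter_upwards [h3] with w hw
        rcases hw with hw | hw
        · exact hw
        · exact absurd (mem_univ w) hw
      filter_upwards [h1, ev_ne hG0 n0 z] with w hw1 hw2
      rw [hgc, hΦ] at hw1
      simp only at hw1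
      rw [div_eq_iff hw2] at hw1
      rw [hw1, sub_self]
    have h2 : G1 z - (∏ u ∈ T, (z - u) ^ D u) * c * G0 z = 0 := by
      have t1 := hcont.tendsto.mono_left (nhdsWithin_le_nhds (s := {z}ᶜ))
      have t2 : Tendsto (fun w => G1 w - (∏ u ∈ T, (w - u) ^ D u) * c * G0 w) (𝓝[≠] z) (𝓝 0) :=
        tendsto_const_nhds.congr' (by
          filter_upwards [hev] with w hw
          exact hw.symm)
      exact tendsto_nhds_unique t1 t2
    exact sub_eq_zero.mp h2

end Pool.Agent.W603.BP
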