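import Pool.Agent.W603.BP.Lat

/-!
Extension of holomorphic maps from the punctured disc to projective space.
-/

set_option autoImplicit false

namespace Pool.Agent.W603.BP

open Filter Metric Set Topology Pool.Agent.H159R3.NV

/-- The holomorphic map from the punctured disc to `P^n` with the vector of homogeneous coordinates
`f` extends to a holomorphic map from the disc to `P^n`. -/
def Extends {n : ℕ} (f : ℂ → Fin (n + 1) → ℂ) : Prop :=
  ∃ g : ℂ → Fin (n + 1) → ℂ, DifferentiableOn ℂ g (ball 0 1) ∧ (∀ w ∈ ball (0 : ℂ) 1, g w ≠ 0) ∧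
    ∀ w ∈ ball (0 : ℂ) 1 \ {0}, ∃ c : ℂ, f w = c • g w

theorem mem_disc {w : ℂ} : w ∈ ball (0 : ℂ) 1 \ {0} ↔ w ∈ PB 1 := by
  constructor
  · rintro ⟨h1, h2⟩
    exact ⟨h2, by simpa using h1⟩
  · rintro ⟨h1, h2⟩
    exact ⟨by simpa using h2, h1⟩

theorem extends_of {n : ℕ} (f : ℂ → Fin (n + 1) → ℂ)
    (hf : ∀ j, AnalyticOnNhd ℂ (fun w => f w j) (PB 1)) (hne : ∀ w ∈ PB 1, f w ≠ 0)
    (h : ∀ j k, Nz (fun w => f w j) → Nz (fun w => f w k) →
      MRel (fun w => f w j) (fun w => f w k)) : Extends f := by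
  classical
  have hP : ∀ j, Pun (fun w => f w j) := fun j => on_pun one_pos (hf j)
  -- a nonzero coordinate
  obtain ⟨k0, hk0⟩ : ∃ k, Nz (fun w => f w k) := by
    by_contra hcon
    have h1 : ∀ᶠ w in 𝓝[≠] (0 : ℂ), ∀ k, f w k = 0 := by
      rw [Filter.eventually_all]
      intro k
      by_contra hk
      exact hcon ⟨k, hk⟩
    obtain ⟨w, hw1, hw2⟩ := (h1.and (PB_mem one_pos)).exists
    exact hne w hw2 (funext hw1)
  have h1 : ∀ j, ∃ ρ : ℂ → ℂ, MeromorphicAt ρ 0 ∧
      ∀ᶠ w in 𝓝[≠] (0 : ℂ), f w j = ρ w * f w k0 := by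
    intro j
    by_cases hj : Nz (fun w => f w j)
    · exact h j k0 hj hk0
    · refine ⟨fun _ => 0, MeromorphicAt.const 0 0, ?_⟩
      have hj' : ∀ᶠ w in 𝓝[≠] (0 : ℂ), f w j = 0 := not_not.mp hj
      filter_upwards [hj'] with w hw
      rw [hw, zero_mul]
  choose ρ hρ hρe using h1
  choose d hd using hρ
  set D : ℕ := ∑ j, d j with hD
  have hdD : ∀ j, d j ≤ D := fun j =>
    Finset.single_le_sum (f := d) (fun i _ => Nat.zero_le _) (Finset.mem_univ j)
  let a : Fin (n + 1) → ℂ → ℂ := fun j w => w ^ (D - d j) * ((w - 0) ^ d j • ρ j w)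
  have ha : ∀ j, AnalyticAt ℂ (a j) 0 := fun j => (analyticAt_id.fun_pow _).fun_mul (hd j)
  have hae : ∀ j w, a j w = w ^ D * ρ j w := by
    intro j w
    simp only [a, sub_zero, smul_eq_mul]
    rw [← mul_assoc, ← pow_add, Nat.sub_add_cancel (hdD j)]
  have haf : ∀ j, ∀ᶠ w in 𝓝[≠] (0 : ℂ), f w j * w ^ D = a j w * f w k0 := by
    intro j
    filter_upwards [hρe j] with w hw
    rw [hae, hw]; ring
  -- the minimal order
  obtain ⟨j1, -, hj1⟩ := Finset.exists_min_image (Finset.univ : Finset (Fin (n + 1)))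
    (fun j => analyticOrderAt (a j) 0) Finset.univ_nonempty
  have htop : analyticOrderAt (a j1) 0 ≠ ⊤ := by
    intro h0
    have h2 : analyticOrderAt (a k0) 0 = ⊤ := top_le_iff.mp (h0 ▸ hj1 k0 (Finset.mem_univ k0))
    have h3 := analyticOrderAt_eq_top.mp h2
    apply hk0
    filter_upwards [haf k0, nhdsWithin_le_nhds h3, self_mem_nhdsWithin] with w h4 h5 h6
    rw [h5, zero_mul] at h4
    exact (mul_eq_zero.mp h4).resolve_right (pow_ne_zero _ h6)
  obtain ⟨m, hm⟩ := ENat.ne_top_iff_exists.mp htop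
  have hh : ∀ j, ∃ g : ℂ → ℂ, AnalyticAt ℂ g 0 ∧ (∀ᶠ w in 𝓝 (0 : ℂ), a j w = w ^ m * g w) ∧
      (j = j1 → g 0 ≠ 0) := by
    intro j
    by_cases hj : j = j1
    · subst hj
      obtain ⟨g, hg1, hg2, hg3⟩ := ((ha j).analyticOrderAt_eq_natCast).mp hm.symm
      refine ⟨g, hg1, ?_, fun _ => hg2⟩
      filter_upwards [hg3] with w hw
      rw [hw, sub_zero, smul_eq_mul]
    · have h2 : (m : ℕ∞) ≤ analyticOrderAt (a j) 0 := by
        rw [hm]
        exact hj1 j (Finset.mem_univ j)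
      obtain ⟨g, hg1, hg2⟩ := (natCast_le_analyticOrderAt (ha j)).mp h2
      refine ⟨g, hg1, ?_, fun h => absurd h hj⟩
      filter_upwards [hg2] with w hw
      rw [hw, sub_zero, smul_eq_mul]
  choose g hg1 hg2 hg3 using hh
  have hgj1 : ∀ᶠ w in 𝓝[≠] (0 : ℂ), g j1 w ≠ 0 :=
    nhdsWithin_le_nhds ((hg1 j1).continuousAt.eventually_ne (hg3 j1 rfl))
  have hall : ∀ᶠ w in 𝓝[≠] (0 : ℂ), ∀ j, f w j * w ^ D = w ^ m * g j w * f w k0 := by
    rw [Filter.eventually_all]
    intro j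
    filter_upwards [haf j, nhdsWithin_le_nhds (hg2 j)] with w h2 h3
    rw [h2, h3]
  have hs0 : ∀ᶠ w in 𝓝[≠] (0 : ℂ), f w j1 ≠ 0 := by
    filter_upwards [hall, hgj1, self_mem_nhdsWithin, PB_mem one_pos] with w h2 h3 h4 h5
    intro h0
    have h4' : w ≠ 0 := h4
    have h6 := h2 j1
    rw [h0, zero_mul] at h6
    have h7 : f w k0 = 0 :=
      (mul_eq_zero.mp h6.symm).resolve_left (mul_ne_zero (pow_ne_zero _ h4') h3)
    apply hne w h5
    funext j
    have h8 := h2 j
    rw [h7, mul_zero] at h8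
    exact (mul_eq_zero.mp h8).resolve_right (pow_ne_zero _ h4')
  have hrat : ∀ᶠ w in 𝓝[≠] (0 : ℂ), ∀ j, f w j = g j w / g j1 w * f w j1 := by
    filter_upwards [hall, hgj1, self_mem_nhdsWithin] with w h2 h3 h4
    intro j
    have h4' : w ^ D ≠ 0 := pow_ne_zero _ h4
    apply mul_right_cancel₀ h4'
    rw [h2 j, mul_assoc (g j w / g j1 w), h2 j1]
    field_simp
  obtain ⟨k, q, P, hq, hPe, hse⟩ := pun_factor (hP j1) hs0
  let S : ℂ → ℂ := fun w => (w⁻¹) ^ k * Complex.exp (P w⁻¹)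
  have hS0 : ∀ w, w ≠ 0 → S w ≠ 0 := fun w hw =>
    mul_ne_zero (zpow_ne_zero _ (inv_ne_zero hw)) (Complex.exp_ne_zero _)
  have hSa : ∀ w, w ≠ 0 → AnalyticAt ℂ S w := by
    intro w hw
    apply AnalyticAt.fun_mul
    · exact (analyticAt_inv hw).fun_zpow (inv_ne_zero hw)
    · apply AnalyticAt.cexp
      exact (hPe.analyticAt _).comp (g := P) (f := fun w : ℂ => w⁻¹) (analyticAt_inv hw)
  let G : ℂ → Fin (n + 1) → ℂ := fun w j =>
    if w = 0 then g j 0 / g j1 0 * Complex.exp (q 0) else f w j / S w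
  have hG0 : ∀ j, G 0 j = g j 0 / g j1 0 * Complex.exp (q 0) := fun j => if_pos rfl
  have hGn : ∀ w, w ≠ 0 → ∀ j, G w j = f w j / S w := fun w hw j => if_neg hw
  have hGd : ∀ j, ∀ w ∈ ball (0 : ℂ) 1, DifferentiableAt ℂ (fun w => G w j) w := by
    intro j w hw
    by_cases h0 : w = 0
    · subst h0
      have h2 : DifferentiableAt ℂ (fun w => g j w / g j1 w * Complex.exp (q w)) 0 :=
        (((hg1 j).fun_div (hg1 j1) (hg3 j1 rfl)).fun_mul hq.cexp).differentiableAt
      apply h2.congr_of_eventuallyEq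
      have h3 : ∀ᶠ w in 𝓝[≠] (0 : ℂ), G w j = g j w / g j1 w * Complex.exp (q w) := by
        filter_upwards [hrat, hse, self_mem_nhdsWithin] with w h4 h5 h6
        have h6' : w ≠ 0 := h6
        rw [hGn w h6', h4 j, h5]
        have := hS0 w h6'
        rw [div_eq_iff this]
        simp only [S]
        ring
      rw [eventually_nhdsWithin_iff] at h3
      filter_upwards [h3] with w hw
      by_cases h0 : w = 0
      · rw [h0, hG0]
      · exact hw h0
    · have hwP : w ∈ PB 1 := ⟨h0, by simpa using hw⟩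
      have h2 : DifferentiableAt ℂ (fun w => f w j / S w) w :=
        ((hf j w hwP).fun_div (hSa w h0) (hS0 w h0)).differentiableAt
      apply h2.congr_of_eventuallyEq
      filter_upwards [isOpen_ne.mem_nhds h0] with z hz
      exact hGn z hz j
  refine ⟨G, ?_, ?_, ?_⟩
  · intro w hw
    apply DifferentiableAt.differentiableWithinAt
    rw [differentiableAt_pi]
    exact fun j => hGd j w hw
  · intro w hw h0
    by_cases hw0 : w = 0
    · subst hw0
      have h2 := congrFun h0 j1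
      rw [hG0] at h2
      have h3 := hg3 j1 rfl
      rw [div_self h3, one_mul] at h2
      exact Complex.exp_ne_zero _ h2
    · have hwP : w ∈ PB 1 := ⟨hw0, by simpa using hw⟩
      apply hne w hwP
      funext j
      have h2 := congrFun h0 j
      rw [hGn w hw0] at h2
      exact (div_eq_zero_iff.mp h2).resolve_right (hS0 w hw0)
  · intro w hw
    have hw0 : w ≠ 0 := hw.2
    refine ⟨S w, ?_⟩
    funext j
    rw [Pi.smul_apply, smul_eq_mul, hGn w hw0]
    have := hS0 w hw0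
    field_simp

end Pool.Agent.W603.BP
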