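import Pool.Agent.W603.BP.Core
import Pool.Agent.W603.BP.Rat

/-!
The core statement: quotients of functions whose `N`-th powers satisfy a minimal relation in a
punctured neighbourhood of infinity are meromorphic at infinity.
-/

set_option autoImplicit false

namespace Pool.Agent.W603.BP

open Filter Metric Set Topology Pool.Agent.H159R3.NV

theorem ne_on_smaller {r0 r : ℝ} (hr0 : 0 < r0) (hr : r0 ≤ r) {F : ℂ → ℂ}
    (hF : AnalyticOnNhd ℂ F (Ext r0)) (hne : ∃ z ∈ Ext r0, F z ≠ 0) : ∃ z ∈ Ext r, F z ≠ 0 := by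
  by_contra hcon
  push Not at hcon
  obtain ⟨z1, hz1, h1⟩ := hne
  obtain ⟨z0, hz0⟩ := Ext_nonempty r
  exact h1 (hF.eqOn_zero_of_preconnected_of_eventuallyEq_zero (Ext_preconn hr0)
    (Ext_mono hr hz0) (by
      filter_upwards [(Ext_open r).mem_nhds hz0] with z hz
      exact hcon z hz) hz1)

theorem prod_ne {r0 : ℝ} (hr0 : 0 < r0) {ι : Type} (s : Finset ι) (f : ι → ℂ → ℂ)
    (hf : ∀ i ∈ s, AnalyticOnNhd ℂ (f i) (Ext r0)) (hne : ∀ i ∈ s, ∃ z ∈ Ext r0, f i z ≠ 0) :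
    AnalyticOnNhd ℂ (fun z => ∏ i ∈ s, f i z) (Ext r0) ∧ ∃ z ∈ Ext r0, ∏ i ∈ s, f i z ≠ 0 := by
  classical
  induction s using Finset.induction_on with
  | empty =>
    obtain ⟨z, hz⟩ := Ext_nonempty r0
    exact ⟨fun z _ => by simpa using analyticAt_const, z, hz, by simp⟩
  | insert a s ha ih =>
    obtain ⟨h1, h2⟩ := ih (fun i hi => hf i (Finset.mem_insert_of_mem hi))
      (fun i hi => hne i (Finset.mem_insert_of_mem hi))
    have h3 := hf a (Finset.mem_insert_self a s)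
    have h4 := hne a (Finset.mem_insert_self a s)
    simp only [Finset.prod_insert ha]
    refine ⟨fun z hz => (h3 z hz).fun_mul (h1 z hz), ?_⟩
    by_contra hcon
    push Not at hcon
    rcases an_eq_zero_or (Ext_open r0) (Ext_preconn hr0) h3 h1 hcon with h | h
    · obtain ⟨z, hz, hz2⟩ := h4
      exact hz2 (h z hz)
    · obtain ⟨z, hz, hz2⟩ := h2
      exact hz2 (h z hz)

theorem unit_mero {a : ℝ} (ha : 0 < a) (k : ℤ) {q : ℂ → ℂ}
    (hq : DifferentiableOn ℂ q (ball 0 a⁻¹)) :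
    MeromorphicAt (fun w : ℂ => (w⁻¹) ^ k * Complex.exp (q (w⁻¹)⁻¹)) 0 := by
  simp only [inv_inv]
  apply MeromorphicAt.fun_mul
  · exact ((MeromorphicAt.id 0).fun_inv).fun_zpow k
  · apply AnalyticAt.meromorphicAt
    exact (hq.analyticAt (isOpen_ball.mem_nhds (mem_ball_self (inv_pos.mpr ha)))).cexp

theorem core {m N : ℕ} (hm : 1 ≤ m) (hN : m ^ 2 ≤ N) {r0 : ℝ} (hr0 : 0 < r0)
    (v : Fin (m + 1) → ℂ → ℂ) (hv : ∀ j, AnalyticOnNhd ℂ (v j) (Ext r0))
    (hs : ∀ z ∈ Ext r0, ∑ j, v j z ^ N = 0) (hne : ∀ j, ∃ z ∈ Ext r0, v j z ≠ 0)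
    (hW : ∃ z ∈ Ext r0, wr N v 0 z ≠ 0) (j : Fin (m + 1)) :
    ∃ R : ℂ → ℂ, MeromorphicAt (fun w => R w⁻¹) 0 ∧ ∃ R0 : ℝ, ∀ z, R0 < ‖z‖ →
      v j z = R z * v 0 z := by
  classical
  have hmN : m ≤ N + 1 := by nlinarith
  set W : ℂ → ℂ := wr N v 0 with hWdef
  have hWan : AnalyticOnNhd ℂ W (Ext r0) := wr_an_loc N v hv 0
  -- the product of all functions
  obtain ⟨hP1, hP2⟩ := prod_ne hr0 Finset.univ v (fun j _ => hv j) (fun j _ => hne j)
  have hF1 : AnalyticOnNhd ℂ (fun z => (∏ j, v j z) * W z) (Ext r0) :=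
    fun z hz => (hP1 z hz).fun_mul (hWan z hz)
  have hF2 : ∃ z ∈ Ext r0, (∏ j, v j z) * W z ≠ 0 := by
    by_contra hcon
    push Not at hcon
    rcases an_eq_zero_or (Ext_open r0) (Ext_preconn hr0) hP1 hWan hcon with h | h
    · obtain ⟨z, hz, hz2⟩ := hP2
      exact hz2 (h z hz)
    · obtain ⟨z, hz, hz2⟩ := hW
      exact hz2 (h z hz)
  set r' : ℝ := max r0 1 with hr'
  have hr'0 : 0 < r' := lt_of_lt_of_le hr0 (le_max_left _ _)
  have hF3 := ne_on_smaller hr0 (le_max_left r0 1) hF1 hF2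
  obtain ⟨r1, r2, h01, h12, hfree⟩ := annulus hr'0
    (hF1.mono (Ext_mono (le_max_left r0 1))) hF3
  obtain ⟨a, h1a, ha2⟩ := exists_between h12
  have hr1 : 1 < r1 := lt_of_le_of_lt (le_max_right _ _) h01
  have hr01 : r0 < r1 := lt_of_le_of_lt (le_max_left _ _) h01
  have ha1 : 1 ≤ a := by linarith
  have ha0 : 0 < a := by linarith
  have hra : r0 ≤ a := by linarith
  have hEa : Ext a ⊆ Ext r0 := Ext_mono hra
  have hbv := fun j => birkhoff (F := v j) (by linarith : (0 : ℝ) ≤ r1) h1a ha2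
    ((hv j).differentiableOn.mono (Ext_mono hr01.le)) (fun z h1 h2 =>
      Finset.prod_ne_zero_iff.mp (left_ne_zero_of_mul (hfree z h1 h2)) j (Finset.mem_univ j))
  choose k q G hq hG hG0 hvG using hbv
  obtain ⟨kW, qW, GW, hqW, hGW, hGW0, hWG⟩ := birkhoff (F := W) (by linarith : (0 : ℝ) ≤ r1) h1a ha2
    (hWan.differentiableOn.mono (Ext_mono hr01.le)) (fun z h1 h2 =>
      right_ne_zero_of_mul (hfree z h1 h2))
  let H : Fin (m + 1) → ℂ → ℂ := fun j z => z ^ k j * Complex.exp (q j z⁻¹)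
  let HW : ℂ → ℂ := fun z => z ^ kW * Complex.exp (qW z⁻¹)
  have hH : ∀ j, Tame a (H j) := fun j => tame_of ha1 (k j) (hq j)
  have hHW : Tame a HW := tame_of ha1 kW hqW
  have hvH : ∀ j, ∀ z ∈ Ext a, H j z * G j z = v j z := fun j z hz => (hvG j z hz).symm
  obtain ⟨A, κ, Λ, hsys⟩ := sys_of hmN ha1 H G hH hG hG0 (by
    intro z hz
    rw [← hs z (hEa hz)]
    exact Finset.sum_congr rfl fun j _ => by rw [hvH j z hz]) HW GW hHW hGW hGW0 (by
    intro z hz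
    rw [wr_congr_loc N (Ext_open a) hvH 0 z hz]
    exact hWG z hz)
  have n0 : ∀ j, G j 0 ≠ 0 := fun j => hG0 j 0 (by simpa using ha0.le)
  set U : ℝ := Real.log A with hU
  set KA : ℝ := 1 + 2 * ((m + 1) * (U + κ * Real.log 4
      + (1 + (N + 1) * (m + 1)) * Λ + (N + 1) * Λ))
      + 2 * ((m + 1) * m ^ 2) * (7 + 3 * Real.log 4) + 576 * ((m + 1) * m ^ 2) ^ 2 with hKA
  set KB : ℝ := 2 * ((m + 1) * κ) + 2 * ((m + 1) * m ^ 2) * 3 with hKB
  obtain ⟨R, hR, R0, hRe⟩ := rational_quot (hG 0) (hG j) (n0 0) (n0 j) (A := 2 * KA) (B := 2 * KB)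
    (ρ0 := a + 2) (by
    intro ρ hρ
    have hρ1 : 1 ≤ ρ := by linarith
    have hρ0 : 0 < ρ := by linarith
    obtain ⟨qq, g, gW, hfac, hS⟩ := hsys (ρ + 3) (by linarith)
    have hgrow := hS.grow hm hN hρ1 hρ
    have hl4 : Real.log (ρ + 3) ≤ Real.log 4 + Real.log ρ := by
      rw [← Real.log_mul (by norm_num) hρ0.ne']
      exact Real.log_le_log (by linarith) (by linarith)
    have hSS : SS g Λ ρ ≤ KA + KB * Real.log ρ := by
      refine hgrow.trans ?_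
      have e1 : (κ : ℝ) * Real.log (ρ + 3) ≤ κ * (Real.log 4 + Real.log ρ) :=
        mul_le_mul_of_nonneg_left hl4 (Nat.cast_nonneg κ)
      have e2 : 2 * (((m : ℝ) + 1) * m ^ 2) * (7 + 3 * Real.log (ρ + 3))
          ≤ 2 * (((m : ℝ) + 1) * m ^ 2) * (7 + 3 * (Real.log 4 + Real.log ρ)) :=
        mul_le_mul_of_nonneg_left (by linarith) (by positivity)
      have e3 : 2 * (((m : ℝ) + 1) * (U + κ * Real.log (ρ + 3)
          + (1 + (N + 1) * (m + 1)) * Λ + (N + 1) * Λ))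
          ≤ 2 * (((m : ℝ) + 1) * (U + κ * (Real.log 4 + Real.log ρ)
          + (1 + (N + 1) * (m + 1)) * Λ + (N + 1) * Λ)) := by
        apply mul_le_mul_of_nonneg_left _ (by norm_num)
        apply mul_le_mul_of_nonneg_left _ (by positivity)
        linarith
      have e4 : KA + KB * Real.log ρ = 1 + 2 * (((m : ℝ) + 1) * (U + κ * (Real.log 4 + Real.log ρ)
          + (1 + (N + 1) * (m + 1)) * Λ + (N + 1) * Λ))
          + 2 * (((m : ℝ) + 1) * m ^ 2) * (7 + 3 * (Real.log 4 + Real.log ρ))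
          + 576 * ((m + 1) * m ^ 2) ^ 2 := by
        rw [hKA, hKB]
        ring
      rw [e4]
      linarith
    have t1 := hS.term_le j hρ0
    have t0 := hS.term_nonneg j hρ0
    have l0 := T2_ge_L0 (g 0) (g j) ρ
    have lj := T2_ge_L (hS.hg 0) (hS.hg j) (hS.hg0 0) (hS.hg0 j) hρ0.ne'
    have b0 := abs_le.mp (hS.hΛ 0)
    have bj := abs_le.mp (hS.hΛ j)
    have c0 := hS.L_ge 0 hρ0
    have cj := hS.L_ge j hρ0
    have e2 : 2 * KA + 2 * KB * Real.log ρ = 2 * (KA + KB * Real.log ρ) := by ring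
    refine ⟨qq, g 0, g j, hS.hg 0, hS.hg j, hfac 0, hfac j, ?_, ?_, ?_⟩ <;> rw [e2] <;> linarith)
  refine ⟨fun z => (H j z / H 0 z) * R z, ?_, max R0 a, ?_⟩
  · apply MeromorphicAt.fun_mul _ hR
    exact (unit_mero ha0 (k j) (hq j)).fun_div (unit_mero ha0 (k 0) (hq 0))
  · intro z hz
    have hz1 : R0 < ‖z‖ := lt_of_le_of_lt (le_max_left _ _) hz
    have hzE : z ∈ Ext a := lt_of_le_of_lt (le_max_right _ _) hz
    rw [← hvH j z hzE, ← hvH 0 z hzE, hRe z hz1]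
    have := (hH 0).ne z hzE
    field_simp

end Pool.Agent.W603.BP
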