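import Pool.Agent.W603.BP.Laur

/-!
Factorisation of a function that is holomorphic outside a disc.
-/

set_option autoImplicit false

namespace Pool.Agent.W603.BP

open Metric Set Complex MeasureTheory
open scoped Real Topology

theorem isOpen_ext (r : ℝ) : IsOpen {z : ℂ | r < ‖z‖} := isOpen_lt continuous_const continuous_norm

/-- a solution of `z Φ' = κ Φ` without zeros in an annulus is a constant multiple of a power -/
theorem power_of_ode {Φ : ℂ → ℂ} {a b : ℝ} (ha : 0 < a) (hab : a < b) (κ : ℂ)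
    (hΦ : ∀ z, a < ‖z‖ → ‖z‖ < b → HasDerivAt Φ (κ * z⁻¹ * Φ z) z)
    (hne : ∀ z, a < ‖z‖ → ‖z‖ < b → Φ z ≠ 0) :
    ∃ (k : ℤ) (C : ℂ), C ≠ 0 ∧ κ = k ∧ ∀ z, a < ‖z‖ → ‖z‖ < b → Φ z = C * z ^ k := by
  set S : Set ℂ := {ζ : ℂ | Real.log a < ζ.re ∧ ζ.re < Real.log b} with hS
  have hSo : IsOpen S := (isOpen_lt continuous_const continuous_re).inter
    (isOpen_lt continuous_re continuous_const)
  have hSc : Convex ℝ S := by
    have h1 : Convex ℝ {ζ : ℂ | Real.log a < ζ.re} := convex_halfSpace_re_gt _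
    have h2 : Convex ℝ {ζ : ℂ | ζ.re < Real.log b} := convex_halfSpace_re_lt _
    exact h1.inter h2
  have hb : 0 < b := ha.trans hab
  have hmem : ∀ ζ ∈ S, a < ‖exp ζ‖ ∧ ‖exp ζ‖ < b := by
    intro ζ hζ
    rw [Complex.norm_exp]
    constructor
    · rw [← Real.exp_log ha]; exact Real.exp_lt_exp.mpr hζ.1
    · rw [← Real.exp_log hb]; exact Real.exp_lt_exp.mpr hζ.2
  let Ψ : ℂ → ℂ := fun ζ => Φ (exp ζ) * exp (-(κ * ζ))
  have hΨ : ∀ ζ ∈ S, HasDerivAt Ψ 0 ζ := by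
    intro ζ hζ
    obtain ⟨h1, h2⟩ := hmem ζ hζ
    have h3 := (hΦ _ h1 h2).comp ζ (Complex.hasDerivAt_exp ζ)
    have h4 : HasDerivAt (fun ζ => exp (-(κ * ζ))) (exp (-(κ * ζ)) * (-(κ * 1))) ζ :=
      (((hasDerivAt_id ζ).const_mul κ).neg).cexp
    have h5 := h3.mul h4
    have e : κ * (exp ζ)⁻¹ * Φ (exp ζ) * exp ζ * exp (-(κ * ζ))
        + Φ (exp ζ) * (exp (-(κ * ζ)) * (-(κ * 1))) = 0 := by
      have := Complex.exp_ne_zero ζ
      field_simp
      ring
    have h6 : HasDerivAt Ψ (κ * (exp ζ)⁻¹ * Φ (exp ζ) * exp ζ * exp (-(κ * ζ))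
        + Φ (exp ζ) * (exp (-(κ * ζ)) * (-(κ * 1)))) ζ := h5
    rw [e] at h6
    exact h6
  have hconst : ∀ ζ ∈ S, ∀ ξ ∈ S, Ψ ζ = Ψ ξ := by
    intro ζ hζ ξ hξ
    exact hSo.is_const_of_deriv_eq_zero hSc.isPreconnected
      (fun w hw => (hΨ w hw).differentiableAt.differentiableWithinAt)
      (fun w hw => (hΨ w hw).deriv) hζ hξ
  have hlog : Real.log a < Real.log b := Real.log_lt_log ha hab
  set ζ0 : ℂ := (((Real.log a + Real.log b) / 2 : ℝ) : ℂ) with hζ0
  have hζ0S : ζ0 ∈ S := by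
    refine ⟨?_, ?_⟩ <;> rw [hζ0, ofReal_re] <;> linarith
  set C : ℂ := Ψ ζ0 with hC
  have hC0 : C ≠ 0 := by
    obtain ⟨h1, h2⟩ := hmem ζ0 hζ0S
    exact mul_ne_zero (hne _ h1 h2) (Complex.exp_ne_zero _)
  -- κ is an integer
  have hζ1S : ζ0 + 2 * π * I ∈ S := by
    have e : (ζ0 + 2 * π * I).re = ζ0.re := by simp
    rw [hS, mem_ofPred_eq, e]
    exact hζ0S
  have h1 := hconst _ hζ1S _ hζ0S
  have h2 : Ψ (ζ0 + 2 * π * I) = C * exp (-(κ * (2 * π * I))) := by
    simp only [Ψ, hC]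
    rw [Complex.exp_add, Complex.exp_two_pi_mul_I, mul_one, mul_assoc (Φ (exp ζ0)),
      ← Complex.exp_add]
    congr 2
    ring
  rw [h2] at h1
  have h3 : exp (-(κ * (2 * π * I))) = 1 := by
    apply mul_left_cancel₀ hC0
    rw [h1, mul_one]
  obtain ⟨n, hn⟩ := Complex.exp_eq_one_iff.mp h3
  have hκ : κ = ((-n : ℤ) : ℂ) := by
    have h4 : (2 * π * I : ℂ) ≠ 0 := Complex.two_pi_I_ne_zero
    apply mul_right_cancel₀ h4
    push_cast
    linear_combination -hn
  refine ⟨-n, C, hC0, hκ, ?_⟩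
  intro z hz1 hz2
  have hz0 : z ≠ 0 := by
    intro h
    rw [h, norm_zero] at hz1
    linarith
  have hzS : Complex.log z ∈ S := by
    rw [hS, mem_ofPred_eq, Complex.log_re]
    exact ⟨Real.log_lt_log ha hz1, Real.log_lt_log (ha.trans hz1) hz2⟩
  have h5 := hconst _ hzS _ hζ0S
  have h6 : Φ z * exp (-(κ * Complex.log z)) = C := by
    have : Ψ (Complex.log z) = Φ z * exp (-(κ * Complex.log z)) := by
      simp only [Ψ]
      rw [Complex.exp_log hz0]
    rw [← this]; exact h5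
  rw [← h6, hκ]
  have h7 : z ^ (-n : ℤ) = exp (((-n : ℤ) : ℂ) * Complex.log z) := by
    rw [Complex.exp_int_mul, Complex.exp_log hz0]
  rw [h7, mul_assoc, ← Complex.exp_add, neg_add_cancel, Complex.exp_zero, mul_one]

/-- factorisation of a function that is holomorphic outside a disc -/
theorem birkhoff {F : ℂ → ℂ} {r0 r1 a : ℝ} (hr0 : 0 ≤ r0) (ha : r0 < a) (ha1 : a < r1)
    (hF : DifferentiableOn ℂ F {z | r0 < ‖z‖}) (hne : ∀ z, r0 < ‖z‖ → ‖z‖ < r1 → F z ≠ 0) :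
    ∃ (k : ℤ) (q G : ℂ → ℂ), DifferentiableOn ℂ q (ball 0 a⁻¹) ∧ Differentiable ℂ G ∧
      (∀ z, ‖z‖ ≤ a → G z ≠ 0) ∧ ∀ z, a < ‖z‖ → F z = z ^ k * exp (q z⁻¹) * G z := by
  have ha0 : 0 < a := hr0.trans_lt ha
  obtain ⟨b, hab, hb⟩ := exists_between ha1
  have hb0 : 0 < b := ha0.trans hab
  have hA : IsOpen {z : ℂ | r0 < ‖z‖ ∧ ‖z‖ < r1} :=
    (isOpen_lt continuous_const continuous_norm).inter (isOpen_lt continuous_norm continuous_const)
  have hφ : DifferentiableOn ℂ (fun z => deriv F z / F z) {z | r0 < ‖z‖ ∧ ‖z‖ < r1} := by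
    have h1 : DifferentiableOn ℂ F {z | r0 < ‖z‖ ∧ ‖z‖ < r1} := hF.mono fun z hz => hz.1
    exact (h1.deriv hA).fun_div h1 (fun z hz => hne z hz.1 hz.2)
  obtain ⟨P, Q, hP, hQ, hPQ⟩ := split hr0 ha hab hb hφ
  obtain ⟨p, hp⟩ := hP.isExactOn_ball
  have h0mem : (0 : ℂ) ∈ ball (0 : ℂ) a⁻¹ := mem_ball_self (inv_pos.mpr ha0)
  have hQ1 : DifferentiableOn ℂ (dslope Q 0) (ball 0 a⁻¹) :=
    (Complex.differentiableOn_dslope (isOpen_ball.mem_nhds h0mem)).mpr hQ
  obtain ⟨q, hq⟩ := hQ1.isExactOn_ball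
  set κ : ℂ := Q 0 with hκ
  have hz0 : ∀ z : ℂ, a < ‖z‖ → z ≠ 0 := by
    intro z hz h
    rw [h, norm_zero] at hz
    linarith
  have hinv : ∀ z : ℂ, a < ‖z‖ → z⁻¹ ∈ ball (0 : ℂ) a⁻¹ := by
    intro z hz
    rw [mem_ball, dist_zero_right, norm_inv]
    exact inv_strictAnti₀ ha0 hz
  let Φ : ℂ → ℂ := fun z => F z * exp (-p z) * exp (q z⁻¹)
  obtain ⟨k, C, hC, hk, hΦk⟩ := power_of_ode (Φ := Φ) ha0 hab κ (by
    intro z h1 h2
    have hzn := hz0 z h1
    have hFd : HasDerivAt F (deriv F z) z :=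
      (hF.differentiableAt ((isOpen_ext r0).mem_nhds (ha.trans h1))).hasDerivAt
    have hpd : HasDerivAt (fun z => exp (-p z)) (exp (-p z) * -P z) z :=
      (hp z (by simpa using h2)).neg.cexp
    have hqd : HasDerivAt (fun z => exp (q z⁻¹))
        (exp (q z⁻¹) * (dslope Q 0 z⁻¹ * -(z ^ 2)⁻¹)) z :=
      ((hq z⁻¹ (hinv z h1)).comp z (hasDerivAt_inv hzn)).cexp
    have h3 := (hFd.mul hpd).mul hqd
    have h4 := hPQ z h1 h2
    have hFn := hne z (ha.trans h1) (h2.trans hb)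
    have hds : Q z⁻¹ = κ + z⁻¹ * dslope Q 0 z⁻¹ := by
      have := sub_smul_dslope Q 0 z⁻¹
      rw [sub_zero, smul_eq_mul] at this
      rw [this, hκ]; ring
    rw [hds, div_eq_iff hFn] at h4
    have e : (deriv F z * exp (-p z) + F z * (exp (-p z) * -P z)) * exp (q z⁻¹)
        + F z * exp (-p z) * (exp (q z⁻¹) * (dslope Q 0 z⁻¹ * -(z ^ 2)⁻¹))
        = κ * z⁻¹ * Φ z := by
      simp only [Φ]
      rw [h4]
      field_simp
      ring
    have h5 : HasDerivAt Φ ((deriv F z * exp (-p z) + F z * (exp (-p z) * -P z)) * exp (q z⁻¹)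
        + F z * exp (-p z) * (exp (q z⁻¹) * (dslope Q 0 z⁻¹ * -(z ^ 2)⁻¹))) z := h3
    rw [e] at h5
    exact h5) (by
    intro z h1 h2
    exact mul_ne_zero (mul_ne_zero (hne z (ha.trans h1) (h2.trans hb)) (Complex.exp_ne_zero _))
      (Complex.exp_ne_zero _))
  have hFann : ∀ z, a < ‖z‖ → ‖z‖ < b → F z = z ^ k * exp (-q z⁻¹) * (C * exp (p z)) := by
    intro z h1 h2
    have h3 := hΦk z h1 h2
    have e1 : F z = Φ z * exp (p z) * exp (-q z⁻¹) := by
      simp only [Φ]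
      rw [Complex.exp_neg, Complex.exp_neg]
      have := Complex.exp_ne_zero (p z)
      have := Complex.exp_ne_zero (q z⁻¹)
      field_simp
    rw [e1, h3]
    ring
  classical
  let G : ℂ → ℂ := fun z => if ‖z‖ < b then C * exp (p z) else F z / (z ^ k * exp (-q z⁻¹))
  have hG1 : ∀ z, ‖z‖ < b → G z = C * exp (p z) := fun z hz => if_pos hz
  have hG2 : ∀ z, a < ‖z‖ → G z = F z / (z ^ k * exp (-q z⁻¹)) := by
    intro z hz
    by_cases h : ‖z‖ < b
    · rw [hG1 z h, hFann z hz h]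
      have h1 : z ^ k ≠ 0 := zpow_ne_zero _ (hz0 z hz)
      have h2 := Complex.exp_ne_zero (-q z⁻¹)
      field_simp
    · exact if_neg h
  refine ⟨k, fun w => -q w, G, ?_, ?_, ?_, ?_⟩
  · intro w hw
    exact (hq w hw).differentiableAt.differentiableWithinAt.fun_neg
  · intro z
    by_cases h : ‖z‖ < b
    · have h1 : DifferentiableAt ℂ (fun z => C * exp (p z)) z :=
        ((hp z (by simpa using h)).differentiableAt.cexp).const_mul C
      apply h1.congr_of_eventuallyEq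
      filter_upwards [(isOpen_lt continuous_norm continuous_const).mem_nhds h] with w hw
      exact hG1 w hw
    · have haz : a < ‖z‖ := hab.trans_le (not_lt.mp h)
      have h1 : DifferentiableAt ℂ (fun z => F z / (z ^ k * exp (-q z⁻¹))) z := by
        apply DifferentiableAt.fun_div
        · exact hF.differentiableAt ((isOpen_ext r0).mem_nhds (ha.trans haz))
        · apply DifferentiableAt.fun_mul
          · exact differentiableAt_zpow.mpr (Or.inl (hz0 z haz))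
          · apply DifferentiableAt.cexp
            apply DifferentiableAt.fun_neg
            exact (hq _ (hinv z haz)).differentiableAt.comp z (differentiableAt_inv (hz0 z haz))
        · exact mul_ne_zero (zpow_ne_zero _ (hz0 z haz)) (Complex.exp_ne_zero _)
      apply h1.congr_of_eventuallyEq
      filter_upwards [(isOpen_ext a).mem_nhds haz] with w hw
      exact hG2 w hw
  · intro z hz
    rw [hG1 z (hz.trans_lt hab)]
    exact mul_ne_zero hC (Complex.exp_ne_zero _)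
  · intro z hz
    rw [hG2 z hz]
    have h1 : z ^ k ≠ 0 := zpow_ne_zero _ (hz0 z hz)
    have h2 := Complex.exp_ne_zero (-q z⁻¹)
    field_simp

end Pool.Agent.W603.BP
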