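import Pool.Agent.W603.BP.SysE
import Pool.Agent.H159R3.NV.Growth

/-!
The recursive inequality.
-/

set_option autoImplicit false

namespace Pool.Agent.W603.BP

open Filter Metric Real Set Topology Pool.Agent.H159R3.NV

section

variable {m N : ℕ} {v : Fin (m + 1) → ℂ → ℂ} {gW : ℂ → ℂ} {A0 : ℝ} {κ : ℕ} {Λ a Rs : ℝ}

/-- the recursive inequality -/
theorem SysE.recur (h : SysE m N v gW A0 κ Λ a Rs) (hm : 1 ≤ m) (hN : m ^ 2 ≤ N) {r δ : ℝ} (hr : 1 ≤ r)
    (har : a ≤ r)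
    (hδ : 0 < δ) (hδ1 : δ ≤ 1) (hR : r + 4 * δ ≤ Rs) :
    SS v Λ r ≤ (m + 1) * (Real.log A0 + κ * Real.log (r + 4 * δ)
      + m ^ 2 * Real.log (1000 * (r + 4 * δ) ^ 3 * (SS v Λ (r + 4 * δ) + 1) ^ 2 / δ ^ 4)
      + (1 + (N + 1) * (m + 1)) * Λ + (N + 1) * Λ) := by
  set R1 : ℝ := r + 3 * δ with hR1
  set R2 : ℝ := r + 4 * δ with hR2
  have hR1pos : 0 < R1 := by linarith
  have hR2pos : 0 < R2 := by linarith
  have hR12 : R1 < R2 := by linarith
  have hR2one : 1 ≤ R2 := by linarith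
  set S : ℝ := SS v Λ R2 with hS
  have hS0 : 0 ≤ S := h.SS_nonneg hR2pos
  have hfac := fun j => factor_ball (v j) (h.hg j) (h.hg0 j) hR1pos
  choose Z k hk hvk hZ hkne using hfac
  -- counting
  have hcount : ∀ j, ((Z j).length : ℝ) * Real.log (R2 / R1) ≤ T2 (v 0) (v j) R2 + Λ := by
    intro j
    have hne : P (Z j) 0 * k j 0 ≠ 0 := by rw [← hvk]; exact h.hg0 j
    have h1 := count_le (Z j) (k j) (hk j) hR1pos hR12 (hZ j) hne
    rw [← hvk] at h1
    have e : (fun z => P (Z j) z * k j z) = v j := funext fun z => (hvk j z).symm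
    rw [e] at h1
    have h2 := T2_ge_L (h.hg 0) (h.hg j) (h.hg0 0) (h.hg0 j) hR2pos.ne'
    have h3 := (abs_le.mp (h.hΛ j)).1
    linarith
  set n : ℕ := ∑ j, (Z j).length with hn
  have hlog : δ / R2 ≤ Real.log (R2 / R1) := by
    have h1 := Real.one_sub_inv_le_log_of_pos (div_pos hR2pos hR1pos)
    rw [inv_div] at h1
    have h2 : δ / R2 = 1 - R1 / R2 := by
      rw [hR1, eq_sub_iff_add_eq, ← add_div, div_eq_one_iff_eq hR2pos.ne', hR2]
      ring
    linarith
  have hnle : (n : ℝ) ≤ R2 * S / δ := by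
    have h1 : (n : ℝ) * Real.log (R2 / R1) ≤ S := by
      rw [hn]
      push_cast
      rw [Finset.sum_mul]
      exact Finset.sum_le_sum fun j _ => hcount j
    have h2 : (n : ℝ) * (δ / R2) ≤ S :=
      (mul_le_mul_of_nonneg_left hlog (Nat.cast_nonneg n)).trans h1
    rw [le_div_iff₀ hδ]
    have h3 : (n : ℝ) * δ = (n : ℝ) * (δ / R2) * R2 := by field_simp
    rw [h3]
    nlinarith
  have hnj : ∀ j, ((Z j).length : ℝ) ≤ n := by
    intro j
    have := Finset.single_le_sum (f := fun j => (Z j).length) (fun i _ => Nat.zero_le _)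
      (Finset.mem_univ j)
    exact_mod_cast this
  -- means of log of the zero free parts
  set A : ℝ := 2 * S + 4 * n * Real.log (2 * R1) with hA
  have hlogR1 : 0 ≤ Real.log (2 * R1) := Real.log_nonneg (by linarith)
  have hA0 : 0 ≤ A := by positivity
  have hmean : ∀ j, Real.circleAverage (fun z => |Real.log ‖k j z / k 0 z‖|) 0 R1 ≤ A := by
    intro j
    have hk0 : ∀ j, k j 0 ≠ 0 := fun j => hkne j 0 (by simpa using hR1pos.le)
    have i0 := ci_abs (ci_log (quot_mero (hk 0) (hk j)) R1)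
    have i1 := ci_abs (ci_log (quot_mero (h.hg 0) (h.hg j)) R1)
    have i2 := ci_abs (ci_log (mero_of_diff (P_diff (Z j))) R1)
    have i3 := ci_abs (ci_log (mero_of_diff (P_diff (Z 0))) R1)
    have h1 : Real.circleAverage (fun z => |Real.log ‖k j z / k 0 z‖|) 0 R1
        ≤ Real.circleAverage (fun z => |Real.log ‖v j z / v 0 z‖| + |Real.log ‖P (Z j) z‖|
          + |Real.log ‖P (Z 0) z‖|) 0 R1 := by
      apply avg_le_cod i0 ((i1.add i2).add i3) hR1pos.ne'
      filter_upwards [ne_cod (h.hg j) (h.hg0 j) R1, ne_cod (h.hg 0) (h.hg0 0) R1] with z hzj hz0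
      change _ ≤ |Real.log ‖v j z / v 0 z‖| + |Real.log ‖P (Z j) z‖| + |Real.log ‖P (Z 0) z‖|
      have hvj := hzj
      have hv0' := hz0
      rw [hvk j z] at hvj
      rw [hvk 0 z] at hv0'
      have a1 := norm_ne_zero_iff.mpr (left_ne_zero_of_mul hvj)
      have a2 := norm_ne_zero_iff.mpr (right_ne_zero_of_mul hvj)
      have a3 := norm_ne_zero_iff.mpr (left_ne_zero_of_mul hv0')
      have a4 := norm_ne_zero_iff.mpr (right_ne_zero_of_mul hv0')
      rw [hvk j z, hvk 0 z, norm_div, norm_div, norm_mul, norm_mul, Real.log_div a2 a4,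
        Real.log_div (mul_ne_zero a1 a2) (mul_ne_zero a3 a4), Real.log_mul a1 a2,
        Real.log_mul a3 a4]
      have e : Real.log ‖k j z‖ - Real.log ‖k 0 z‖
          = (Real.log ‖P (Z j) z‖ + Real.log ‖k j z‖ - (Real.log ‖P (Z 0) z‖ + Real.log ‖k 0 z‖))
            - Real.log ‖P (Z j) z‖ + Real.log ‖P (Z 0) z‖ := by ring
      calc |Real.log ‖k j z‖ - Real.log ‖k 0 z‖| = _ := congrArg abs e
        _ ≤ |(Real.log ‖P (Z j) z‖ + Real.log ‖k j z‖ - (Real.log ‖P (Z 0) z‖ + Real.log ‖k 0 z‖))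
            - Real.log ‖P (Z j) z‖| + |Real.log ‖P (Z 0) z‖| := abs_add_le _ _
        _ ≤ _ := by
          have := abs_sub (Real.log ‖P (Z j) z‖ + Real.log ‖k j z‖
            - (Real.log ‖P (Z 0) z‖ + Real.log ‖k 0 z‖)) (Real.log ‖P (Z j) z‖)
          linarith
    have i12 : CircleIntegrable (fun z => |Real.log ‖v j z / v 0 z‖| + |Real.log ‖P (Z j) z‖|)
        0 R1 := i1.add i2
    rw [Real.circleAverage_fun_add i12 i3, Real.circleAverage_fun_add i1 i2,
      avg_abs_quot (h.hg 0) (h.hg j) (h.hg0 0) (h.hg0 j) hR1pos.ne'] at h1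
    have h2 := avg_abs_P (Z j) (R := R1) (by linarith) (hZ j)
    have h3 := avg_abs_P (Z 0) (R := R1) (by linarith) (hZ 0)
    have h4 := T2_mono (h.hg 0) (h.hg0 0) (h.hg j) hR1pos hR12.le
    have h5 := h.L_ge 0 hR1pos
    have h6 := h.L_ge j hR1pos
    have h7 := h.term_le j hR2pos
    have h8 : ((Z j).length : ℝ) * (2 * Real.log (2 * R1)) ≤ n * (2 * Real.log (2 * R1)) :=
      mul_le_mul_of_nonneg_right (hnj j) (by linarith)
    have h9 : ((Z 0).length : ℝ) * (2 * Real.log (2 * R1)) ≤ n * (2 * Real.log (2 * R1)) :=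
      mul_le_mul_of_nonneg_right (hnj 0) (by linarith)
    rw [hA]
    linarith
  -- the good radius
  set Al : List ℝ := (List.ofFn Z).flatten.map (fun a => ‖a‖) with hAl
  have hAlen : Al.length = n := by
    rw [hAl, List.length_map, List.length_flatten, List.map_ofFn, List.sum_ofFn, hn]
    rfl
  obtain ⟨s, hrs, hsδ, hsA⟩ := good_radius Al r hδ
  rw [hAlen] at hsA
  set η : ℝ := δ / (2 * (n + 1)) with hη
  have hηpos : 0 < η := by positivity
  have hηδ : η ≤ δ := by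
    rw [hη]
    apply div_le_self hδ.le
    have : (0 : ℝ) ≤ n := Nat.cast_nonneg n
    linarith
  have hdist : ∀ z : ℂ, ‖z‖ = s → ∀ j, ∀ a ∈ Z j, η ≤ ‖z - a‖ := by
    intro z hz j a ha
    have h1 : ‖a‖ ∈ Al := by
      rw [hAl]
      apply List.mem_map_of_mem
      rw [List.mem_flatten]
      exact ⟨Z j, by rw [List.mem_ofFn]; exact ⟨j, rfl⟩, ha⟩
    have h2 := hsA ‖a‖ h1
    rw [← hz] at h2
    exact h2.trans (abs_norm_sub_norm_le z a)
  set Y : ℝ := 2 / η + 1 / δ + 8 * n / η + 4 * R1 * A / δ ^ 2 with hY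
  have t1 : 0 < 2 / η := by positivity
  have t2 : 0 < 1 / δ := by positivity
  have t3 : 0 ≤ 8 * n / η := by positivity
  have t4 : 0 ≤ 4 * R1 * A / δ ^ 2 := by positivity
  have hYpos : 0 < Y := by linarith
  set ε : ℝ := 1 / Y with hε
  have hεpos : 0 < ε := by positivity
  have hεY : ε * Y = 1 := by rw [hε]; field_simp
  have hε1 : ε ≤ 1 := by
    rw [hε, div_le_one hYpos]
    have : 1 ≤ 1 / δ := by rw [le_div_iff₀ hδ]; linarith
    linarith
  have hεη : ε ≤ η / 2 := by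
    rw [hε, div_le_iff₀ hYpos]
    have : η / 2 * (2 / η) = 1 := by field_simp
    nlinarith
  have hεδ : ε ≤ δ := by linarith
  have hosc1 : 2 * (n * (2 * ε / η)) ≤ 1 / 2 := by
    have h1 : ε * (8 * n / η) ≤ 1 := by
      rw [← hεY]
      exact mul_le_mul_of_nonneg_left (by linarith) hεpos.le
    have h2 : 2 * ((n : ℝ) * (2 * ε / η)) = ε * (8 * n / η) / 2 := by ring
    rw [h2]
    linarith
  have hosc2 : 2 * R1 * ε / δ ^ 2 * A ≤ 1 / 2 := by
    have h1 : ε * (4 * R1 * A / δ ^ 2) ≤ 1 := by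
      rw [← hεY]
      exact mul_le_mul_of_nonneg_left (by linarith) hεpos.le
    have h2 : 2 * R1 * ε / δ ^ 2 * A = ε * (4 * R1 * A / δ ^ 2) / 2 := by ring
    rw [h2]
    linarith
  have hspos : 0 < s := by linarith
  have hne : ∀ z, ‖z‖ = s → ∀ j, ∀ w ∈ closedBall z ε, v j w ≠ 0 := by
    intro z hz j w hw
    rw [mem_closedBall, dist_eq_norm] at hw
    have h1 := (log_osc_P hηpos hεη hw (Z j) (hdist z hz j)).1
    rw [hvk]
    apply mul_ne_zero h1
    apply hkne
    calc ‖w‖ = ‖z + (w - z)‖ := by congr 1; ring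
      _ ≤ ‖z‖ + ‖w - z‖ := norm_add_le _ _
      _ ≤ R1 := by rw [hz, hR1]; linarith
  have hb : ∀ z, ‖z‖ = s → ∀ j, ∀ w ∈ closedBall z ε,
      ‖v j w / v 0 w‖ ≤ Real.exp 1 * ‖v j z / v 0 z‖ := by
    intro z hz j w hw
    have hzz : z ∈ closedBall z ε := mem_closedBall_self hεpos.le
    have b1 := hne z hz j w hw
    have b2 := hne z hz 0 w hw
    have b3 := hne z hz j z hzz
    have b4 := hne z hz 0 z hzz
    rw [mem_closedBall, dist_eq_norm] at hw
    have h1 := (log_osc_P hηpos hεη hw (Z j) (hdist z hz j)).2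
    have h2 := (log_osc_P hηpos hεη hw (Z 0) (hdist z hz 0)).2
    have hwn : ‖w‖ ≤ R1 - δ := by
      calc ‖w‖ = ‖z + (w - z)‖ := by congr 1; ring
        _ ≤ ‖z‖ + ‖w - z‖ := norm_add_le _ _
        _ ≤ _ := by rw [hz, hR1]; linarith
    have hzn : ‖z‖ ≤ R1 - δ := by rw [hz, hR1]; linarith
    have h3 := poisson_diff (k := fun z => k j z / k 0 z) hR1pos hδ
      (fun z hz => ((hk j).analyticAt z).div ((hk 0).analyticAt z) (hkne 0 z (by simpa using hz)))
      (fun z hz => div_ne_zero (hkne j z (by simpa using hz)) (hkne 0 z (by simpa using hz)))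
      hwn hzn
    have hA' := hmean j
    have h4 : 2 * R1 * ‖w - z‖ / δ ^ 2 *
        Real.circleAverage (fun ζ => |Real.log ‖k j ζ / k 0 ζ‖|) 0 R1
        ≤ 2 * R1 * ε / δ ^ 2 * A := by
      apply mul_le_mul _ hA' (Real.circleAverage_nonneg_of_nonneg (fun z _ => abs_nonneg _))
        (by positivity)
      gcongr
    have h5 : |Real.log ‖v j w / v 0 w‖ - Real.log ‖v j z / v 0 z‖| ≤ 1 := by
      rw [hvk j w, hvk 0 w] at *
      rw [hvk j z, hvk 0 z] at *
      have c1 := norm_ne_zero_iff.mpr (left_ne_zero_of_mul b1)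
      have c2 := norm_ne_zero_iff.mpr (right_ne_zero_of_mul b1)
      have c3 := norm_ne_zero_iff.mpr (left_ne_zero_of_mul b2)
      have c4 := norm_ne_zero_iff.mpr (right_ne_zero_of_mul b2)
      have d1 := norm_ne_zero_iff.mpr (left_ne_zero_of_mul b3)
      have d2 := norm_ne_zero_iff.mpr (right_ne_zero_of_mul b3)
      have d3 := norm_ne_zero_iff.mpr (left_ne_zero_of_mul b4)
      have d4 := norm_ne_zero_iff.mpr (right_ne_zero_of_mul b4)
      simp only [norm_div, norm_mul] at h3 ⊢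
      rw [Real.log_div c2 c4, Real.log_div d2 d4] at h3
      rw [Real.log_div (mul_ne_zero c1 c2) (mul_ne_zero c3 c4),
        Real.log_div (mul_ne_zero d1 d2) (mul_ne_zero d3 d4), Real.log_mul c1 c2,
        Real.log_mul c3 c4, Real.log_mul d1 d2, Real.log_mul d3 d4]
      simp only [norm_div] at h4
      have e1 : ((Z j).length : ℝ) * (2 * ε / η) ≤ n * (2 * ε / η) :=
        mul_le_mul_of_nonneg_right (hnj j) (by positivity)
      have e2 : ((Z 0).length : ℝ) * (2 * ε / η) ≤ n * (2 * ε / η) :=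
        mul_le_mul_of_nonneg_right (hnj 0) (by positivity)
      have f1 := abs_le.mp h1
      have f2 := abs_le.mp h2
      have f3 := abs_le.mp h3
      rw [abs_le]
      constructor <;> linarith
    have h6 : Real.log ‖v j w / v 0 w‖ ≤ Real.log (Real.exp 1 * ‖v j z / v 0 z‖) := by
      rw [Real.log_mul (Real.exp_ne_zero _) (norm_ne_zero_iff.mpr (div_ne_zero b3 b4)),
        Real.log_exp]
      have := (abs_le.mp h5).2
      linarith
    exact (Real.log_le_log_iff (norm_pos_iff.mpr (div_ne_zero b1 b2))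
      (mul_pos (Real.exp_pos _) (norm_pos_iff.mpr (div_ne_zero b3 b4)))).mp h6
  have hmain := h.main hm hN (by linarith) (har.trans hrs) (by linarith) hεpos hε1 hne hb
  have hmono := h.SS_mono (by linarith : 0 < r) hrs
  have hYb : 1 / ε ≤ 1000 * R2 ^ 3 * (S + 1) ^ 2 / δ ^ 4 := by
    have e0 : 1 / ε = Y := by rw [hε]; field_simp
    rw [e0]
    exact Y_bound hδ hδ1 hR1pos hR12.le hR2one hS0 (Nat.cast_nonneg n) hnle
  have hlogY : Real.log (1 / ε) ≤ Real.log (1000 * R2 ^ 3 * (S + 1) ^ 2 / δ ^ 4) :=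
    Real.log_le_log (by positivity) hYb
  refine hmono.trans (hmain.trans ?_)
  apply mul_le_mul_of_nonneg_left _ (by positivity)
  have : (m : ℝ) ^ 2 * Real.log (1 / ε)
      ≤ (m : ℝ) ^ 2 * Real.log (1000 * R2 ^ 3 * (S + 1) ^ 2 / δ ^ 4) :=
    mul_le_mul_of_nonneg_left hlogY (by positivity)
  have hls : Real.log s ≤ Real.log R2 := Real.log_le_log hspos (by linarith)
  have hls2 : (κ : ℝ) * Real.log s ≤ κ * Real.log R2 :=
    mul_le_mul_of_nonneg_left hls (Nat.cast_nonneg κ)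
  linarith

end

/-- the growth of the characteristic -/
theorem SysE.grow {m N : ℕ} {g : Fin (m + 1) → ℂ → ℂ} {gW : ℂ → ℂ} {A : ℝ} {κ : ℕ} {Λ a ρ : ℝ}
    (h : SysE m N g gW A κ Λ a (ρ + 3)) (hm : 1 ≤ m) (hN : m ^ 2 ≤ N) (hρ : 1 ≤ ρ) (haρ : a ≤ ρ) :
    SS g Λ ρ ≤ 1 + 2 * ((m + 1) * (Real.log A + κ * Real.log (ρ + 3)
      + (1 + (N + 1) * (m + 1)) * Λ + (N + 1) * Λ))
      + 2 * ((m + 1) * m ^ 2) * (7 + 3 * Real.log (ρ + 3)) + 576 * ((m + 1) * m ^ 2) ^ 2 := by
  have hA0 : 0 ≤ Real.log A := Real.log_nonneg h.hA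
  have hl0 : 0 ≤ Real.log (ρ + 3) := Real.log_nonneg (by linarith)
  have hΛ0 := h.hΛ0
  refine growth (SS g Λ) _ ((m + 1) * m ^ 2) ρ (SS g Λ (ρ + 3)) (by positivity) (by positivity) hρ
    (fun r h1 h2 => h.SS_mono (by linarith) h2) ?_ (fun r h1 => h.SS_nonneg (by linarith))
  intro r δ h1 h2 h3 h4
  have h5 := h.recur hm hN (by linarith : 1 ≤ r) (haρ.trans h1) h2 h3 h4
  have h6 : (κ : ℝ) * Real.log (r + 4 * δ) ≤ κ * Real.log (ρ + 3) :=
    mul_le_mul_of_nonneg_left (Real.log_le_log (by linarith) h4) (Nat.cast_nonneg κ)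
  refine h5.trans ?_
  rw [mul_assoc ((m : ℝ) + 1) ((m : ℝ) ^ 2) _, ← mul_add]
  apply mul_le_mul_of_nonneg_left _ (by positivity)
  linarith

end Pool.Agent.W603.BP
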