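import Pool.Agent.W603.BP.Tame
import Pool.Agent.W603.BP.RecE
import Pool.Agent.H159R3.NV.Final

/-!
Construction of the system of entire functions.
-/

set_option autoImplicit false

namespace Pool.Agent.W603.BP

open Filter Metric Set Topology Pool.Agent.H159R3.NV

/-- uniform bounds for finitely many units -/
theorem tame_uniform {m : ℕ} {a : ℝ} (ha : 1 ≤ a) (H : Fin (m + 1) → ℂ → ℂ)
    (hH : ∀ j, Tame a (H j)) :
    ∃ C : ℝ, 1 ≤ C ∧ ∃ κ : ℕ, (∀ j, ∀ z : ℂ, a + 1 ≤ ‖z‖ → ‖H j z‖ ≤ C * ‖z‖ ^ κ) ∧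
      ∀ j, ∀ z w : ℂ, a + 2 ≤ ‖z‖ → ‖w - z‖ ≤ 1 → ‖H j w‖ ≤ C * ‖H j z‖ ∧ ‖H j z‖ ≤ C * ‖H j w‖ := by
  have h1 := fun j => (hH j).bd
  have h2 := fun j => (hH j).osc
  choose C1 hC1 κ1 hb using h1
  choose C2 hC2 ho using h2
  have n1 : ∀ j, 0 ≤ C1 j := fun j => by linarith [hC1 j]
  have n2 : ∀ j, 0 ≤ C2 j := fun j => by linarith [hC2 j]
  have s1 : ∀ j, C1 j ≤ ∑ i, (C1 i + C2 i) := fun j =>
    le_trans (by linarith [n2 j]) (Finset.single_le_sum (f := fun i => C1 i + C2 i)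
      (fun i _ => add_nonneg (n1 i) (n2 i)) (Finset.mem_univ j))
  have s2 : ∀ j, C2 j ≤ ∑ i, (C1 i + C2 i) := fun j =>
    le_trans (by linarith [n1 j]) (Finset.single_le_sum (f := fun i => C1 i + C2 i)
      (fun i _ => add_nonneg (n1 i) (n2 i)) (Finset.mem_univ j))
  have s3 : ∀ j, κ1 j ≤ ∑ i, κ1 i := fun j =>
    Finset.single_le_sum (f := κ1) (fun i _ => Nat.zero_le _) (Finset.mem_univ j)
  refine ⟨∑ i, (C1 i + C2 i), (hC1 0).trans (s1 0), ∑ i, κ1 i, ?_, ?_⟩
  · intro j z hz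
    refine ((hb j z hz).1).trans ?_
    have hz1 : 1 ≤ ‖z‖ := by linarith
    exact mul_le_mul (s1 j) (pow_le_pow_right₀ hz1 (s3 j)) (by positivity)
      ((n1 j).trans (s1 j))
  · intro j z w hz hw
    obtain ⟨h3, h4⟩ := ho j z w hz hw
    exact ⟨h3.trans (mul_le_mul_of_nonneg_right (s2 j) (norm_nonneg _)),
      h4.trans (mul_le_mul_of_nonneg_right (s2 j) (norm_nonneg _))⟩

theorem sys_of {m N : ℕ} (hmN : m ≤ N + 1) {a : ℝ} (ha : 1 ≤ a)
    (H G : Fin (m + 1) → ℂ → ℂ) (hH : ∀ j, Tame a (H j)) (hG : ∀ j, Differentiable ℂ (G j))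
    (hG0 : ∀ j z, ‖z‖ ≤ a → G j z ≠ 0)
    (hs : ∀ z ∈ Ext a, ∑ j, (H j z * G j z) ^ N = 0)
    (HW GW : ℂ → ℂ) (hHW : Tame a HW) (hGW : Differentiable ℂ GW)
    (hGW0 : ∀ z, ‖z‖ ≤ a → GW z ≠ 0)
    (hW : ∀ z ∈ Ext a, wr N (fun j z => H j z * G j z) 0 z = HW z * GW z) :
    ∃ (A : ℝ) (κ : ℕ) (Λ : ℝ), ∀ Rs : ℝ, 0 < Rs → ∃ (q : ℂ → ℂ) (g : Fin (m + 1) → ℂ → ℂ)
      (gW : ℂ → ℂ), (∀ j z, G j z = q z * g j z) ∧ SysE m N g gW A κ Λ (a + 2) Rs := by
  classical
  obtain ⟨C, hC1, κ, hCb, hCo⟩ := tame_uniform ha H hH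
  obtain ⟨CW, hCW1, κW, hWb⟩ := hHW.bd
  have ha0 : 0 < a := by linarith
  have hC0 : 0 < C := by linarith
  have hCW0 : 0 < CW := by linarith
  set B : ℝ := C * C * Real.exp 1 with hB
  have hB1 : 1 ≤ B := one_le_mul_of_one_le_of_one_le
    (one_le_mul_of_one_le_of_one_le hC1 hC1) (Real.one_le_exp (by norm_num))
  have hfac1 : (1 : ℝ) ≤ Nat.factorial m := by
    exact_mod_cast Nat.one_le_iff_ne_zero.mpr (Nat.factorial_ne_zero m)
  set Λ : ℝ := ∑ j, |Real.log ‖G j 0‖| + |Real.log ‖GW 0‖| with hΛ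
  refine ⟨CW * (Nat.factorial m * (Nat.factorial m * B ^ N) ^ m) * C ^ (N * m),
    κW + κ * (N * m), Λ, ?_⟩
  intro Rs hRs
  have hG00 : ∀ j, G j 0 ≠ 0 := fun j => hG0 j 0 (by simpa using ha0.le)
  obtain ⟨q, g, hq, hq0, hg, hfac, hcz⟩ := common_zeros G hG 0 (hG00 0) hRs
  have hqne : ∀ z, ‖z‖ ≤ a → q z ≠ 0 := by
    intro z hz h0
    apply hG0 0 z hz
    rw [hfac, h0, zero_mul]
  have hgne : ∀ j z, ‖z‖ ≤ a → g j z ≠ 0 := by
    intro j z hz h0
    apply hG0 j z hz
    rw [hfac, h0, mul_zero]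
  have hg0 : ∀ j, g j 0 = G j 0 := fun j => by rw [hfac j 0, hq0, one_mul]
  have hS := Ext_open a
  let w : Fin (m + 1) → ℂ → ℂ := fun j z => H j z * g j z
  have hgE : ∀ j, AnalyticOnNhd ℂ (g j) (Ext a) := fun j z _ => (hg j).analyticAt z
  have hqE : AnalyticOnNhd ℂ q (Ext a) := fun z _ => hq.analyticAt z
  have hw : ∀ j, AnalyticOnNhd ℂ (w j) (Ext a) := fun j z hz =>
    ((hH j).an z hz).fun_mul (hgE j z hz)
  -- the relation between the `w j`
  have hsw : ∀ z ∈ Ext a, ∑ j, w j z ^ N = 0 := by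
    have h1 : AnalyticOnNhd ℂ (fun z => ∑ j, w j z ^ N) (Ext a) := by
      intro z hz
      apply Finset.analyticAt_fun_sum
      intro j _
      exact (hw j z hz).fun_pow N
    rcases an_eq_zero_or hS (Ext_preconn ha0) (f := fun z => q z ^ N) (hqE.fun_pow N) h1 (by
      intro z hz
      rw [← hs z hz, Finset.mul_sum]
      refine Finset.sum_congr rfl fun j _ => ?_
      rw [hfac j z, ← mul_pow]
      congr 1
      simp only [w]
      ring) with h | h
    · exfalso
      obtain ⟨z0, hz0⟩ := Ext_nonempty a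
      have h2 : AnalyticOnNhd ℂ (fun z => q z ^ N) univ := fun z _ => (hq.fun_pow N).analyticAt z
      have h3 := h2.eqOn_zero_of_preconnected_of_eventuallyEq_zero isPreconnected_univ
        (mem_univ z0) (by
          filter_upwards [hS.mem_nhds hz0] with z hz
          exact h z hz)
      have h4 := h3 (mem_univ 0)
      simp only [hq0, one_pow, Pi.zero_apply] at h4
      exact one_ne_zero h4
    · exact h
  -- scaling of the Wronskian
  have hscale : ∀ z ∈ Ext a, HW z * GW z = q z ^ (N * m) * wr N w 0 z := by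
    intro z hz
    rw [← hW z hz, ← wr_scale_loc N q z (hqE z hz) w (fun j => hw j z hz) 0]
    apply wr_congr_loc N hS _ 0 z hz
    intro j y _
    simp only [w]
    rw [hfac j y]
    ring
  let gW : ℂ → ℂ := fun z => if a < ‖z‖ then wr N w 0 z / HW z else GW z / q z ^ (N * m)
  have hgW1 : ∀ z ∈ Ext a, gW z = wr N w 0 z / HW z := fun z hz => if_pos hz
  have hgW2 : ∀ z, q z ≠ 0 → gW z = GW z / q z ^ (N * m) := by
    intro z hz
    by_cases h : z ∈ Ext a
    · rw [hgW1 z h]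
      have h1 := hscale z h
      have h2 := hHW.ne z h
      have h3 : q z ^ (N * m) ≠ 0 := pow_ne_zero _ hz
      rw [div_eq_div_iff h2 h3]
      linear_combination -h1
    · exact if_neg h
  have hgWd : Differentiable ℂ gW := by
    intro z
    by_cases h : z ∈ Ext a
    · have h1 : DifferentiableAt ℂ (fun z => wr N w 0 z / HW z) z :=
        ((wr_an_loc N w hw 0 z h).fun_div (hHW.an z h) (hHW.ne z h)).differentiableAt
      apply h1.congr_of_eventuallyEq
      filter_upwards [hS.mem_nhds h] with y hy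
      exact hgW1 y hy
    · have hz : ‖z‖ ≤ a := not_lt.mp h
      have h1 : DifferentiableAt ℂ (fun z => GW z / q z ^ (N * m)) z :=
        (hGW z).fun_div ((hq z).fun_pow _) (pow_ne_zero _ (hqne z hz))
      apply h1.congr_of_eventuallyEq
      filter_upwards [hq.continuous.continuousAt.eventually_ne (hqne z hz)] with y hy
      exact hgW2 y hy
  have hgW0 : gW 0 = GW 0 := by
    rw [hgW2 0 (by rw [hq0]; exact one_ne_zero), hq0, one_pow, div_one]
  refine ⟨q, g, gW, hfac, ?_⟩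
  refine ⟨hg, fun j => by rw [hg0]; exact hG00 j, hgWd,
    by rw [hgW0]; exact hGW0 0 (by simpa using ha0.le), by positivity, ?_, ?_, ?_, ?_, ?_⟩
  · intro j
    rw [hg0, hΛ]
    have h1 := Finset.single_le_sum (f := fun j => |Real.log ‖G j 0‖|)
      (fun i _ => abs_nonneg _) (Finset.mem_univ j)
    have h2 := abs_nonneg (Real.log ‖GW 0‖)
    linarith
  · rw [hgW0, hΛ]
    have h1 : 0 ≤ ∑ j, |Real.log ‖G j 0‖| := Finset.sum_nonneg fun i _ => abs_nonneg _
    have h2 := neg_abs_le (Real.log ‖GW 0‖)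
    linarith
  · -- no poles
    intro z0 hz0
    set M : ℕ := N + 1 - m with hM
    by_cases h : z0 ∈ Ext a
    · obtain ⟨i, hi⟩ := hcz z0 hz0
      obtain ⟨D, hD, hDe⟩ := wr_div_loc N hmN hS w hw i
      obtain ⟨ε, hε, hεe⟩ := wr_norm_loc N hS w hw hsw i
      have hεε : ε * ε = 1 := by rcases hε with rfl | rfl <;> norm_num
      have han : AnalyticAt ℂ (fun z => ε * (∏ b : Fin m, H (i.succAbove b) z) ^ M * D z
          / (HW z * g i z ^ M)) z0 := by
        apply AnalyticAt.fun_div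
        · apply AnalyticAt.fun_mul _ (hD z0 h)
          apply AnalyticAt.fun_mul analyticAt_const
          apply AnalyticAt.fun_pow
          apply Finset.analyticAt_fun_prod
          intro b _
          exact (hH _).an z0 h
        · exact (hHW.an z0 h).fun_mul ((hgE i z0 h).fun_pow M)
        · exact mul_ne_zero (hHW.ne z0 h) (pow_ne_zero _ hi)
      have hcongr : (fun z => gW z / (∏ j, g j z) ^ M) =ᶠ[𝓝[≠] z0]
          fun z => ε * (∏ b : Fin m, H (i.succAbove b) z) ^ M * D z / (HW z * g i z ^ M) := by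
        have h1 : ∀ᶠ z in 𝓝[≠] z0, ∀ j, g j z ≠ 0 := by
          rw [Filter.eventually_all]
          intro j
          exact ev_ne (hg j) (x := 0) (hgne j 0 (by simpa using ha0.le)) z0
        filter_upwards [h1, nhdsWithin_le_nhds (hS.mem_nhds h)] with z hz hzE
        have h2 : wr N w 0 z = ε * wr N w i z := by rw [hεe z hzE, ← mul_assoc, hεε, one_mul]
        rw [hgW1 z hzE, h2, hDe z hzE, Fin.prod_univ_succAbove (fun j => g j z) i, mul_pow]
        simp only [w]
        rw [Finset.prod_mul_distrib, mul_pow]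
        have h3 : (∏ b : Fin m, g (i.succAbove b) z) ^ M ≠ 0 :=
          pow_ne_zero _ (Finset.prod_ne_zero_iff.mpr fun j _ => hz _)
        have h4 : g i z ^ M ≠ 0 := pow_ne_zero _ (hz i)
        have h5 := hHW.ne z hzE
        rw [← hM]
        field_simp
      rw [meromorphicOrderAt_congr hcongr]
      exact han.meromorphicOrderAt_nonneg
    · have hz : ‖z0‖ ≤ a := not_lt.mp h
      have han : AnalyticAt ℂ (fun z => gW z / (∏ j, g j z) ^ M) z0 := by
        apply AnalyticAt.fun_div (hgWd.analyticAt z0)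
        · apply AnalyticAt.fun_pow
          apply Finset.analyticAt_fun_prod
          intro j _
          exact (hg j).analyticAt z0
        · exact pow_ne_zero _ (Finset.prod_ne_zero_iff.mpr fun j _ => hgne j z0 hz)
      exact han.meromorphicOrderAt_nonneg
  · have h1 : 1 ≤ (Nat.factorial m * B ^ N) ^ m := one_le_pow₀
      (one_le_mul_of_one_le_of_one_le hfac1 (one_le_pow₀ hB1))
    exact one_le_mul_of_one_le_of_one_le (one_le_mul_of_one_le_of_one_le hCW1
      (one_le_mul_of_one_le_of_one_le hfac1 h1)) (one_le_pow₀ hC1)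
  · -- the upper bound
    intro z haz ε hε hε1 h0 hb i
    have hball : ∀ y ∈ closedBall z ε, a + 1 ≤ ‖y‖ ∧ ‖y - z‖ ≤ 1 := by
      intro y hy
      rw [mem_closedBall, dist_eq_norm] at hy
      refine ⟨?_, hy.trans hε1⟩
      have : ‖z‖ ≤ ‖y‖ + 1 := by
        calc ‖z‖ = ‖y - (y - z)‖ := by congr 1; ring
          _ ≤ ‖y‖ + ‖y - z‖ := norm_sub_le _ _
          _ ≤ _ := by linarith
      linarith
    have hballE : ∀ y ∈ closedBall z ε, y ∈ Ext a := by
      intro y hy
      have := (hball y hy).1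
      change a < ‖y‖
      linarith
    have hzm : z ∈ closedBall z ε := mem_closedBall_self hε.le
    have hzE : z ∈ Ext a := hballE z hzm
    have hpu := point_upper_loc (N := N) w (B := B) (by linarith) hε hε1
      (fun j y hy => hw j y (hballE y hy))
      (fun y hy => mul_ne_zero ((hH 0).ne y (hballE y hy)) (h0 0 y hy))
      (by
        intro j y hy
        obtain ⟨h1, h2⟩ := hball y hy
        have o1 := (hCo j z y haz h2).1
        have o2 := (hCo 0 z y haz h2).2
        have hb' := hb j y hy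
        have n1 : 0 < ‖H 0 y‖ := norm_pos_iff.mpr ((hH 0).ne y (hballE y hy))
        have n2 : 0 < ‖H 0 z‖ := norm_pos_iff.mpr ((hH 0).ne z hzE)
        simp only [w]
        rw [mul_div_mul_comm, mul_div_mul_comm, norm_mul, norm_mul]
        have h3 : ‖H j y / H 0 y‖ ≤ C * C * ‖H j z / H 0 z‖ := by
          rw [norm_div, norm_div, ← mul_div_assoc, div_le_div_iff₀ n1 n2]
          calc ‖H j y‖ * ‖H 0 z‖ ≤ (C * ‖H j z‖) * (C * ‖H 0 y‖) :=
                mul_le_mul o1 o2 (norm_nonneg _) (by positivity)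
            _ = _ := by ring
        calc ‖H j y / H 0 y‖ * ‖g j y / g 0 y‖
            ≤ (C * C * ‖H j z / H 0 z‖) * (Real.exp 1 * ‖g j z / g 0 z‖) :=
              mul_le_mul h3 hb' (norm_nonneg _) (by positivity)
          _ = _ := by rw [hB]; ring) i
    obtain ⟨e, he, hee⟩ := wr_norm_loc N hS w hw hsw i
    have hnorm : ‖wr N w i z‖ = ‖wr N w 0 z‖ := by
      rw [hee z hzE, norm_mul]
      rcases he with rfl | rfl <;> simp
    rw [hnorm] at hpu
    have hz1 : 1 ≤ ‖z‖ := by linarith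
    have hWlow := (hWb z (by linarith)).2
    have hHWpos : 0 < ‖HW z‖ := norm_pos_iff.mpr (hHW.ne z hzE)
    have h5 : ‖gW z‖ ≤ CW * ‖z‖ ^ κW * ‖wr N w 0 z‖ := by
      rw [hgW1 z hzE, norm_div, div_le_iff₀ hHWpos]
      calc ‖wr N w 0 z‖ ≤ ‖wr N w 0 z‖ * (CW * ‖z‖ ^ κW * ‖HW z‖) :=
            le_mul_of_one_le_right (norm_nonneg _) hWlow
        _ = _ := by ring
    have h6 : ∏ b : Fin m, ‖w (i.succAbove b) z‖ ^ N
        ≤ (C * ‖z‖ ^ κ) ^ (N * m) * ∏ b : Fin m, ‖g (i.succAbove b) z‖ ^ N := by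
      have h7 : ∏ b : Fin m, ‖w (i.succAbove b) z‖ ^ N
          ≤ ∏ b : Fin m, ((C * ‖z‖ ^ κ) ^ N * ‖g (i.succAbove b) z‖ ^ N) := by
        apply Finset.prod_le_prod (fun b _ => by positivity)
        intro b _
        simp only [w]
        rw [norm_mul, mul_pow]
        apply mul_le_mul_of_nonneg_right _ (by positivity)
        exact pow_le_pow_left₀ (norm_nonneg _) (hCb _ z (by linarith)) N
      refine h7.trans (le_of_eq ?_)
      rw [Finset.prod_mul_distrib, Finset.prod_const, Finset.card_univ, Fintype.card_fin, pow_mul]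
    have h8 : (Nat.factorial m : ℝ) * (Nat.factorial m * B ^ N * (1 / ε) ^ m) ^ m
        = (Nat.factorial m * (Nat.factorial m * B ^ N) ^ m) * (1 / ε) ^ (m * m) := by
      rw [mul_pow (Nat.factorial m * B ^ N : ℝ), ← pow_mul (1 / ε)]
      ring
    rw [h8] at hpu
    calc ‖gW z‖ ≤ CW * ‖z‖ ^ κW * ‖wr N w 0 z‖ := h5
      _ ≤ CW * ‖z‖ ^ κW * ((Nat.factorial m * (Nat.factorial m * B ^ N) ^ m)
          * (1 / ε) ^ (m * m) * ((C * ‖z‖ ^ κ) ^ (N * m)
            * ∏ b : Fin m, ‖g (i.succAbove b) z‖ ^ N)) := by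
          apply mul_le_mul_of_nonneg_left _ (by positivity)
          refine hpu.trans ?_
          exact mul_le_mul_of_nonneg_left h6 (by positivity)
      _ = _ := by
          rw [mul_pow C, ← pow_mul, pow_add]
          ring

end Pool.Agent.W603.BP
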