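import Pool.Agent.W603.BP.Main

/-!
Germs of analytic functions at a puncture.
-/

set_option autoImplicit false

namespace Pool.Agent.W603.BP

open Filter Metric Set Topology Pool.Agent.H159R3.NV

/-- the punctured disc of radius `δ` -/
def PB (δ : ℝ) : Set ℂ := {w : ℂ | w ≠ 0 ∧ ‖w‖ < δ}

theorem PB_open (δ : ℝ) : IsOpen (PB δ) :=
  isOpen_ne.inter (isOpen_lt continuous_norm continuous_const)

theorem PB_mono {δ δ' : ℝ} (h : δ ≤ δ') : PB δ ⊆ PB δ' := fun _ hw => ⟨hw.1, hw.2.trans_le h⟩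

theorem PB_nonempty {δ : ℝ} (hδ : 0 < δ) : (PB δ).Nonempty := by
  refine ⟨((δ / 2 : ℝ) : ℂ), ?_, ?_⟩
  · exact_mod_cast (half_pos hδ).ne'
  · rw [Complex.norm_real, Real.norm_of_nonneg (half_pos hδ).le]
    exact half_lt_self hδ

theorem inv_mem_Ext {δ : ℝ} {w : ℂ} (hw : w ∈ PB δ) : w⁻¹ ∈ Ext δ⁻¹ := by
  change δ⁻¹ < ‖w⁻¹‖
  rw [norm_inv]
  exact inv_strictAnti₀ (norm_pos_iff.mpr hw.1) hw.2

theorem inv_mem_PB {δ : ℝ} (hδ : 0 < δ) {z : ℂ} (hz : z ∈ Ext δ⁻¹) : z⁻¹ ∈ PB δ := by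
  have hz' : δ⁻¹ < ‖z‖ := hz
  have h0 := ext_ne_zero (inv_pos.mpr hδ).le hz
  refine ⟨inv_ne_zero h0, ?_⟩
  rw [norm_inv, inv_lt_comm₀ (norm_pos_iff.mpr h0) hδ]
  exact hz'

theorem PB_preconn {δ : ℝ} (hδ : 0 < δ) : IsPreconnected (PB δ) := by
  have h1 : PB δ = (fun z : ℂ => z⁻¹) '' Ext δ⁻¹ := by
    ext w
    constructor
    · intro hw
      exact ⟨w⁻¹, inv_mem_Ext hw, inv_inv w⟩
    · rintro ⟨z, hz, rfl⟩
      exact inv_mem_PB hδ hz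
  rw [h1]
  apply (Ext_preconn (inv_pos.mpr hδ)).image
  exact continuousOn_id.inv₀ fun z hz => ext_ne_zero (inv_pos.mpr hδ).le hz

theorem PB_mem {δ : ℝ} (hδ : 0 < δ) : PB δ ∈ 𝓝[≠] (0 : ℂ) := by
  rw [mem_nhdsWithin_iff]
  refine ⟨δ, hδ, ?_⟩
  rintro w ⟨h1, h2⟩
  exact ⟨h2, by simpa using h1⟩

theorem ev_iff {P : ℂ → Prop} : (∀ᶠ w in 𝓝[≠] (0 : ℂ), P w) ↔ ∃ δ > 0, ∀ w ∈ PB δ, P w := by
  constructor
  · intro h
    have h' : {w | P w} ∈ 𝓝[≠] (0 : ℂ) := h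
    rw [mem_nhdsWithin_iff] at h'
    obtain ⟨δ, hδ, hs⟩ := h'
    exact ⟨δ, hδ, fun w hw => hs ⟨by simpa using hw.2, hw.1⟩⟩
  · rintro ⟨δ, hδ, h⟩
    exact mem_of_superset (PB_mem hδ) h

/-- analytic in a punctured neighbourhood of the origin -/
def Pun (f : ℂ → ℂ) : Prop := ∀ᶠ w in 𝓝[≠] (0 : ℂ), AnalyticAt ℂ f w

/-- not identically zero near the origin -/
def Nz (f : ℂ → ℂ) : Prop := ¬ ∀ᶠ w in 𝓝[≠] (0 : ℂ), f w = 0

theorem Pun.mul {f g : ℂ → ℂ} (hf : Pun f) (hg : Pun g) : Pun (fun w => f w * g w) := by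
  filter_upwards [hf, hg] with w h1 h2
  exact h1.fun_mul h2

theorem Pun.pow {f : ℂ → ℂ} (hf : Pun f) (N : ℕ) : Pun (fun w => f w ^ N) := by
  filter_upwards [hf] with w h1
  exact h1.fun_pow N

theorem Pun.const (c : ℂ) : Pun (fun _ => c) := Eventually.of_forall fun _ => analyticAt_const

theorem Pun.prod {ι : Type} (s : Finset ι) {f : ι → ℂ → ℂ} (hf : ∀ i ∈ s, Pun (f i)) :
    Pun (fun w => ∏ i ∈ s, f i w) := by
  have h : ∀ᶠ w in 𝓝[≠] (0 : ℂ), ∀ i ∈ s, AnalyticAt ℂ (f i) w :=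
    (Filter.eventually_all_finset s).mpr hf
  filter_upwards [h] with w hw
  exact Finset.analyticAt_fun_prod s hw

theorem Pun.sum {ι : Type} (s : Finset ι) {f : ι → ℂ → ℂ} (hf : ∀ i ∈ s, Pun (f i)) :
    Pun (fun w => ∑ i ∈ s, f i w) := by
  have h : ∀ᶠ w in 𝓝[≠] (0 : ℂ), ∀ i ∈ s, AnalyticAt ℂ (f i) w :=
    (Filter.eventually_all_finset s).mpr hf
  filter_upwards [h] with w hw
  exact Finset.analyticAt_fun_sum s hw

theorem Pun.mero {f : ℂ → ℂ} (hf : MeromorphicAt f 0) : Pun f := hf.eventually_analyticAt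

theorem pun_on {f : ℂ → ℂ} (hf : Pun f) : ∃ δ > 0, AnalyticOnNhd ℂ f (PB δ) := ev_iff.mp hf

theorem on_pun {f : ℂ → ℂ} {δ : ℝ} (hδ : 0 < δ) (hf : AnalyticOnNhd ℂ f (PB δ)) : Pun f :=
  ev_iff.mpr ⟨δ, hδ, hf⟩

theorem nz_on {f : ℂ → ℂ} {δ : ℝ} (hδ : 0 < δ) (hn : Nz f) : ∃ w ∈ PB δ, f w ≠ 0 := by
  by_contra hcon
  push Not at hcon
  exact hn (ev_iff.mpr ⟨δ, hδ, hcon⟩)

theorem eq_zero_on {f : ℂ → ℂ} {δ : ℝ} (hδ : 0 < δ) (hf : AnalyticOnNhd ℂ f (PB δ))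
    (hn : ∀ᶠ w in 𝓝[≠] (0 : ℂ), f w = 0) : ∀ w ∈ PB δ, f w = 0 := by
  obtain ⟨δ', hδ', h⟩ := ev_iff.mp hn
  obtain ⟨w0, hw0⟩ := PB_nonempty (lt_min hδ hδ')
  have h1 : w0 ∈ PB δ := PB_mono (min_le_left _ _) hw0
  have h2 : w0 ∈ PB δ' := PB_mono (min_le_right _ _) hw0
  exact hf.eqOn_zero_of_preconnected_of_eventuallyEq_zero (PB_preconn hδ) h1 (by
    filter_upwards [(PB_open δ').mem_nhds h2] with w hw
    exact h w hw)

theorem ev_ne_on {f : ℂ → ℂ} {δ : ℝ} (hδ : 0 < δ) (hf : AnalyticOnNhd ℂ f (PB δ)) (hn : Nz f)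
    (w : ℂ) (hw : w ∈ PB δ) : ∀ᶠ z in 𝓝[≠] w, f z ≠ 0 := by
  rcases (hf w hw).eventually_eq_zero_or_eventually_ne_zero with h | h
  · exfalso
    obtain ⟨w1, hw1, h1⟩ := nz_on hδ hn
    exact h1 (hf.eqOn_zero_of_preconnected_of_eventuallyEq_zero (PB_preconn hδ) hw h hw1)
  · exact h

theorem pun_mul_zero {f g : ℂ → ℂ} (hf : Pun f) (hg : Pun g)
    (h : ∀ᶠ w in 𝓝[≠] (0 : ℂ), f w * g w = 0) :
    (∀ᶠ w in 𝓝[≠] (0 : ℂ), f w = 0) ∨ (∀ᶠ w in 𝓝[≠] (0 : ℂ), g w = 0) := by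
  obtain ⟨δ1, h1, hf'⟩ := pun_on hf
  obtain ⟨δ2, h2, hg'⟩ := pun_on hg
  obtain ⟨δ3, h3, h'⟩ := ev_iff.mp h
  have hδ : 0 < min δ1 (min δ2 δ3) := lt_min h1 (lt_min h2 h3)
  rcases an_eq_zero_or (PB_open _) (PB_preconn hδ)
    (hf'.mono (PB_mono (min_le_left _ _)))
    (hg'.mono (PB_mono ((min_le_right _ _).trans (min_le_left _ _))))
    (fun w hw => h' w (PB_mono ((min_le_right _ _).trans (min_le_right _ _)) hw)) with h4 | h4
  · exact Or.inl (ev_iff.mpr ⟨_, hδ, h4⟩)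
  · exact Or.inr (ev_iff.mpr ⟨_, hδ, h4⟩)

theorem Nz.mul {f g : ℂ → ℂ} (hf : Pun f) (hg : Pun g) (nf : Nz f) (ng : Nz g) :
    Nz (fun w => f w * g w) := fun h => (pun_mul_zero hf hg h).elim nf ng

theorem Nz.pow {f : ℂ → ℂ} (nf : Nz f) (N : ℕ) : Nz (fun w => f w ^ N) := by
  intro h
  apply nf
  filter_upwards [h] with w hw
  exact eq_zero_of_pow_eq_zero hw

theorem nz_const {c : ℂ} (hc : c ≠ 0) : Nz (fun _ => c) := by
  intro h
  exact hc (Filter.eventually_const.mp h)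

theorem Nz.prod {ι : Type} (s : Finset ι) {f : ι → ℂ → ℂ} (hf : ∀ i ∈ s, Pun (f i))
    (nf : ∀ i ∈ s, Nz (f i)) : Nz (fun w => ∏ i ∈ s, f i w) := by
  classical
  induction s using Finset.induction_on with
  | empty =>
    simp only [Finset.prod_empty]
    exact nz_const one_ne_zero
  | insert a s ha ih =>
    simp only [Finset.prod_insert ha]
    exact Nz.mul (hf a (Finset.mem_insert_self a s))
      (Pun.prod s fun i hi => hf i (Finset.mem_insert_of_mem hi))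
      (nf a (Finset.mem_insert_self a s))
      (ih (fun i hi => hf i (Finset.mem_insert_of_mem hi))
        (fun i hi => nf i (Finset.mem_insert_of_mem hi)))

/-- a meromorphic germ that is not identically zero has no zeros near the origin -/
theorem mero_ne {f : ℂ → ℂ} (hf : MeromorphicAt f 0) (nf : Nz f) :
    ∀ᶠ w in 𝓝[≠] (0 : ℂ), f w ≠ 0 := by
  rcases hf.eventually_eq_zero_or_eventually_ne_zero with h | h
  · exact absurd h nf
  · exact h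

/-- removable singularities, simultaneously at all points of a set -/
theorem removable {V : Set ℂ} {f : ℂ → ℂ} {B : ℝ}
    (hd : ∀ w ∈ V, ∀ᶠ z in 𝓝[≠] w, DifferentiableAt ℂ f z)
    (hb : ∀ w ∈ V, ∀ᶠ z in 𝓝[≠] w, ‖f z‖ ≤ B) :
    ∃ s : ℂ → ℂ, AnalyticOnNhd ℂ s V ∧ (∀ w ∈ V, ContinuousAt f w → s w = f w) ∧
      ∀ w ∈ V, ‖s w‖ ≤ B := by
  refine ⟨fun w => limUnder (𝓝[≠] w) f, ?_, ?_, ?_⟩
  · intro w hw
    obtain ⟨U, hU, hUs⟩ := mem_nhdsWithin_iff_exists_mem_nhds_inter.mp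
      ((hd w hw).and (hb w hw))
    have hUd : DifferentiableOn ℂ f (U \ {w}) := fun z hz =>
      (hUs ⟨hz.1, hz.2⟩).1.differentiableWithinAt
    have h1 := Complex.differentiableOn_update_limUnder_of_bddAbove hU hUd
      ⟨B, by rintro _ ⟨z, hz, rfl⟩; exact (hUs ⟨hz.1, hz.2⟩).2⟩
    have h2 : AnalyticAt ℂ (Function.update f w (limUnder (𝓝[≠] w) f)) w :=
      h1.analyticAt hU
    apply h2.congr
    filter_upwards [hU] with z hz
    by_cases hzw : z = w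
    · rw [hzw, Function.update_self]
    · rw [Function.update_of_ne hzw]
      have h3 : ContinuousAt f z := (hUs ⟨hz, hzw⟩).1.continuousAt
      exact (h3.tendsto.mono_left nhdsWithin_le_nhds).limUnder_eq.symm
  · intro w _ hc
    exact (hc.tendsto.mono_left nhdsWithin_le_nhds).limUnder_eq
  · intro w hw
    have h1 : Tendsto f (𝓝[≠] w) (𝓝 (limUnder (𝓝[≠] w) f)) := by
      apply Complex.tendsto_limUnder_of_differentiable_on_punctured_nhds_of_bounded_under (hd w hw)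
      refine ⟨B + ‖f w‖, ?_⟩
      rw [eventually_map]
      filter_upwards [hb w hw] with z hz
      exact (norm_sub_le _ _).trans (by linarith)
    exact le_of_tendsto h1.norm (hb w hw)

/-- growth comparison of germs -/
def Gr (e e' : ℂ → ℂ) : Prop :=
  ∃ (C : ℝ) (K : ℕ), ∀ᶠ w in 𝓝[≠] (0 : ℂ), ‖e w‖ * ‖w‖ ^ K ≤ C * ‖e' w‖

/-- the quotient is meromorphic -/
def MRel (e e' : ℂ → ℂ) : Prop :=
  ∃ ρ : ℂ → ℂ, MeromorphicAt ρ 0 ∧ ∀ᶠ w in 𝓝[≠] (0 : ℂ), e w = ρ w * e' w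

theorem growth_mero {e e' : ℂ → ℂ} (he : Pun e) (he' : Pun e') (hn : Nz e') (h : Gr e e') :
    MRel e e' := by
  obtain ⟨C, K, hCK⟩ := h
  obtain ⟨δ1, h1, a1⟩ := pun_on he
  obtain ⟨δ2, h2, a2⟩ := pun_on he'
  obtain ⟨δ3, h3, a3⟩ := ev_iff.mp hCK
  set δ := min δ1 (min δ2 δ3) with hδdef
  have hδ : 0 < δ := lt_min h1 (lt_min h2 h3)
  have b1 : AnalyticOnNhd ℂ e (PB δ) := a1.mono (PB_mono (min_le_left _ _))
  have b2 : AnalyticOnNhd ℂ e' (PB δ) :=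
    a2.mono (PB_mono ((min_le_right _ _).trans (min_le_left _ _)))
  have b3 : ∀ w ∈ PB δ, ‖e w‖ * ‖w‖ ^ K ≤ C * ‖e' w‖ := fun w hw =>
    a3 w (PB_mono ((min_le_right _ _).trans (min_le_right _ _)) hw)
  have hbd : ∀ w ∈ PB δ, e' w ≠ 0 → ‖w ^ K * e w / e' w‖ ≤ C := by
    intro w hw h0
    rw [norm_div, norm_mul, norm_pow, div_le_iff₀ (norm_pos_iff.mpr h0)]
    calc ‖w‖ ^ K * ‖e w‖ = ‖e w‖ * ‖w‖ ^ K := mul_comm _ _
      _ ≤ _ := b3 w hw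
  have hdf : ∀ w ∈ PB δ, e' w ≠ 0 → AnalyticAt ℂ (fun w => w ^ K * e w / e' w) w := by
    intro w hw h0
    exact ((analyticAt_id.fun_pow K).fun_mul (b1 w hw)).fun_div (b2 w hw) h0
  have hall : ∀ w ∈ PB δ, ∀ᶠ z in 𝓝[≠] w, z ∈ PB δ ∧ e' z ≠ 0 := by
    intro w hw
    filter_upwards [nhdsWithin_le_nhds ((PB_open δ).mem_nhds hw), ev_ne_on hδ b2 hn w hw]
      with z h5 h6
    exact ⟨h5, h6⟩
  obtain ⟨s, hs1, hs2, hs3⟩ := removable (V := PB δ) (f := fun w => w ^ K * e w / e' w) (B := C)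
    (fun w hw => by
      filter_upwards [hall w hw] with z hz
      exact (hdf z hz.1 hz.2).differentiableAt)
    (fun w hw => by
      filter_upwards [hall w hw] with z hz
      exact hbd z hz.1 hz.2)
  -- the relation `w ^ K * e w = s w * e' w`
  have hrel : ∀ w ∈ PB δ, w ^ K * e w = s w * e' w := by
    intro w hw
    have t1 : Tendsto (fun z => z ^ K * e z - s z * e' z) (𝓝[≠] w) (𝓝 (w ^ K * e w - s w * e' w)) :=
      (((continuousAt_id.pow K).mul (b1 w hw).continuousAt).sub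
        ((hs1 w hw).continuousAt.mul (b2 w hw).continuousAt)).tendsto.mono_left nhdsWithin_le_nhds
    have t2 : Tendsto (fun z => z ^ K * e z - s z * e' z) (𝓝[≠] w) (𝓝 0) := by
      apply tendsto_const_nhds.congr'
      filter_upwards [hall w hw] with z hz
      rw [hs2 z hz.1 (hdf z hz.1 hz.2).continuousAt]
      have := hz.2
      field_simp
      ring
    exact sub_eq_zero.mp (tendsto_nhds_unique t1 t2)
  -- `s` extends
  obtain ⟨s0, hs01, hs02, -⟩ := removable (V := insert 0 (PB δ)) (f := s) (B := C)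
    (by
      rintro w (rfl | hw)
      · filter_upwards [PB_mem hδ] with z hz
        exact (hs1 z hz).differentiableAt
      · filter_upwards [nhdsWithin_le_nhds ((PB_open δ).mem_nhds hw)] with z hz
        exact (hs1 z hz).differentiableAt)
    (by
      rintro w (rfl | hw)
      · filter_upwards [PB_mem hδ] with z hz
        exact hs3 z hz
      · filter_upwards [nhdsWithin_le_nhds ((PB_open δ).mem_nhds hw)] with z hz
        exact hs3 z hz)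
  refine ⟨fun w => s0 w * (w ^ K)⁻¹, ?_, ?_⟩
  · apply MeromorphicAt.fun_mul (hs01 0 (mem_insert _ _)).meromorphicAt
    exact ((MeromorphicAt.id 0).fun_pow K).fun_inv
  · filter_upwards [PB_mem hδ] with w hw
    rw [hs02 w (Or.inr hw) (hs1 w hw).continuousAt]
    have h4 := hrel w hw
    have h5 : w ^ K ≠ 0 := pow_ne_zero _ hw.1
    field_simp
    linear_combination h4

theorem MRel.gr {e e' : ℂ → ℂ} (h : MRel e e') : Gr e e' := by
  obtain ⟨ρ, hρ, he⟩ := h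
  obtain ⟨n, hn⟩ := hρ
  have hc : ContinuousAt (fun z => (z - 0) ^ n • ρ z) 0 := hn.continuousAt
  have hb : ∀ᶠ z in 𝓝 (0 : ℂ), ‖(z - 0) ^ n • ρ z‖ < ‖((0 : ℂ) - 0) ^ n • ρ 0‖ + 1 :=
    hc.norm.eventually_lt_const (lt_add_one _)
  refine ⟨‖((0 : ℂ) - 0) ^ n • ρ 0‖ + 1, n, ?_⟩
  filter_upwards [he, nhdsWithin_le_nhds hb] with w h1 h2
  rw [sub_zero, smul_eq_mul, norm_mul, norm_pow] at h2
  rw [h1, norm_mul]
  calc ‖ρ w‖ * ‖e' w‖ * ‖w‖ ^ n = (‖w‖ ^ n * ‖ρ w‖) * ‖e' w‖ := by ring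
    _ ≤ _ := mul_le_mul_of_nonneg_right h2.le (norm_nonneg _)

theorem Gr.refl (e : ℂ → ℂ) : Gr e e := ⟨1, 0, Eventually.of_forall fun w => by simp⟩

theorem Gr.trans {e f g : ℂ → ℂ} (h1 : Gr e f) (h2 : Gr f g) : Gr e g := by
  obtain ⟨C1, K1, h1⟩ := h1
  obtain ⟨C2, K2, h2⟩ := h2
  refine ⟨|C1| * C2, K1 + K2, ?_⟩
  filter_upwards [h1, h2] with w a1 a2
  have a1' : ‖e w‖ * ‖w‖ ^ K1 ≤ |C1| * ‖f w‖ :=
    a1.trans (mul_le_mul_of_nonneg_right (le_abs_self _) (norm_nonneg _))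
  calc ‖e w‖ * ‖w‖ ^ (K1 + K2) = (‖e w‖ * ‖w‖ ^ K1) * ‖w‖ ^ K2 := by rw [pow_add]; ring
    _ ≤ (|C1| * ‖f w‖) * ‖w‖ ^ K2 := mul_le_mul_of_nonneg_right a1' (by positivity)
    _ = |C1| * (‖f w‖ * ‖w‖ ^ K2) := by ring
    _ ≤ |C1| * (C2 * ‖g w‖) := mul_le_mul_of_nonneg_left a2 (abs_nonneg _)
    _ = _ := by ring

theorem Gr.mul {e e' f f' : ℂ → ℂ} (h1 : Gr e e') (h2 : Gr f f') :
    Gr (fun w => e w * f w) (fun w => e' w * f' w) := by
  obtain ⟨C1, K1, h1⟩ := h1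
  obtain ⟨C2, K2, h2⟩ := h2
  refine ⟨C1 * C2, K1 + K2, ?_⟩
  filter_upwards [h1, h2] with w a1 a2
  rw [norm_mul, norm_mul]
  calc ‖e w‖ * ‖f w‖ * ‖w‖ ^ (K1 + K2) = (‖e w‖ * ‖w‖ ^ K1) * (‖f w‖ * ‖w‖ ^ K2) := by
        rw [pow_add]; ring
    _ ≤ (C1 * ‖e' w‖) * (C2 * ‖f' w‖) :=
        mul_le_mul a1 a2 (by positivity) (le_trans (by positivity) a1)
    _ = _ := by ring

/-- the relation is symmetric -/
theorem MRel.symm {e e' : ℂ → ℂ} (h : MRel e e') (hn : Nz e) : MRel e' e := by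
  obtain ⟨ρ, hρ, he⟩ := h
  have hρn : Nz ρ := by
    intro h0
    apply hn
    filter_upwards [he, h0] with w h1 h2
    rw [h1, h2, zero_mul]
  refine ⟨fun w => (ρ w)⁻¹, hρ.fun_inv, ?_⟩
  filter_upwards [he, mero_ne hρ hρn] with w h1 h2
  rw [h1]
  field_simp

/-- growth comparison descends along `w ↦ w ^ N` -/
theorem gr_descend {e e' : ℂ → ℂ} {N : ℕ} (hN : 0 < N)
    (h : Gr (fun w => e (w ^ N)) (fun w => e' (w ^ N))) : Gr e e' := by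
  obtain ⟨C, K, h⟩ := h
  obtain ⟨δ, hδ, h⟩ := ev_iff.mp h
  refine ⟨C, K, ev_iff.mpr ⟨min (δ ^ N) 1, lt_min (pow_pos hδ N) one_pos, ?_⟩⟩
  intro w hw
  obtain ⟨t, ht⟩ := IsAlgClosed.exists_pow_nat_eq w hN
  have ht0 : t ≠ 0 := by
    intro h0
    rw [h0, zero_pow hN.ne'] at ht
    exact hw.1 ht.symm
  have htn : ‖t‖ < δ := by
    have h1 : ‖t‖ ^ N < δ ^ N := by
      rw [← norm_pow, ht]
      exact hw.2.trans_le (min_le_left _ _)
    exact lt_of_pow_lt_pow_left₀ N hδ.le h1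
  have htn1 : ‖t‖ ≤ 1 := by
    have h1 : ‖t‖ ^ N < 1 := by
      rw [← norm_pow, ht]
      exact hw.2.trans_le (min_le_right _ _)
    by_contra hcon
    push Not at hcon
    exact absurd h1 (not_lt.mpr (one_le_pow₀ hcon.le))
  have h2 := h t ⟨ht0, htn⟩
  simp only [ht] at h2
  refine le_trans (mul_le_mul_of_nonneg_left ?_ (norm_nonneg _)) h2
  have h3 : ‖w‖ ≤ ‖t‖ := by
    rw [← ht, norm_pow]
    exact pow_le_of_le_one (norm_nonneg _) htn1 hN.ne'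
  exact pow_le_pow_left₀ (norm_nonneg _) h3 K

/-- growth comparison of powers -/
theorem gr_of_pow {e e' : ℂ → ℂ} {N : ℕ} (hN : 0 < N)
    (h : Gr (fun w => e w ^ N) (fun w => e' w ^ N)) : Gr e e' := by
  obtain ⟨C, K, h⟩ := h
  refine ⟨|C| + 1, K, ?_⟩
  have h1 : ∀ᶠ w in 𝓝[≠] (0 : ℂ), ‖w‖ < 1 := by
    filter_upwards [PB_mem one_pos] with w hw
    exact hw.2
  filter_upwards [h, h1] with w h2 h3
  rw [norm_pow, norm_pow] at h2
  have h4 : (‖e w‖ * ‖w‖ ^ K) ^ N ≤ ((|C| + 1) * ‖e' w‖) ^ N := by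
    calc (‖e w‖ * ‖w‖ ^ K) ^ N = ‖e w‖ ^ N * (‖w‖ ^ K) ^ N := mul_pow _ _ _
      _ ≤ ‖e w‖ ^ N * ‖w‖ ^ K := by
          apply mul_le_mul_of_nonneg_left _ (by positivity)
          exact pow_le_of_le_one (by positivity) (pow_le_one₀ (norm_nonneg _) h3.le) hN.ne'
      _ ≤ C * ‖e' w‖ ^ N := h2
      _ ≤ (|C| + 1) ^ N * ‖e' w‖ ^ N := by
          apply mul_le_mul_of_nonneg_right _ (by positivity)
          have h5 : (1 : ℝ) ≤ |C| + 1 := by linarith [abs_nonneg C]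
          calc C ≤ |C| + 1 := by linarith [le_abs_self C]
            _ ≤ (|C| + 1) ^ N := le_self_pow₀ h5 hN.ne'
      _ = _ := (mul_pow _ _ _).symm
  exact le_of_pow_le_pow_left₀ hN.ne' (by positivity) h4

theorem tendsto_pow_punct {N : ℕ} (hN : 0 < N) :
    Tendsto (fun w : ℂ => w ^ N) (𝓝[≠] 0) (𝓝[≠] 0) := by
  apply tendsto_nhdsWithin_iff.mpr
  constructor
  · have h1 : Tendsto (fun w : ℂ => w ^ N) (𝓝 0) (𝓝 (0 ^ N)) := (continuous_pow N).tendsto 0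
    rw [zero_pow hN.ne'] at h1
    exact h1.mono_left nhdsWithin_le_nhds
  · filter_upwards [self_mem_nhdsWithin] with w hw
    exact pow_ne_zero _ hw

theorem Pun.comp_pow {f : ℂ → ℂ} (hf : Pun f) {N : ℕ} (hN : 0 < N) : Pun (fun w => f (w ^ N)) := by
  filter_upwards [(tendsto_pow_punct hN).eventually hf] with w hw
  exact hw.comp (g := f) (f := fun w : ℂ => w ^ N) (analyticAt_id.fun_pow N)

theorem Nz.comp_pow {f : ℂ → ℂ} (hf : Nz f) {N : ℕ} (hN : 0 < N) : Nz (fun w => f (w ^ N)) := by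
  intro h
  apply hf
  obtain ⟨δ, hδ, h⟩ := ev_iff.mp h
  refine ev_iff.mpr ⟨δ ^ N, pow_pos hδ N, ?_⟩
  intro w hw
  obtain ⟨t, ht⟩ := IsAlgClosed.exists_pow_nat_eq w hN
  have ht0 : t ≠ 0 := by
    intro h0
    rw [h0, zero_pow hN.ne'] at ht
    exact hw.1 ht.symm
  have htn : ‖t‖ < δ := by
    have h1 : ‖t‖ ^ N < δ ^ N := by
      rw [← norm_pow, ht]
      exact hw.2
    exact lt_of_pow_lt_pow_left₀ N hδ.le h1
  have := h t ⟨ht0, htn⟩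
  simp only [ht] at this
  exact this

end Pool.Agent.W603.BP
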