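import Pool.Agent.H159R3.NV.Det

/-!
Determinants of derivatives of `N`-th powers of functions that are analytic on an open set.
-/

set_option autoImplicit false

namespace Pool.Agent.W603.BP

open Finset Metric Pool.Agent.H159R3.NV
open scoped Topology

theorem anD {S : Set ℂ} {f : ℂ → ℂ} (hf : AnalyticOnNhd ℂ f S) (l : ℕ) :
    AnalyticOnNhd ℂ (iteratedDeriv l f) S := by
  induction l with
  | zero => simpa using hf
  | succ l ih =>
    rw [iteratedDeriv_succ]
    exact ih.deriv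

theorem pow_deriv_loc {S : Set ℂ} (hS : IsOpen S) {u : ℂ → ℂ} (hu : AnalyticOnNhd ℂ u S) (N : ℕ) :
    ∀ k : ℕ, k ≤ N → ∃ p : ℂ → ℂ, AnalyticOnNhd ℂ p S ∧
      ∀ z ∈ S, iteratedDeriv k (fun w => u w ^ N) z = u z ^ (N - k) * p z := by
  intro k
  induction k with
  | zero =>
    intro _
    exact ⟨fun _ => 1, analyticOnNhd_const, fun z _ => by simp⟩
  | succ k ih =>
    intro hk
    obtain ⟨p, hp, he⟩ := ih (by omega)
    refine ⟨fun z => ((N - k : ℕ) : ℂ) * deriv u z * p z + u z * deriv p z,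
      ((analyticOnNhd_const.mul hu.deriv).mul hp).add (hu.mul hp.deriv), ?_⟩
    intro z hz
    rw [iteratedDeriv_succ]
    have h0 : iteratedDeriv k (fun w => u w ^ N) =ᶠ[𝓝 z] fun z => u z ^ (N - k) * p z := by
      filter_upwards [hS.mem_nhds hz] with w hw
      exact he w hw
    rw [h0.deriv_eq]
    have h1 : HasDerivAt (fun z => u z ^ (N - k) * p z)
        (((N - k : ℕ) : ℂ) * u z ^ (N - k - 1) * deriv u z * p z + u z ^ (N - k) * deriv p z) z :=
      (((hu z hz).differentiableAt.hasDerivAt).pow (N - k)).mul (hp z hz).differentiableAt.hasDerivAt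
    rw [h1.deriv]
    have e : N - k = (N - (k + 1)) + 1 := by omega
    have e2 : N - k - 1 = N - (k + 1) := by omega
    rw [e2]
    have e3 : u z ^ (N - k) = u z ^ (N - (k + 1)) * u z := by
      rw [e, pow_succ]
    rw [e3]
    ring

theorem wr_norm_loc {m : ℕ} (N : ℕ) {S : Set ℂ} (hS : IsOpen S) (u : Fin (m + 1) → ℂ → ℂ)
    (hu : ∀ j, AnalyticOnNhd ℂ (u j) S)
    (hs : ∀ z ∈ S, ∑ j, u j z ^ N = 0) (i : Fin (m + 1)) :
    ∃ ε : ℂ, (ε = 1 ∨ ε = -1) ∧ ∀ z ∈ S, wr N u i z = ε * wr N u 0 z := by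
  have h' : ∀ z ∈ S, wr N u i z
      = Int.negOnePow (((i : ℕ) : ℤ) - ((0 : Fin (m + 1)) : ℕ)) • wr N u 0 z := by
    intro z hz
    exact Matrix.submatrix_succAbove_det_eq_negOnePow_submatrix_succAbove_det
      (Matrix.of fun (j : Fin (m + 1)) (l : Fin m) => iteratedDeriv l (fun w => u j w ^ N) z) (by
      funext l
      rw [Finset.sum_apply]
      simp only [Matrix.of_apply, Pi.zero_apply]
      have h1 : iteratedDeriv l (fun w => ∑ j, u j w ^ N) z = 0 := by
        have : (fun w => ∑ j, u j w ^ N) =ᶠ[𝓝 z] fun _ => (0 : ℂ) := by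
          filter_upwards [hS.mem_nhds hz] with w hw
          exact hs w hw
        rw [this.iteratedDeriv_eq]
        simp
      rw [← h1]
      rw [iteratedDeriv_fun_sum]
      intro j _
      exact ((hu j z hz).pow N).contDiffAt) i 0
  rcases Int.units_eq_one_or (Int.negOnePow (((i : ℕ) : ℤ) - ((0 : Fin (m + 1)) : ℕ))) with h1 | h1
  · exact ⟨1, Or.inl rfl, fun z hz => by rw [h' z hz, h1]; simp⟩
  · exact ⟨-1, Or.inr rfl, fun z hz => by rw [h' z hz, h1]; simp⟩

theorem wr_div_loc {m : ℕ} (N : ℕ) (hN : m ≤ N + 1) {S : Set ℂ} (hS : IsOpen S)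
    (u : Fin (m + 1) → ℂ → ℂ) (hu : ∀ j, AnalyticOnNhd ℂ (u j) S) (i : Fin (m + 1)) :
    ∃ D : ℂ → ℂ, AnalyticOnNhd ℂ D S ∧
      ∀ z ∈ S, wr N u i z = (∏ b : Fin m, u (i.succAbove b) z) ^ (N + 1 - m) * D z := by
  have h1 : ∀ b l : Fin m, ∃ p : ℂ → ℂ, AnalyticOnNhd ℂ p S ∧
      ∀ z ∈ S, iteratedDeriv l (fun w => u (i.succAbove b) w ^ N) z
        = u (i.succAbove b) z ^ (N + 1 - m) * p z := by
    intro b l
    have hl := l.2
    obtain ⟨p, hp, he⟩ := pow_deriv_loc hS (hu (i.succAbove b)) N l (by omega)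
    refine ⟨fun z => u (i.succAbove b) z ^ (m - 1 - l) * p z,
      ((hu (i.succAbove b)).pow _).mul hp, ?_⟩
    intro z hz
    rw [he z hz]
    have e : N - (l : ℕ) = (N + 1 - m) + (m - 1 - l) := by omega
    rw [e, pow_add]
    ring
  choose p hp he using h1
  refine ⟨fun z => (Matrix.of fun b l : Fin m => p b l z).det, ?_, ?_⟩
  · have : (fun z => (Matrix.of fun b l : Fin m => p b l z).det)
        = fun z => ∑ σ : Equiv.Perm (Fin m), ((Equiv.Perm.sign σ : ℤ) : ℂ) * ∏ i, p (σ i) i z := by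
      funext z
      rw [Matrix.det_apply']
      rfl
    rw [this]
    intro z hz
    apply Finset.analyticAt_fun_sum
    intro σ _
    apply AnalyticAt.fun_mul analyticAt_const
    apply Finset.analyticAt_fun_prod
    intro i _
    exact hp _ _ z hz
  · intro z hz
    unfold wr
    have : (Matrix.of fun b l : Fin m => iteratedDeriv l (fun w => u (i.succAbove b) w ^ N) z)
        = Matrix.of fun b l : Fin m => u (i.succAbove b) z ^ (N + 1 - m) * p b l z := by
      ext b l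
      simp only [Matrix.of_apply]
      rw [he b l z hz]
    rw [this]
    have h2 := Matrix.det_mul_column (fun b : Fin m => u (i.succAbove b) z ^ (N + 1 - m))
      (Matrix.of fun b l : Fin m => p b l z)
    simp only [Matrix.of_apply] at h2
    rw [h2, Finset.prod_pow]

theorem wr_an_loc {m : ℕ} (N : ℕ) {S : Set ℂ} (u : Fin (m + 1) → ℂ → ℂ)
    (hu : ∀ j, AnalyticOnNhd ℂ (u j) S) (i : Fin (m + 1)) : AnalyticOnNhd ℂ (wr N u i) S := by
  have : (wr N u i)
      = fun z => ∑ σ : Equiv.Perm (Fin m), ((Equiv.Perm.sign σ : ℤ) : ℂ) *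
        ∏ k : Fin m, iteratedDeriv k (fun w => u (i.succAbove (σ k)) w ^ N) z := by
    funext z
    unfold wr
    rw [Matrix.det_apply']
    rfl
  rw [this]
  intro z hz
  apply Finset.analyticAt_fun_sum
  intro σ _
  apply AnalyticAt.fun_mul analyticAt_const
  apply Finset.analyticAt_fun_prod
  intro k _
  exact anD ((hu (i.succAbove (σ k))).pow N) k z hz

theorem wr_scale_loc {m : ℕ} (N : ℕ) (q : ℂ → ℂ) (z : ℂ) (hq : AnalyticAt ℂ q z)
    (u : Fin (m + 1) → ℂ → ℂ) (hu : ∀ j, AnalyticAt ℂ (u j) z) (i : Fin (m + 1)) :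
    wr N (fun j w => q w * u j w) i z = q z ^ (N * m) * wr N u i z := by
  unfold wr
  have h := scale_det (m := m) (fun w => q w ^ N) (fun b w => u (i.succAbove b) w ^ N) z
    (hq.pow N) (fun b => (hu _).pow N)
  simp only [mul_pow]
  rw [h, pow_mul]

theorem wr_congr_loc {m : ℕ} (N : ℕ) {S : Set ℂ} (hS : IsOpen S) {u v : Fin (m + 1) → ℂ → ℂ}
    (h : ∀ j, ∀ z ∈ S, u j z = v j z) (i : Fin (m + 1)) : ∀ z ∈ S, wr N u i z = wr N v i z := by
  intro z hz
  unfold wr
  congr 1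
  ext b l
  simp only [Matrix.of_apply]
  apply Filter.EventuallyEq.iteratedDeriv_eq
  filter_upwards [hS.mem_nhds hz] with w hw
  rw [h _ w hw]

/-- the pointwise bound -/
theorem point_upper_loc {m N : ℕ} (v : Fin (m + 1) → ℂ → ℂ) {z : ℂ} {ε B : ℝ} (hB : 0 ≤ B)
    (hε : 0 < ε) (hε1 : ε ≤ 1)
    (hv : ∀ j, ∀ w ∈ closedBall z ε, AnalyticAt ℂ (v j) w)
    (h0 : ∀ w ∈ closedBall z ε, v 0 w ≠ 0)
    (hb : ∀ j, ∀ w ∈ closedBall z ε, ‖v j w / v 0 w‖ ≤ B * ‖v j z / v 0 z‖)
    (i : Fin (m + 1)) :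
    ‖wr N v i z‖ ≤ (Nat.factorial m) *
      ((Nat.factorial m) * B ^ N * (1 / ε) ^ m) ^ m * ∏ b : Fin m, ‖v (i.succAbove b) z‖ ^ N := by
  have hzm : z ∈ closedBall z ε := mem_closedBall_self hε.le
  have hz0 : v 0 z ≠ 0 := h0 z hzm
  have han : ∀ b : Fin m, ∀ w ∈ closedBall z ε,
      AnalyticAt ℂ (fun w => (v (i.succAbove b) w / v 0 w) ^ N) w := fun b w hw =>
    ((hv _ w hw).fun_div (hv 0 w hw) (h0 w hw)).fun_pow N
  have e1 : wr N v i z = (v 0 z ^ N) ^ m *
      (Matrix.of fun b l : Fin m =>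
        iteratedDeriv l (fun w => (v (i.succAbove b) w / v 0 w) ^ N) z).det := by
    rw [← scale_det (fun w => v 0 w ^ N) (fun b w => (v (i.succAbove b) w / v 0 w) ^ N) z
      ((hv 0 z hzm).pow N) (fun b => han b z hzm)]
    unfold wr
    congr 1
    ext b l
    simp only [Matrix.of_apply]
    apply Filter.EventuallyEq.iteratedDeriv_eq
    filter_upwards [closedBall_mem_nhds z hε] with w hw
    have := h0 w hw
    rw [div_pow]
    field_simp
  have hder : ∀ b l : Fin m, ‖(Matrix.of fun b l : Fin m =>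
        iteratedDeriv l (fun w => (v (i.succAbove b) w / v 0 w) ^ N) z) b l‖
      ≤ (Nat.factorial m) * B ^ N * (1 / ε) ^ m * ‖v (i.succAbove b) z / v 0 z‖ ^ N := by
    intro b l
    simp only [Matrix.of_apply]
    have h1 := Complex.norm_iteratedDeriv_le_of_forall_mem_sphere_norm_le (n := l) (c := z) (R := ε)
      (C := (B * ‖v (i.succAbove b) z / v 0 z‖) ^ N)
      (f := fun w => (v (i.succAbove b) w / v 0 w) ^ N) hε
      (by
        apply DifferentiableOn.diffContOnCl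
        intro w hw
        exact (han b w (closure_ball_subset_closedBall hw)).differentiableAt.differentiableWithinAt)
      (by
        intro w hw
        rw [norm_pow]
        exact pow_le_pow_left₀ (norm_nonneg _) (hb _ w (sphere_subset_closedBall hw)) N)
    refine h1.trans ?_
    have h2 : (Nat.factorial (l : ℕ) : ℝ) ≤ Nat.factorial m := by
      exact_mod_cast Nat.factorial_le l.2.le
    have h3 : 1 / ε ^ (l : ℕ) ≤ (1 / ε) ^ m := by
      rw [one_div_pow]
      apply one_div_le_one_div_of_le (by positivity)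
      exact pow_le_pow_of_le_one hε.le hε1 l.2.le
    rw [mul_pow]
    calc (Nat.factorial (l : ℕ) : ℝ) * (B ^ N * ‖v (i.succAbove b) z / v 0 z‖ ^ N) / ε ^ (l : ℕ)
        = (Nat.factorial (l : ℕ) : ℝ) * (B ^ N * ‖v (i.succAbove b) z / v 0 z‖ ^ N)
          * (1 / ε ^ (l : ℕ)) := by ring
      _ ≤ (Nat.factorial m : ℝ) * (B ^ N * ‖v (i.succAbove b) z / v 0 z‖ ^ N)
          * ((1 / ε) ^ m) := by gcongr
      _ = _ := by ring
  rw [e1, norm_mul]
  have h4 := det_bound _ _ hder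
  calc ‖(v 0 z ^ N) ^ m‖ * _ ≤ ‖(v 0 z ^ N) ^ m‖ * ((Nat.factorial m) * ∏ b : Fin m,
        ((Nat.factorial m) * B ^ N * (1 / ε) ^ m * ‖v (i.succAbove b) z / v 0 z‖ ^ N)) :=
        mul_le_mul_of_nonneg_left h4 (norm_nonneg _)
    _ = (Nat.factorial m) *
      ((Nat.factorial m) * B ^ N * (1 / ε) ^ m) ^ m * ∏ b : Fin m, ‖v (i.succAbove b) z‖ ^ N := by
      rw [Finset.prod_mul_distrib, Finset.prod_const, Finset.card_univ, Fintype.card_fin]
      have h5 : ∏ b : Fin m, ‖v (i.succAbove b) z / v 0 z‖ ^ N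
          = (∏ b : Fin m, ‖v (i.succAbove b) z‖ ^ N) / (‖v 0 z‖ ^ N) ^ m := by
        simp only [norm_div, div_pow]
        rw [Finset.prod_div_distrib, Finset.prod_const, Finset.card_univ, Fintype.card_fin]
      rw [h5, norm_pow, norm_pow]
      have h6 : (‖v 0 z‖ ^ N) ^ m ≠ 0 := by
        have := norm_ne_zero_iff.mpr hz0
        positivity
      field_simp

end Pool.Agent.W603.BP
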