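import Pool.Agent.W603.BP.LDet

/-!
The Wronskian criterion for functions that are analytic on a connected open set.
-/

set_option autoImplicit false

namespace Pool.Agent.W603.BP

open Finset
open scoped Topology

/-- Wronskian criterion, abstract form. -/
theorem wron_dep_abs {A : Type} [CommRing A] [IsDomain A] [Algebra ℂ A] (D : Derivation ℂ A A)
    (hD : ∀ a b : A, b ≠ 0 → a * D b = b * D a → ∃ x : ℂ, a = x • b) :
    ∀ (r : ℕ) (f : Fin r → A),
      (Matrix.of fun b l : Fin r => ((D : A → A)^[(l : ℕ)]) (f b)).det = 0 →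
      ∃ c : Fin r → ℂ, c ≠ 0 ∧ ∑ b, c b • f b = 0 := by
  intro r
  induction r with
  | zero => intro f h; simp at h
  | succ r ih =>
    intro f h
    by_cases hW : (Matrix.of fun b l : Fin r => ((D : A → A)^[(l : ℕ)]) (f b.succ)).det = 0
    · obtain ⟨c, hc, hs⟩ := ih (fun b => f b.succ) hW
      refine ⟨Fin.cons 0 c, ?_, ?_⟩
      · intro h0
        apply hc
        funext b
        have := congrFun h0 b.succ
        simpa using this
      · rw [Fin.sum_univ_succ]
        simp [hs]
    · obtain ⟨a, ha, hM⟩ := Matrix.exists_vecMul_eq_zero_iff.2 h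
      have hrel : ∀ l : ℕ, l < r + 1 → ∑ b, a b * ((D : A → A)^[l]) (f b) = 0 := by
        intro l hl
        have := congrFun hM ⟨l, hl⟩
        simpa [Matrix.vecMul, dotProduct] using this
      have hker : ∀ u : Fin r → A, (∀ l : ℕ, l < r → ∑ b, u b * ((D : A → A)^[l]) (f b.succ) = 0) →
          u = 0 := by
        intro u hu
        by_contra hne
        apply hW
        refine Matrix.exists_vecMul_eq_zero_iff.1 ⟨u, hne, ?_⟩
        funext l
        simpa [Matrix.vecMul, dotProduct] using hu l l.2
      have ha0 : a 0 ≠ 0 := by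
        intro h0
        have h1 : (fun b : Fin r => a b.succ) = 0 := by
          apply hker
          intro l hl
          have := hrel l (by omega)
          rw [Fin.sum_univ_succ, h0] at this
          simpa using this
        apply ha
        funext b
        refine Fin.cases h0 (fun b => ?_) b
        exact congrFun h1 b
      have hrel' : ∀ l : ℕ, l < r → ∑ b, D (a b) * ((D : A → A)^[l]) (f b) = 0 := by
        intro l hl
        have h1 := hrel l (by omega)
        have h2 := hrel (l + 1) (by omega)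
        have h3 := congrArg D h1
        rw [map_sum, map_zero] at h3
        simp only [Derivation.leibniz, smul_eq_mul] at h3
        rw [Finset.sum_add_distrib] at h3
        simp only [Function.iterate_succ_apply'] at h2
        rw [h2, zero_add] at h3
        rw [← h3]
        exact Finset.sum_congr rfl fun b _ => mul_comm _ _
      have hu : (fun b : Fin r => a 0 * D (a b.succ) - a b.succ * D (a 0)) = 0 := by
        apply hker
        intro l hl
        have h1 := hrel l (by omega)
        have h2 := hrel' l hl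
        rw [Fin.sum_univ_succ] at h1 h2
        have e : ∑ b : Fin r, (a 0 * D (a b.succ) - a b.succ * D (a 0)) * ((D : A → A)^[l]) (f b.succ)
            = a 0 * ∑ b : Fin r, D (a b.succ) * ((D : A → A)^[l]) (f b.succ)
              - D (a 0) * ∑ b : Fin r, a b.succ * ((D : A → A)^[l]) (f b.succ) := by
          rw [Finset.mul_sum, Finset.mul_sum, ← Finset.sum_sub_distrib]
          exact Finset.sum_congr rfl fun b _ => by ring
        rw [e]
        have e1 : ∑ b : Fin r, D (a b.succ) * ((D : A → A)^[l]) (f b.succ)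
            = - (D (a 0) * ((D : A → A)^[l]) (f 0)) := by
          linear_combination h2
        have e2 : ∑ b : Fin r, a b.succ * ((D : A → A)^[l]) (f b.succ)
            = - (a 0 * ((D : A → A)^[l]) (f 0)) := by
          linear_combination h1
        rw [e1, e2]
        ring
      have hx' : ∀ b : Fin r, ∃ x : ℂ, a b.succ = x • a 0 := by
        intro b
        apply hD _ _ ha0
        have := congrFun hu b
        simp only [Pi.zero_apply] at this
        linear_combination -this
      choose x hx' using hx'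
      refine ⟨Fin.cons 1 x, ?_, ?_⟩
      · intro h0
        have := congrFun h0 0
        simp at this
      · apply mul_left_cancel₀ ha0
        rw [mul_zero, Fin.sum_univ_succ]
        simp only [Fin.cons_zero, Fin.cons_succ]
        have h1 := hrel 0 (by omega)
        simp only [Function.iterate_zero, id_eq] at h1
        rw [Fin.sum_univ_succ] at h1
        rw [mul_add, Finset.mul_sum, one_smul, ← h1]
        congr 1
        refine Finset.sum_congr rfl fun b _ => ?_
        rw [hx' b]
        simp only [Algebra.smul_def]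
        ring

variable (S : Set ℂ)

/-- the algebra of analytic functions on `S` -/
def Aly : Subalgebra ℂ (S → ℂ) where
  carrier := {f | ∃ g : ℂ → ℂ, AnalyticOnNhd ℂ g S ∧ ∀ z : S, f z = g z}
  mul_mem' := fun ⟨f, hf, ef⟩ ⟨g, hg, eg⟩ =>
    ⟨fun z => f z * g z, hf.mul hg, fun z => by simp [ef z, eg z]⟩
  add_mem' := fun ⟨f, hf, ef⟩ ⟨g, hg, eg⟩ =>
    ⟨fun z => f z + g z, hf.add hg, fun z => by simp [ef z, eg z]⟩
  algebraMap_mem' := fun c => ⟨fun _ => c, analyticOnNhd_const, fun z => rfl⟩

/-- an analytic representative -/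
noncomputable def rep (f : Aly S) : ℂ → ℂ := f.2.choose

variable {S}

theorem rep_an (f : Aly S) : AnalyticOnNhd ℂ (rep S f) S := f.2.choose_spec.1

theorem rep_eq (f : Aly S) (z : S) : (f : S → ℂ) z = rep S f z := f.2.choose_spec.2 z

/-- the class of an analytic function -/
def mk (g : ℂ → ℂ) (hg : AnalyticOnNhd ℂ g S) : Aly S := ⟨fun z => g z, g, hg, fun _ => rfl⟩

theorem mk_apply (g : ℂ → ℂ) (hg : AnalyticOnNhd ℂ g S) (z : S) : (mk g hg : S → ℂ) z = g z := rfl

theorem rep_mk (g : ℂ → ℂ) (hg : AnalyticOnNhd ℂ g S) (z : ℂ) (hz : z ∈ S) :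
    rep S (mk g hg) z = g z := (rep_eq (mk g hg) ⟨z, hz⟩).symm

/-- the derivation -/
noncomputable def Dl (hS : IsOpen S) : Derivation ℂ (Aly S) (Aly S) where
  toFun f := mk (deriv (rep S f)) (rep_an f).deriv
  map_add' f g := by
    apply Subtype.ext
    funext z
    have h1 : rep S (f + g) =ᶠ[𝓝 (z : ℂ)] fun w => rep S f w + rep S g w := by
      filter_upwards [hS.mem_nhds z.2] with w hw
      rw [← rep_eq (f + g) ⟨w, hw⟩, ← rep_eq f ⟨w, hw⟩, ← rep_eq g ⟨w, hw⟩]
      rfl
    change deriv (rep S (f + g)) z = deriv (rep S f) z + deriv (rep S g) z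
    rw [h1.deriv_eq]
    exact deriv_fun_add (rep_an f z z.2).differentiableAt (rep_an g z z.2).differentiableAt
  map_smul' c f := by
    apply Subtype.ext
    funext z
    have h1 : rep S (c • f) =ᶠ[𝓝 (z : ℂ)] fun w => c * rep S f w := by
      filter_upwards [hS.mem_nhds z.2] with w hw
      rw [← rep_eq (c • f) ⟨w, hw⟩, ← rep_eq f ⟨w, hw⟩]
      rfl
    change deriv (rep S (c • f)) z = c * deriv (rep S f) z
    rw [h1.deriv_eq]
    exact deriv_const_mul_field c
  map_one_eq_zero' := by
    apply Subtype.ext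
    funext z
    have h1 : rep S (1 : Aly S) =ᶠ[𝓝 (z : ℂ)] fun _ => (1 : ℂ) := by
      filter_upwards [hS.mem_nhds z.2] with w hw
      rw [← rep_eq (1 : Aly S) ⟨w, hw⟩]
      rfl
    change deriv (rep S (1 : Aly S)) z = 0
    rw [h1.deriv_eq, deriv_const]
  leibniz' f g := by
    apply Subtype.ext
    funext z
    have h1 : rep S (f * g) =ᶠ[𝓝 (z : ℂ)] fun w => rep S f w * rep S g w := by
      filter_upwards [hS.mem_nhds z.2] with w hw
      rw [← rep_eq (f * g) ⟨w, hw⟩, ← rep_eq f ⟨w, hw⟩, ← rep_eq g ⟨w, hw⟩]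
      rfl
    change deriv (rep S (f * g)) z = (f : S → ℂ) z * deriv (rep S g) z
      + (g : S → ℂ) z * deriv (rep S f) z
    rw [h1.deriv_eq, deriv_fun_mul (rep_an f z z.2).differentiableAt
      (rep_an g z z.2).differentiableAt, rep_eq f z, rep_eq g z]
    ring

theorem Dl_rep (hS : IsOpen S) (f : Aly S) (z : ℂ) (hz : z ∈ S) :
    rep S (Dl hS f) z = deriv (rep S f) z := rep_mk _ (rep_an f).deriv z hz

theorem Dl_iter (hS : IsOpen S) (f : Aly S) (l : ℕ) : ∀ z ∈ S,
    rep S ((Dl hS : Aly S → Aly S)^[l] f) z = iteratedDeriv l (rep S f) z := by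
  induction l with
  | zero => intro z _; simp
  | succ l ih =>
    intro z hz
    rw [Function.iterate_succ_apply', Dl_rep hS _ z hz, iteratedDeriv_succ]
    apply Filter.EventuallyEq.deriv_eq
    filter_upwards [hS.mem_nhds hz] with w hw
    exact ih w hw

theorem an_eq_zero_or (hS : IsOpen S) (hc : IsPreconnected S) {f g : ℂ → ℂ}
    (hf : AnalyticOnNhd ℂ f S) (hg : AnalyticOnNhd ℂ g S) (h : ∀ z ∈ S, f z * g z = 0) :
    (∀ z ∈ S, f z = 0) ∨ (∀ z ∈ S, g z = 0) := by
  by_cases hf0 : ∀ z ∈ S, f z = 0
  · exact Or.inl hf0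
  right
  push Not at hf0
  obtain ⟨z0, hz0S, hz0⟩ := hf0
  have hev : ∀ᶠ z in 𝓝 z0, g z = 0 := by
    filter_upwards [(hf z0 hz0S).continuousAt.eventually_ne hz0, hS.mem_nhds hz0S] with z h1 h2
    exact (mul_eq_zero.mp (h z h2)).resolve_left h1
  exact fun z hz => hg.eqOn_zero_of_preconnected_of_eventuallyEq_zero hc hz0S hev hz

theorem aly_domain (hS : IsOpen S) (hc : IsPreconnected S) (hne : S.Nonempty) : IsDomain (Aly S) := by
  have : NoZeroDivisors (Aly S) := ⟨by
    intro a b hab
    rcases an_eq_zero_or hS hc (rep_an a) (rep_an b) (fun z hz => by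
      rw [← rep_eq a ⟨z, hz⟩, ← rep_eq b ⟨z, hz⟩]
      exact congrFun (congrArg Subtype.val hab) ⟨z, hz⟩) with h | h
    · left
      apply Subtype.ext
      funext z
      rw [rep_eq a z]
      exact h z z.2
    · right
      apply Subtype.ext
      funext z
      rw [rep_eq b z]
      exact h z z.2⟩
  have : Nontrivial (Aly S) := ⟨⟨0, 1, by
    intro h
    obtain ⟨z, hz⟩ := hne
    have := congrFun (congrArg Subtype.val h) ⟨z, hz⟩
    simp at this⟩⟩
  exact NoZeroDivisors.to_isDomain (Aly S)

theorem prop_loc (hS : IsOpen S) (hc : IsPreconnected S) (a b : Aly S) (hb : b ≠ 0)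
    (h : a * Dl hS b = b * Dl hS a) : ∃ x : ℂ, a = x • b := by
  have hb' : ∃ z0 : S, (b : S → ℂ) z0 ≠ 0 := by
    by_contra hcon
    push Not at hcon
    exact hb (Subtype.ext (funext hcon))
  obtain ⟨⟨z0, hz0S⟩, hz0⟩ := hb'
  rw [rep_eq] at hz0
  have hz0' : rep S b z0 ≠ 0 := hz0
  set x : ℂ := rep S a z0 / rep S b z0 with hx
  refine ⟨x, ?_⟩
  have hev : ∀ᶠ z in 𝓝 z0, rep S b z ≠ 0 ∧ z ∈ S := by
    filter_upwards [(rep_an b z0 hz0S).continuousAt.eventually_ne hz0', hS.mem_nhds hz0S] with z h1 h2
    exact ⟨h1, h2⟩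
  obtain ⟨ε, hε, hball⟩ := Metric.eventually_nhds_iff_ball.mp hev
  have hq : ∀ z ∈ Metric.ball z0 ε, rep S a z / rep S b z = x := by
    intro z hz
    have hd : DifferentiableOn ℂ (fun z => rep S a z / rep S b z) (Metric.ball z0 ε) :=
      fun w hw => (((rep_an a w (hball w hw).2).differentiableAt).fun_div
        ((rep_an b w (hball w hw).2).differentiableAt) (hball w hw).1).differentiableWithinAt
    have hder : ∀ w ∈ Metric.ball z0 ε, deriv (fun z => rep S a z / rep S b z) w = 0 := by
      intro w hw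
      rw [deriv_fun_div (rep_an a w (hball w hw).2).differentiableAt
        (rep_an b w (hball w hw).2).differentiableAt (hball w hw).1]
      have h1 := congrFun (congrArg Subtype.val h) ⟨w, (hball w hw).2⟩
      have h2 : (a : S → ℂ) ⟨w, (hball w hw).2⟩ * deriv (rep S b) w
          = (b : S → ℂ) ⟨w, (hball w hw).2⟩ * deriv (rep S a) w := h1
      rw [rep_eq, rep_eq] at h2
      simp only at h2
      rw [div_eq_zero_iff]
      left
      linear_combination -h2
    have := Metric.isOpen_ball.is_const_of_deriv_eq_zero (convex_ball z0 ε).isPreconnected hd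
      hder hz (Metric.mem_ball_self hε)
    simpa [hx] using this
  have hfa : AnalyticOnNhd ℂ (fun z => rep S a z - x * rep S b z) S :=
    (rep_an a).sub (analyticOnNhd_const.mul (rep_an b))
  have hev2 : ∀ᶠ z in 𝓝 z0, rep S a z - x * rep S b z = 0 := by
    filter_upwards [Metric.ball_mem_nhds z0 hε] with z hz
    have h1 := hq z hz
    have h2 := (hball z hz).1
    rw [div_eq_iff h2] at h1
    rw [h1]; ring
  have h3 := hfa.eqOn_zero_of_preconnected_of_eventuallyEq_zero hc hz0S hev2
  apply Subtype.ext
  funext z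
  have h4 := h3 z.2
  simp only [Pi.zero_apply] at h4
  change (a : S → ℂ) z = x • (b : S → ℂ) z
  rw [smul_eq_mul, rep_eq a z, rep_eq b z]
  linear_combination h4

/-- The Wronskian of linearly independent analytic functions is not identically zero. -/
theorem wron_ne_loc (hS : IsOpen S) (hc : IsPreconnected S) (hne : S.Nonempty) {m : ℕ}
    (g : Fin m → ℂ → ℂ) (hg : ∀ i, AnalyticOnNhd ℂ (g i) S)
    (hind : ∀ c : Fin m → ℂ, (∀ z ∈ S, ∑ i, c i * g i z = 0) → c = 0) :
    ∃ z ∈ S, (Matrix.of fun b l : Fin m => iteratedDeriv l (g b) z).det ≠ 0 := by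
  have := aly_domain hS hc hne
  by_contra hcon
  push Not at hcon
  let f : Fin m → Aly S := fun i => mk (g i) (hg i)
  have hrep : ∀ i, ∀ z ∈ S, rep S (f i) z = g i z := fun i z hz => rep_mk _ _ z hz
  obtain ⟨c, hc', hs⟩ := wron_dep_abs (Dl hS) (prop_loc hS hc) m f (by
    apply Subtype.ext
    funext z
    let ev : Aly S →+* ℂ := (Pi.evalRingHom (fun _ : S => ℂ) z).comp (Aly S).val.toRingHom
    have hev : ∀ a : Aly S, ev a = rep S a z := fun a => rep_eq a z
    have : ev ((Matrix.of fun b l : Fin m => ((Dl hS : Aly S → Aly S)^[(l : ℕ)]) (f b)).det)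
        = (Matrix.of fun b l : Fin m => iteratedDeriv l (g b) z).det := by
      rw [RingHom.map_det]
      congr 1
      ext b l
      simp only [RingHom.mapMatrix_apply, Matrix.map_apply, Matrix.of_apply]
      rw [hev, Dl_iter hS (f b) l z z.2]
      apply Filter.EventuallyEq.iteratedDeriv_eq
      filter_upwards [hS.mem_nhds z.2] with w hw
      exact hrep b w hw
    have h2 := this.trans (hcon z z.2)
    exact h2)
  apply hc'
  apply hind
  intro z hz
  have := congrFun (congrArg Subtype.val hs) ⟨z, hz⟩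
  simpa [f, mk] using this

end Pool.Agent.W603.BP
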