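import Pool.Agent.W603.BP.Rel

/-!
The lattice of the monomials in given germs that are meromorphic at the puncture.
-/

set_option autoImplicit false

namespace Pool.Agent.W603.BP

open Filter Metric Set Topology Pool.Agent.H159R3.NV

/-- an integral linear form that vanishes on a saturated subgroup but not at a given vector -/
theorem exists_form {n : ℕ} (Λ : AddSubgroup (Fin n → ℤ))
    (hsat : ∀ (M : ℕ) (γ : Fin n → ℤ), 0 < M → M • γ ∈ Λ → γ ∈ Λ) (p : Fin n → ℤ) (hp : p ∉ Λ) :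
    ∃ b : Fin n → ℤ, (∀ γ ∈ Λ, ∑ j, γ j * b j = 0) ∧ ∑ j, p j * b j ≠ 0 := by
  classical
  let c : (Fin n → ℤ) → (Fin n → ℚ) := fun γ j => (γ j : ℚ)
  let V : Submodule ℚ (Fin n → ℚ) := Submodule.span ℚ (c '' (Λ : Set (Fin n → ℤ)))
  have hV : ∀ x ∈ V, ∃ M : ℕ, 0 < M ∧ ∃ γ ∈ Λ, (M : ℚ) • x = c γ := by
    intro x hx
    induction hx using Submodule.span_induction with
    | mem x hx =>
      obtain ⟨γ, hγ, rfl⟩ := hx
      exact ⟨1, one_pos, γ, hγ, by simp⟩
    | zero => exact ⟨1, one_pos, 0, Λ.zero_mem, by ext j; simp [c]⟩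
    | add x y _ _ hx hy =>
      obtain ⟨M, hM, γ, hγ, h1⟩ := hx
      obtain ⟨M', hM', γ', hγ', h2⟩ := hy
      refine ⟨M * M', Nat.mul_pos hM hM', M' • γ + M • γ',
        Λ.add_mem (Λ.nsmul_mem hγ _) (Λ.nsmul_mem hγ' _), ?_⟩
      ext j
      have a1 := congrFun h1 j
      have a2 := congrFun h2 j
      simp only [Pi.smul_apply, smul_eq_mul, c] at a1 a2
      have e : (M' • γ + M • γ') j = (M' : ℤ) * γ j + M * γ' j := by simp
      have e2 : c (M' • γ + M • γ') j = (M' : ℚ) * γ j + M * γ' j := by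
        change (((M' • γ + M • γ') j : ℤ) : ℚ) = _
        rw [e]
        push_cast
        ring
      rw [e2, ← a1, ← a2]
      simp only [Pi.smul_apply, Pi.add_apply, smul_eq_mul]
      push_cast
      ring
    | smul r x _ hx =>
      obtain ⟨M, hM, γ, hγ, h1⟩ := hx
      refine ⟨M * r.den, Nat.mul_pos hM r.den_pos, r.num • γ, Λ.zsmul_mem hγ _, ?_⟩
      ext j
      have a1 := congrFun h1 j
      simp only [Pi.smul_apply, smul_eq_mul, c] at a1
      simp only [Pi.smul_apply, smul_eq_mul, c]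
      push_cast
      rw [← a1]
      have h3 : (r.den : ℚ) * r = r.num := Rat.den_mul_eq_num r
      calc (M : ℚ) * r.den * (r * x j) = (r.den * r) * (M * x j) := by ring
        _ = _ := by rw [h3]
  have hpV : c p ∉ V := by
    intro h
    obtain ⟨M, hM, γ, hγ, h1⟩ := hV _ h
    apply hp
    apply hsat M p hM
    have : M • p = γ := by
      ext j
      have a1 := congrFun h1 j
      simp only [Pi.smul_apply, smul_eq_mul, c] at a1
      have a2 : ((M • p) j : ℤ) = (M : ℤ) * p j := by simp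
      rw [a2]
      exact_mod_cast a1
    rw [this]
    exact hγ
  obtain ⟨ψ, hψ1, hψ2⟩ := Submodule.exists_dual_map_eq_bot_of_notMem hpV inferInstance
  have hψV : ∀ x ∈ V, ψ x = 0 := by
    intro x hx
    have : ψ x ∈ V.map ψ := Submodule.mem_map_of_mem hx
    rw [hψ2] at this
    exact (Submodule.mem_bot ℚ).mp this
  set u : Fin n → ℚ := fun j => ψ (Pi.single j 1) with hu
  set D : ℕ := ∏ j, (u j).den with hD
  have hD0 : (D : ℚ) ≠ 0 := by
    rw [hD]
    exact_mod_cast Finset.prod_ne_zero_iff.mpr fun j _ => (u j).den_nz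
  have hint : ∀ j, ∃ k : ℤ, (k : ℚ) = D * u j := by
    intro j
    refine ⟨(∏ i ∈ Finset.univ.erase j, ((u i).den : ℤ)) * (u j).num, ?_⟩
    have e : (D : ℚ) = (u j).den * ∏ i ∈ Finset.univ.erase j, ((u i).den : ℚ) := by
      rw [hD]
      push_cast
      rw [Finset.mul_prod_erase Finset.univ (fun i => ((u i).den : ℚ)) (Finset.mem_univ j)]
    push_cast
    rw [e]
    have e2 : ((u j).num : ℚ) = u j * (u j).den := by
      rw [mul_comm]; exact (Rat.den_mul_eq_num _).symm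
    rw [e2]
    ring
  choose b hb using hint
  have hψc : ∀ γ : Fin n → ℤ, ψ (c γ) = ∑ j, (γ j : ℚ) * u j := by
    intro γ
    have h1 : c γ = ∑ j, (γ j : ℚ) • (Pi.single j 1 : Fin n → ℚ) := by
      ext i
      simp [c, Finset.sum_apply, Pi.single_apply]
    rw [h1, map_sum]
    refine Finset.sum_congr rfl fun j _ => ?_
    rw [map_smul, smul_eq_mul]
  have hsum : ∀ γ : Fin n → ℤ, ((∑ j, γ j * b j : ℤ) : ℚ) = D * ψ (c γ) := by
    intro γ
    rw [hψc]
    push_cast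
    rw [Finset.mul_sum]
    refine Finset.sum_congr rfl fun j _ => ?_
    rw [hb]; ring
  refine ⟨b, ?_, ?_⟩
  · intro γ hγ
    have h2 := hsum γ
    rw [hψV _ (Submodule.subset_span ⟨γ, hγ, rfl⟩), mul_zero] at h2
    exact_mod_cast h2
  · intro h0
    have h2 := hsum p
    rw [h0] at h2
    push_cast at h2
    exact mul_ne_zero hD0 hψ1 h2.symm

variable {n : ℕ}

/-- the exponents of the Laurent monomials that are meromorphic at the puncture -/
def Mon (f : Fin n → ℂ → ℂ) : AddSubgroup (Fin n → ℤ) where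
  carrier := {γ | (∀ j, ¬ Nz (f j) → γ j = 0) ∧ ∃ ρ : ℂ → ℂ, MeromorphicAt ρ 0 ∧
    ∀ᶠ w in 𝓝[≠] (0 : ℂ), (∀ j, Nz (f j) → f j w ≠ 0) → ∏ j, f j w ^ γ j = ρ w}
  zero_mem' := ⟨fun _ _ => rfl, fun _ => 1, MeromorphicAt.const 1 0,
    Eventually.of_forall fun w _ => by simp⟩
  add_mem' := by
    rintro γ γ' ⟨h1, ρ, hρ, h2⟩ ⟨h3, ρ', hρ', h4⟩
    refine ⟨fun j hj => by rw [Pi.add_apply, h1 j hj, h3 j hj, add_zero], fun w => ρ w * ρ' w,
      hρ.fun_mul hρ', ?_⟩
    filter_upwards [h2, h4] with w a b hw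
    rw [← a hw, ← b hw, ← Finset.prod_mul_distrib]
    refine Finset.prod_congr rfl fun j _ => ?_
    by_cases hj : Nz (f j)
    · rw [Pi.add_apply, zpow_add₀ (hw j hj)]
    · rw [Pi.add_apply, h1 j hj, h3 j hj]
      simp
  neg_mem' := by
    rintro γ ⟨h1, ρ, hρ, h2⟩
    refine ⟨fun j hj => by rw [Pi.neg_apply, h1 j hj, neg_zero], fun w => (ρ w)⁻¹,
      hρ.fun_inv, ?_⟩
    filter_upwards [h2] with w a hw
    rw [← a hw, ← Finset.prod_inv_distrib]
    refine Finset.prod_congr rfl fun j _ => ?_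
    rw [Pi.neg_apply, zpow_neg]

theorem mem_Mon {f : Fin n → ℂ → ℂ} {γ : Fin n → ℤ} : γ ∈ Mon f ↔
    (∀ j, ¬ Nz (f j) → γ j = 0) ∧ ∃ ρ : ℂ → ℂ, MeromorphicAt ρ 0 ∧
      ∀ᶠ w in 𝓝[≠] (0 : ℂ), (∀ j, Nz (f j) → f j w ≠ 0) → ∏ j, f j w ^ γ j = ρ w := Iff.rfl

/-- splitting a Laurent monomial -/
theorem prod_split (f : Fin n → ℂ → ℂ) (γ : Fin n → ℤ) (α β : Fin n → ℕ)
    (hγ : ∀ j, γ j = α j - β j) (h0 : ∀ j, ¬ Nz (f j) → α j = 0 ∧ β j = 0) (w : ℂ)
    (hw : ∀ j, Nz (f j) → f j w ≠ 0) :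
    ∏ j, f j w ^ α j = (∏ j, f j w ^ γ j) * ∏ j, f j w ^ β j := by
  rw [← Finset.prod_mul_distrib]
  refine Finset.prod_congr rfl fun j _ => ?_
  by_cases hj : Nz (f j)
  · rw [hγ j, zpow_sub₀ (hw j hj), zpow_natCast, zpow_natCast]
    have := pow_ne_zero (β j) (hw j hj)
    field_simp
  · obtain ⟨h1, h2⟩ := h0 j hj
    rw [hγ j, h1, h2]
    simp

/-- eventual equality from equality where nothing vanishes -/
theorem ev_of_good {f : Fin n → ℂ → ℂ} (hf : ∀ j, Pun (f j)) {g h : ℂ → ℂ} (hg : Pun g) (hh : Pun h)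
    (he : ∀ᶠ w in 𝓝[≠] (0 : ℂ), (∀ j, Nz (f j) → f j w ≠ 0) → g w = h w) :
    ∀ᶠ w in 𝓝[≠] (0 : ℂ), g w = h w := by
  classical
  let p : ℂ → ℂ := fun w => ∏ j, if Nz (f j) then f j w else 1
  have hp1 : Pun p := Pun.prod _ fun j _ => by
    by_cases hj : Nz (f j)
    · simpa [hj] using hf j
    · simpa only [hj, if_false] using Pun.const 1
  have hp2 : Nz p := Nz.prod _ (fun j _ => by
    by_cases hj : Nz (f j)
    · simpa [hj] using hf j
    · simpa [hj] using Pun.const 1) (fun j _ => by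
    by_cases hj : Nz (f j)
    · simpa [hj] using hj
    · simpa [hj] using nz_const one_ne_zero)
  have hd : Pun (fun w => g w - h w) := by
    filter_upwards [hg, hh] with w a b
    exact a.fun_sub b
  rcases pun_mul_zero hd hp1 (by
    filter_upwards [he] with w hw
    by_cases h0 : p w = 0
    · rw [h0, mul_zero]
    · rw [hw (fun j hj => by
        have := Finset.prod_ne_zero_iff.mp h0 j (Finset.mem_univ j)
        simpa [hj] using this), sub_self, zero_mul]) with h1 | h1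
  · filter_upwards [h1] with w hw
    exact sub_eq_zero.mp hw
  · exact absurd h1 hp2

theorem Mon_sat (f : Fin n → ℂ → ℂ) (hf : ∀ j, Pun (f j)) (M : ℕ) (γ : Fin n → ℤ) (hM : 0 < M)
    (h : M • γ ∈ Mon f) : γ ∈ Mon f := by
  obtain ⟨h1, ρ, hρ, h2⟩ := h
  have h0 : ∀ j, ¬ Nz (f j) → γ j = 0 := by
    intro j hj
    have := h1 j hj
    have h3 : (M : ℤ) * γ j = 0 := by simpa using this
    exact (mul_eq_zero.mp h3).resolve_left (by exact_mod_cast hM.ne')
  let α : Fin n → ℕ := fun j => (γ j).toNat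
  let β : Fin n → ℕ := fun j => (-γ j).toNat
  have hγ : ∀ j, γ j = α j - β j := fun j => by
    simp only [α, β]
    omega
  have hαβ0 : ∀ j, ¬ Nz (f j) → α j = 0 ∧ β j = 0 := fun j hj => by
    simp only [α, β, h0 j hj]
    simp
  have hPα : Pun (fun w => ∏ j, f j w ^ α j) := Pun.prod _ fun j _ => (hf j).pow _
  have hPβ : Pun (fun w => ∏ j, f j w ^ β j) := Pun.prod _ fun j _ => (hf j).pow _
  have hNβ : Nz (fun w => ∏ j, f j w ^ β j) := Nz.prod _ (fun j _ => (hf j).pow _) fun j _ => by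
    by_cases hj : Nz (f j)
    · exact hj.pow _
    · rw [(hαβ0 j hj).2]
      simpa using nz_const one_ne_zero
  have h3 : ∀ᶠ w in 𝓝[≠] (0 : ℂ), (∏ j, f j w ^ α j) ^ M = ρ w * (∏ j, f j w ^ β j) ^ M := by
    apply ev_of_good hf (hPα.pow M) ((Pun.mero hρ).mul (hPβ.pow M))
    filter_upwards [h2] with w hw hgood
    rw [← hw hgood, prod_split f γ α β hγ hαβ0 w hgood, mul_pow]
    congr 1
    rw [← Finset.prod_pow]
    refine Finset.prod_congr rfl fun j _ => ?_
    have e : (M • γ) j = γ j * (M : ℤ) := by simp [mul_comm]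
    rw [e, zpow_mul, zpow_natCast]
  have h4 : Gr (fun w => ∏ j, f j w ^ α j) (fun w => ∏ j, f j w ^ β j) :=
    gr_of_pow hM (MRel.gr ⟨ρ, hρ, h3⟩)
  obtain ⟨σ, hσ, hσe⟩ := growth_mero hPα hPβ hNβ h4
  refine ⟨h0, σ, hσ, ?_⟩
  filter_upwards [hσe] with w hw hgood
  rw [prod_split f γ α β hγ hαβ0 w hgood] at hw
  have hne : ∏ j, f j w ^ β j ≠ 0 := Finset.prod_ne_zero_iff.mpr fun j _ => by
    by_cases hj : Nz (f j)
    · exact pow_ne_zero _ (hgood j hj)
    · rw [(hαβ0 j hj).2]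
      simp
  exact mul_right_cancel₀ hne hw

theorem Mon_of_gr {f : Fin n → ℂ → ℂ} (hf : ∀ j, Pun (f j)) (α β : Fin n → ℕ)
    (hα : Nz (fun w => ∏ j, f j w ^ α j)) (hβ : Nz (fun w => ∏ j, f j w ^ β j))
    (h : Gr (fun w => ∏ j, f j w ^ α j) (fun w => ∏ j, f j w ^ β j)) :
    (fun j => (α j : ℤ) - β j) ∈ Mon f := by
  have hzero : ∀ (δ : Fin n → ℕ), Nz (fun w => ∏ j, f j w ^ δ j) → ∀ j, ¬ Nz (f j) → δ j = 0 := by
    intro δ hδ j hj
    by_contra hne
    apply hδ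
    have hj' : ∀ᶠ w in 𝓝[≠] (0 : ℂ), f j w = 0 := not_not.mp hj
    filter_upwards [hj'] with w hw
    exact Finset.prod_eq_zero (Finset.mem_univ j) (by rw [hw, zero_pow hne])
  have hα0 := hzero α hα
  have hβ0 := hzero β hβ
  obtain ⟨σ, hσ, hσe⟩ := growth_mero (Pun.prod _ fun j _ => (hf j).pow _)
    (Pun.prod _ fun j _ => (hf j).pow _) hβ h
  refine ⟨fun j hj => by simp [hα0 j hj, hβ0 j hj], σ, hσ, ?_⟩
  filter_upwards [hσe] with w hw hgood
  rw [prod_split f (fun j => (α j : ℤ) - β j) α β (fun j => rfl)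
    (fun j hj => ⟨hα0 j hj, hβ0 j hj⟩) w hgood] at hw
  have hne : ∏ j, f j w ^ β j ≠ 0 := Finset.prod_ne_zero_iff.mpr fun j _ => by
    by_cases hj : Nz (f j)
    · exact pow_ne_zero _ (hgood j hj)
    · rw [hβ0 j hj]
      simp
  exact mul_right_cancel₀ hne hw

theorem MRel_of_Mon {f : Fin n → ℂ → ℂ} (hf : ∀ j, Pun (f j)) (j k : Fin n) (hj : Nz (f j))
    (hk : Nz (f k)) (h : (Pi.single j 1 - Pi.single k 1 : Fin n → ℤ) ∈ Mon f) : MRel (f j) (f k) := by
  classical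
  by_cases hjk : j = k
  · rw [hjk]
    exact ⟨fun _ => 1, MeromorphicAt.const 1 0, Eventually.of_forall fun w => by simp⟩
  obtain ⟨-, ρ, hρ, h2⟩ := h
  refine ⟨ρ, hρ, ev_of_good hf (hf j) ((Pun.mero hρ).mul (hf k)) ?_⟩
  filter_upwards [h2] with w hw hgood
  rw [← hw hgood]
  have e1 : ∏ i, f i w ^ (Pi.single j 1 - Pi.single k 1 : Fin n → ℤ) i = f j w * (f k w)⁻¹ := by
    have h3 : ∀ i, f i w ^ (Pi.single j 1 - Pi.single k 1 : Fin n → ℤ) i
        = (if i = j then f j w else 1) * (if i = k then (f k w)⁻¹ else 1) := by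
      intro i
      by_cases hi : i = j
      · subst hi
        simp [hjk]
      · by_cases hi2 : i = k
        · subst hi2
          simp [hi]
        · simp [hi, hi2]
    rw [Finset.prod_congr rfl fun i _ => h3 i, Finset.prod_mul_distrib]
    simp
  rw [e1]
  have := hgood k hk
  field_simp

end Pool.Agent.W603.BP
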