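import Mathlib

/-!
Laurent splitting of a function that is holomorphic in an annulus.
-/

set_option autoImplicit false

namespace Pool.Agent.W603.BP

open Metric Set Complex MeasureTheory
open scoped Real Topology

/-- inversion of a circle integral -/
theorem circle_inv (g : ℂ → ℂ) {a : ℝ} (ha : 0 < a) :
    (∮ ζ in C(0, a), g ζ) = ∮ ξ in C(0, a⁻¹), g ξ⁻¹ * ξ⁻¹ * ξ⁻¹ := by
  unfold circleIntegral
  have h1 := intervalIntegral.integral_comp_sub_left (a := 0) (b := 2 * π)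
    (fun θ => deriv (circleMap 0 a) θ • g (circleMap 0 a θ)) (2 * π)
  simp only [sub_self, sub_zero] at h1
  rw [← h1]
  apply intervalIntegral.integral_congr
  intro θ _
  have ha' : (a : ℂ) ≠ 0 := by exact_mod_cast ha.ne'
  have e1 : circleMap 0 a (2 * π - θ) = (circleMap 0 a⁻¹ θ)⁻¹ := by
    simp only [circleMap, zero_add, ofReal_sub, ofReal_mul, ofReal_ofNat, ofReal_inv]
    rw [mul_inv, inv_inv, ← Complex.exp_neg, sub_mul, Complex.exp_sub, Complex.exp_two_pi_mul_I,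
      one_div, ← Complex.exp_neg]
  simp only [deriv_circleMap, smul_eq_mul]
  rw [e1]
  have h2 : circleMap 0 a⁻¹ θ ≠ 0 := circleMap_ne_center (inv_pos.mpr ha).ne'
  field_simp

theorem split_aux {φ : ℂ → ℂ} {r0 r1 a b : ℝ} (hr0 : 0 ≤ r0) (ha : r0 < a) (hb : b < r1)
    (hφ : DifferentiableOn ℂ φ {z | r0 < ‖z‖ ∧ ‖z‖ < r1}) (z : ℂ) (hz1 : a < ‖z‖)
    (hz2 : ‖z‖ < b) :
    (∮ ζ in C(0, b), (ζ - z)⁻¹ • φ ζ) - (∮ ζ in C(0, a), (ζ - z)⁻¹ • φ ζ)
      = (2 * π * I) * φ z := by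
  have hab : a < b := hz1.trans hz2
  have ha0 : 0 < a := hr0.trans_lt ha
  have hopen : IsOpen {z : ℂ | r0 < ‖z‖ ∧ ‖z‖ < r1} :=
    (isOpen_lt continuous_const continuous_norm).inter (isOpen_lt continuous_norm continuous_const)
  have hzm : {z : ℂ | r0 < ‖z‖ ∧ ‖z‖ < r1} ∈ 𝓝 z :=
    hopen.mem_nhds ⟨ha.trans hz1, hz2.trans hb⟩
  have hd : DifferentiableOn ℂ (dslope φ z) {z | r0 < ‖z‖ ∧ ‖z‖ < r1} :=
    (Complex.differentiableOn_dslope hzm).mpr hφ
  have h1 := circleIntegral_eq_of_differentiable_on_annulus_off_countable (c := 0) (f := dslope φ z)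
    ha0 hab.le (countable_empty) (by
      apply hd.continuousOn.mono
      intro w hw
      simp only [mem_sdiff, mem_closedBall, dist_zero_right, mem_ball, not_lt] at hw
      exact ⟨ha.trans_le hw.2, hw.1.trans_lt hb⟩) (by
      intro w hw
      simp only [mem_sdiff, mem_closedBall, dist_zero_right, mem_ball, not_le] at hw
      exact (hd.differentiableAt (hopen.mem_nhds ⟨ha.trans hw.1.2, hw.1.1.trans hb⟩)))
  have key : ∀ s : ℝ, 0 < s → r0 < s → s < r1 → s ≠ ‖z‖ →
      (∮ ζ in C(0, s), dslope φ z ζ)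
        = (∮ ζ in C(0, s), (ζ - z)⁻¹ • φ ζ) - φ z * ∮ ζ in C(0, s), (ζ - z)⁻¹ := by
    intro s hs hs1 hs2 hs3
    have hne : ∀ ζ ∈ sphere (0 : ℂ) |s|, ζ - z ≠ 0 := by
      intro ζ hζ h0
      rw [mem_sphere, dist_zero_right, abs_of_pos hs] at hζ
      rw [sub_eq_zero.mp h0] at hζ
      exact hs3 hζ.symm
    have hci1 : CircleIntegrable (fun ζ => (ζ - z)⁻¹ • φ ζ) 0 s := by
      apply ContinuousOn.circleIntegrable'
      refine ContinuousOn.fun_smul ((continuousOn_id.sub continuousOn_const).inv₀ hne) ?_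
      apply hφ.continuousOn.mono
      intro ζ hζ
      rw [mem_sphere, dist_zero_right, abs_of_pos hs] at hζ
      exact ⟨hζ ▸ hs1, hζ ▸ hs2⟩
    have hci2 : CircleIntegrable (fun ζ => φ z * (ζ - z)⁻¹) 0 s := by
      apply ContinuousOn.circleIntegrable'
      exact continuousOn_const.mul ((continuousOn_id.sub continuousOn_const).inv₀ hne)
    rw [← circleIntegral.integral_const_mul, ← circleIntegral.integral_sub hci1 hci2]
    apply circleIntegral.integral_congr hs.le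
    intro ζ hζ
    have hζ' : ζ ≠ z := by
      intro h
      apply hne ζ _ (sub_eq_zero.mpr h)
      rw [abs_of_pos hs]
      exact hζ
    simp only
    rw [dslope_of_ne _ hζ', slope_def_field, smul_eq_mul]
    have := sub_ne_zero.mpr hζ'
    field_simp
  have k1 := key b (ha0.trans hab) (ha.trans hab) hb hz2.ne'
  have k2 := key a ha0 ha (hab.trans hb) hz1.ne
  rw [circleIntegral.integral_sub_inv_of_mem_ball (by simpa using hz2)] at k1
  have k3 : (∮ ζ in C(0, a), (ζ - z)⁻¹) = 0 := by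
    apply Complex.circleIntegral_eq_zero_of_differentiable_on_off_countable ha0.le countable_empty
    · apply ContinuousOn.inv₀ (continuousOn_id.sub continuousOn_const)
      intro w hw h0
      rw [mem_closedBall, dist_zero_right] at hw
      have h0' : w - z = 0 := h0
      rw [sub_eq_zero.mp h0'] at hw
      linarith
    · intro w hw
      apply DifferentiableAt.inv (by fun_prop)
      intro h0
      have := hw.1
      rw [mem_ball, dist_zero_right, sub_eq_zero.mp h0] at this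
      linarith
  rw [k3, mul_zero, sub_zero] at k2
  rw [k1, k2] at h1
  linear_combination h1

theorem cauchy_diff {f : ℂ → ℂ} {R : ℝ} (hR : 0 < R) (hf : ContinuousOn f (sphere 0 R)) :
    DifferentiableOn ℂ (fun w => (2 * π * I : ℂ)⁻¹ • ∮ z in C(0, R), (z - w)⁻¹ • f z) (ball 0 R) := by
  have h := hasFPowerSeriesOn_cauchy_integral (f := f) (c := 0) (R := ⟨R, hR.le⟩)
    (by
      apply ContinuousOn.circleIntegrable hR.le
      exact hf) (by exact hR)
  have h2 := h.differentiableOn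
  rw [Metric.eball_coe] at h2
  exact h2

/-- Laurent splitting -/
theorem split {φ : ℂ → ℂ} {r0 r1 a b : ℝ} (hr0 : 0 ≤ r0) (ha : r0 < a) (hab : a < b) (hb : b < r1)
    (hφ : DifferentiableOn ℂ φ {z | r0 < ‖z‖ ∧ ‖z‖ < r1}) :
    ∃ P Q : ℂ → ℂ, DifferentiableOn ℂ P (ball 0 b) ∧ DifferentiableOn ℂ Q (ball 0 a⁻¹) ∧
      ∀ z, a < ‖z‖ → ‖z‖ < b → φ z = P z + z⁻¹ * Q z⁻¹ := by
  have ha0 : 0 < a := hr0.trans_lt ha
  have hb0 : 0 < b := ha0.trans hab
  have hai : 0 < a⁻¹ := inv_pos.mpr ha0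
  have hann : ∀ s : ℝ, a ≤ s → s ≤ b → ∀ z : ℂ, ‖z‖ = s → z ∈ {z : ℂ | r0 < ‖z‖ ∧ ‖z‖ < r1} := by
    intro s h1 h2 z hz
    exact ⟨by rw [hz]; exact ha.trans_le h1, by rw [hz]; exact h2.trans_lt hb⟩
  refine ⟨fun z => (2 * π * I : ℂ)⁻¹ • ∮ ζ in C(0, b), (ζ - z)⁻¹ • φ ζ,
    fun w => (2 * π * I : ℂ)⁻¹ • ∮ ξ in C(0, a⁻¹), (ξ - w)⁻¹ • (φ ξ⁻¹ * ξ⁻¹), ?_, ?_, ?_⟩
  · apply cauchy_diff hb0
    apply hφ.continuousOn.mono
    intro z hz
    exact hann b hab.le le_rfl z (by simpa using hz)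
  · apply cauchy_diff hai
    have hinv : ContinuousOn (fun ξ : ℂ => ξ⁻¹) (sphere 0 a⁻¹) := by
      apply continuousOn_id.inv₀
      intro ξ hξ h0
      rw [mem_sphere, dist_zero_right] at hξ
      have h0' : ξ = 0 := h0
      rw [h0', norm_zero] at hξ
      exact hai.ne hξ
    apply ContinuousOn.mul _ hinv
    apply hφ.continuousOn.comp hinv
    intro ξ hξ
    apply hann a le_rfl hab.le
    rw [mem_sphere, dist_zero_right] at hξ
    rw [norm_inv, hξ, inv_inv]
  · intro z hz1 hz2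
    have h1 := split_aux hr0 ha hb hφ z hz1 hz2
    have hz0 : z ≠ 0 := by
      intro h
      rw [h, norm_zero] at hz1
      linarith
    have h2 : (∮ ζ in C(0, a), (ζ - z)⁻¹ • φ ζ)
        = - (z⁻¹ * ∮ ξ in C(0, a⁻¹), (ξ - z⁻¹)⁻¹ • (φ ξ⁻¹ * ξ⁻¹)) := by
      rw [circle_inv _ ha0, ← circleIntegral.integral_const_mul, ← neg_one_mul,
        ← circleIntegral.integral_const_mul]
      apply circleIntegral.integral_congr hai.le
      intro ξ hξ
      rw [mem_sphere, dist_zero_right] at hξ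
      have hξ0 : ξ ≠ 0 := by
        intro h
        rw [h, norm_zero] at hξ
        exact hai.ne hξ
      have hne : ξ - z⁻¹ ≠ 0 := by
        intro h
        rw [sub_eq_zero.mp h, norm_inv, inv_inj] at hξ
        linarith
      have hne2 : ξ⁻¹ - z ≠ 0 := by
        intro h
        apply hne
        rw [← sub_eq_zero.mp h, inv_inv, sub_self]
      have e : (ξ⁻¹ - z)⁻¹ = - (z⁻¹ * (ξ - z⁻¹)⁻¹ * ξ) := by
        have h3 : ξ⁻¹ - z = - (ξ⁻¹ * z * (ξ - z⁻¹)) := by
          field_simp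
          ring
        rw [h3, inv_neg, mul_inv, mul_inv, inv_inv]
        ring
      simp only [smul_eq_mul]
      rw [e]
      field_simp
    rw [h2] at h1
    have hpi : (2 * π * I : ℂ) ≠ 0 := Complex.two_pi_I_ne_zero
    apply mul_left_cancel₀ hpi
    rw [← h1]
    simp only [smul_eq_mul]
    field_simp
    ring

end Pool.Agent.W603.BP
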