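import Pool.Agent.W603.BP.MGerm

/-!
Relations between high powers of functions are preserved by linear operators over the field of
meromorphic germs.
-/

set_option autoImplicit false

namespace Pool.Agent.W603.BP

open Filter Topology

theorem gm_mul (f g : ℂ → ℂ) : gm (fun w => f w * g w) = gm f * gm g := map_mul gm f g

theorem gm_add (f g : ℂ → ℂ) : gm (fun w => f w + g w) = gm f + gm g := map_add gm f g

theorem gm_pow (f : ℂ → ℂ) (N : ℕ) : gm (fun w => f w ^ N) = gm f ^ N := map_pow gm f N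

theorem gm_sum {ι : Type} (A : Finset ι) (f : ι → ℂ → ℂ) :
    gm (fun w => ∑ a ∈ A, f a w) = ∑ a ∈ A, gm (f a) := by
  rw [← map_sum]
  congr 1
  funext w
  rw [Finset.sum_apply]

/-- linearity over meromorphic germs -/
theorem lin_mul (Φ : Gm →ₗ[MG] Gm) {ρ : ℂ → ℂ} (hρ : MeromorphicAt ρ 0) (g : ℂ → ℂ) :
    Φ (gm (fun w => ρ w * g w)) = gm ρ * Φ (gm g) := by
  have h := Φ.map_smul (⟨gm ρ, ρ, hρ, rfl⟩ : MG) (gm g)
  rw [gm_mul]
  exact h

theorem lin_rel (Φ : Gm →ₗ[MG] Gm) {ρ g h : ℂ → ℂ} (hρ : MeromorphicAt ρ 0)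
    (he : ∀ᶠ w in 𝓝[≠] (0 : ℂ), h w = ρ w * g w) : Φ (gm h) = gm ρ * Φ (gm g) := by
  rw [← lin_mul Φ hρ, gm_eq.mpr he]

theorem pow_relation {N : ℕ} (hN : 0 < N) {ι : Type} [DecidableEq ι] (g : ι → ℂ → ℂ)
    (hg : ∀ a, Pun (g a)) (A : Finset ι) (hA : (A.card - 1) ^ 2 ≤ N) (c : ι → ℂ)
    (h : ∀ᶠ w in 𝓝[≠] (0 : ℂ), ∑ a ∈ A, c a * g a w ^ N = 0) (Φ : Gm →ₗ[MG] Gm) :
    ∑ a ∈ A, gm (fun _ => c a) * Φ (gm (g a)) ^ N = 0 := by
  classical
  let col : ι → Set ι := fun a => {b | Gr (g b) (g a) ∧ Gr (g a) (g b)}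
  have hsym : ∀ a b, Nz (g a) → Nz (g b) → Gr (g a) (g b) → Gr (g b) (g a) := by
    intro a b ha hb hab
    exact ((growth_mero (hg a) (hg b) hb hab).symm ha).gr
  have hcol : ∀ a b, Nz (fun w => g a w ^ N) → Nz (fun w => g b w ^ N) →
      Gr (fun w => g a w ^ N) (fun w => g b w ^ N) → col a = col b := by
    intro a b ha hb hab
    have ha' : Nz (g a) := by
      intro h0
      apply ha
      filter_upwards [h0] with w hw
      rw [hw, zero_pow hN.ne']
    have hb' : Nz (g b) := by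
      intro h0
      apply hb
      filter_upwards [h0] with w hw
      rw [hw, zero_pow hN.ne']
    have h1 := gr_of_pow hN hab
    have h2 := hsym a b ha' hb' h1
    ext x
    exact ⟨fun hx => ⟨hx.1.trans h1, h2.trans hx.2⟩, fun hx => ⟨hx.1.trans h2, h1.trans hx.2⟩⟩
  have hmain := color_sums hN (fun a w => g a w ^ N) (fun a => (hg a).pow N)
    (fun a => ⟨fun t => g a (t ^ N), (hg a).comp_pow hN, Eventually.of_forall fun _ => rfl⟩)
    col hcol A hA (fun a _ => c a) (fun a => MeromorphicAt.const _ 0) h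
  rw [← Finset.sum_fiberwise_of_maps_to (t := A.image col) (g := col)
    (fun a ha => Finset.mem_image_of_mem col ha)]
  refine Finset.sum_eq_zero fun v _ => ?_
  have hv := hmain v
  by_cases hex : ∃ a1 ∈ A.filter (fun a => col a = v), Nz (g a1)
  · obtain ⟨a1, ha1, hn1⟩ := hex
    have hrel : ∀ a ∈ A.filter (fun a => col a = v), MRel (g a) (g a1) := by
      intro a ha
      have h1 : col a = col a1 := (Finset.mem_filter.mp ha).2.trans (Finset.mem_filter.mp ha1).2.symm
      have h2 : a ∈ col a := ⟨Gr.refl _, Gr.refl _⟩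
      rw [h1] at h2
      exact growth_mero (hg a) (hg a1) hn1 h2.1
    choose! ρ hρ hρe using hrel
    have hall : ∀ᶠ w in 𝓝[≠] (0 : ℂ), ∀ a ∈ A.filter (fun a => col a = v),
        g a w = ρ a w * g a1 w := (Filter.eventually_all_finset _).mpr hρe
    let R : ℂ → ℂ := fun w => ∑ a ∈ A.filter (fun a => col a = v), c a * ρ a w ^ N
    have hR : MeromorphicAt R 0 := by
      have : R = ∑ a ∈ A.filter (fun a => col a = v), fun w => c a * ρ a w ^ N := by
        funext w
        simp only [R, Finset.sum_apply]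
      rw [this]
      apply MeromorphicAt.sum
      intro a ha
      exact (MeromorphicAt.const _ 0).fun_mul ((hρ a ha).fun_pow N)
    have hR0 : ∀ᶠ w in 𝓝[≠] (0 : ℂ), R w = 0 := by
      have h1 : ∀ᶠ w in 𝓝[≠] (0 : ℂ), R w * g a1 w ^ N = 0 := by
        filter_upwards [hv, hall] with w h2 h3
        rw [← h2]
        simp only [R]
        rw [Finset.sum_mul]
        refine Finset.sum_congr rfl fun a ha => ?_
        rw [h3 a ha]
        ring
      rcases pun_mul_zero (Pun.mero hR) ((hg a1).pow N) h1 with h2 | h2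
      · exact h2
      · exact absurd h2 (hn1.pow N)
    have hR1 : gm R = ∑ a ∈ A.filter (fun a => col a = v), gm (fun _ => c a) * gm (ρ a) ^ N := by
      simp only [R]
      rw [gm_sum]
      exact Finset.sum_congr rfl fun a _ => by rw [gm_mul, gm_pow]
    calc ∑ a ∈ A.filter (fun a => col a = v), gm (fun _ => c a) * Φ (gm (g a)) ^ N
        = ∑ a ∈ A.filter (fun a => col a = v),
            (gm (fun _ => c a) * gm (ρ a) ^ N) * Φ (gm (g a1)) ^ N := by
          refine Finset.sum_congr rfl fun a ha => ?_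
          rw [lin_rel Φ (hρ a ha) (hρe a ha), mul_pow, mul_assoc]
      _ = gm R * Φ (gm (g a1)) ^ N := by rw [← Finset.sum_mul, hR1]
      _ = 0 := by rw [gm_eq_zero.mpr hR0, zero_mul]
  · refine Finset.sum_eq_zero fun a ha => ?_
    have h1 : ¬ Nz (g a) := fun h0 => hex ⟨a, ha, h0⟩
    have h2 : gm (g a) = 0 := gm_eq_zero.mpr (not_not.mp h1)
    rw [h2, map_zero, zero_pow hN.ne', mul_zero]

end Pool.Agent.W603.BP
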