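import Pool.Agent.W603.BP.Rel

/-!
The field of germs of meromorphic functions and linear operators over it.
-/

set_option autoImplicit false

namespace Pool.Agent.W603.BP

open Filter Topology

/-- germs of functions on punctured neighbourhoods of the origin -/
abbrev Gm : Type := Filter.Germ (𝓝[≠] (0 : ℂ)) ℂ

/-- the germ of a function -/
noncomputable def gm : (ℂ → ℂ) →+* Gm := Filter.Germ.coeRingHom _

theorem gm_eq {f g : ℂ → ℂ} : gm f = gm g ↔ ∀ᶠ w in 𝓝[≠] (0 : ℂ), f w = g w := Germ.coe_eq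

theorem gm_surj (x : Gm) : ∃ f, gm f = x := by
  induction x using Filter.Germ.inductionOn with
  | h f => exact ⟨f, rfl⟩

theorem gm_eq_zero {f : ℂ → ℂ} : gm f = 0 ↔ ∀ᶠ w in 𝓝[≠] (0 : ℂ), f w = 0 := by
  rw [← map_zero gm, gm_eq]
  rfl

/-- the germs of meromorphic functions -/
noncomputable def MG : Subring Gm where
  carrier := {g | ∃ ρ : ℂ → ℂ, MeromorphicAt ρ 0 ∧ gm ρ = g}
  mul_mem' := by
    rintro _ _ ⟨a, ha, rfl⟩ ⟨b, hb, rfl⟩
    exact ⟨a * b, ha.mul hb, map_mul _ _ _⟩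
  one_mem' := ⟨1, MeromorphicAt.const 1 0, map_one _⟩
  add_mem' := by
    rintro _ _ ⟨a, ha, rfl⟩ ⟨b, hb, rfl⟩
    exact ⟨a + b, ha.add hb, map_add _ _ _⟩
  zero_mem' := ⟨0, MeromorphicAt.const 0 0, map_zero _⟩
  neg_mem' := by
    rintro _ ⟨a, ha, rfl⟩
    exact ⟨-a, ha.neg, map_neg _ _⟩

theorem mem_MG {g : Gm} : g ∈ MG ↔ ∃ ρ : ℂ → ℂ, MeromorphicAt ρ 0 ∧ gm ρ = g := Iff.rfl

theorem MG_isField : IsField MG := by
  refine ⟨⟨0, 1, ?_⟩, mul_comm, ?_⟩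
  · intro h
    have h1 : (0 : Gm) = 1 := congrArg Subtype.val h
    rw [← map_zero gm, ← map_one gm, gm_eq] at h1
    obtain ⟨w, hw⟩ := h1.exists
    exact zero_ne_one hw
  · rintro ⟨a, ρ, hρ, rfl⟩ ha
    have hn : Nz ρ := by
      intro h0
      apply ha
      exact Subtype.ext (gm_eq_zero.mpr h0)
    refine ⟨⟨gm ρ⁻¹, ρ⁻¹, hρ.inv, rfl⟩, ?_⟩
    apply Subtype.ext
    change gm ρ * gm ρ⁻¹ = 1
    rw [← map_mul, ← map_one gm, gm_eq]
    filter_upwards [mero_ne hρ hn] with w hw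
    simp only [Pi.mul_apply, Pi.inv_apply, Pi.one_apply]
    exact mul_inv_cancel₀ hw

noncomputable instance : Field MG := MG_isField.toField

theorem exists_functional (W : Submodule MG Gm) (x : Gm) (hx : x ∉ W) :
    ∃ l : Gm →ₗ[MG] MG, l x ≠ 0 ∧ ∀ y ∈ W, l y = 0 := by
  obtain ⟨φ, h1, h2⟩ := Submodule.exists_le_ker_of_notMem hx
  exact ⟨φ, h1, fun y hy => h2 hy⟩

end Pool.Agent.W603.BP
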