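import Pool.Agent.W603.BP.Extn
import Pool.Agent.H159R3.GGL.LogSpecial

/-!
Holomorphic maps from the punctured disc to quasi-projective varieties given, up to units, by few
monomials that are high powers.
-/

set_option autoImplicit false

namespace Pool.Agent.W603.BP

open MvPolynomial Filter Metric Topology Pool.Agent.H159R3.GGLLog Pool.Agent.H159R3.NV

variable {n : ℕ} {ι : Type} (U : Set (Fin (n + 1)))

/-- `f` is the vector of homogeneous coordinates of a holomorphic map from the punctured disc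
to `X`. -/
def PCurve (F : ι → MvPolynomial (Fin (n + 1)) ℂ) (f : ℂ → Fin (n + 1) → ℂ) : Prop :=
  DifferentiableOn ℂ f (ball 0 1 \ {0}) ∧ ∀ z ∈ ball (0 : ℂ) 1 \ {0}, f z ∈ Pts U F

/-- `X` is pseudo-Picard hyperbolic: all holomorphic maps from the punctured disc to `X` whose image
is not contained in a certain hypersurface that does not contain `X` extend to the disc. -/
def PseudoPicard (F : ι → MvPolynomial (Fin (n + 1)) ℂ) : Prop :=
  ∃ G : MvPolynomial (Fin (n + 1)) ℂ, (∃ d, G.IsHomogeneous d) ∧ (∃ x ∈ Pts U F, eval x G ≠ 0) ∧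
    ∀ f, PCurve U F f → (∃ z ∈ ball (0 : ℂ) 1 \ {0}, eval (f z) G ≠ 0) → Extends f

/-- The Zariski closure in `X` of the union of the images of all holomorphic maps from the punctured
disc to `X` with an essential singularity. -/
def SpP (F : ι → MvPolynomial (Fin (n + 1)) ℂ) : Set (Fin (n + 1) → ℂ) :=
  {x | x ∈ Pts U F ∧ ∀ G : MvPolynomial (Fin (n + 1)) ℂ, (∃ d, G.IsHomogeneous d) →
    (∀ f, PCurve U F f → ¬ Extends f → ∀ z ∈ ball (0 : ℂ) 1 \ {0}, eval (f z) G = 0) →
      eval x G = 0}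

variable {U}

theorem disc_open : IsOpen (ball (0 : ℂ) 1 \ {0}) := isOpen_ball.sdiff isClosed_singleton

theorem PCurve.an {F : ι → MvPolynomial (Fin (n + 1)) ℂ} {f : ℂ → Fin (n + 1) → ℂ}
    (hf : PCurve U F f) (j : Fin (n + 1)) : AnalyticOnNhd ℂ (fun w => f w j) (PB 1) := by
  intro w hw
  have h1 : DifferentiableOn ℂ (fun w => f w j) (ball 0 1 \ {0}) := by
    intro z hz
    exact (differentiableWithinAt_pi.mp (hf.1 z hz)) j
  exact h1.analyticAt (disc_open.mem_nhds (mem_disc.mpr hw))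

/-- A holomorphic map from the punctured disc with an essential singularity yields a one-parameter
group. -/
theorem pcurve (F : ι → MvPolynomial (Fin (n + 1)) ℂ) (hC : ∀ i, PowerSparse U (F i))
    (f : ℂ → Fin (n + 1) → ℂ) (hf : PCurve U F f) (hE : ¬ Extends f) :
    ∃ (b : Fin (n + 1) → ℤ) (j k : Fin (n + 1)), Nz (fun w => f w j) ∧ Nz (fun w => f w k) ∧
      b j ≠ b k ∧ ∀ i (v : ℤ), ∀ z ∈ PB 1, eval (f z) (sub (F i)
        ((F i).support.filter (fun α => ∑ j, (α j : ℤ) * b j = v))) = 0 := by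
  classical
  have hfa := hf.an
  have hP : ∀ j, Pun (fun w => f w j) := fun j => on_pun one_pos (hfa j)
  have hX : ∀ w ∈ PB 1, f w ∈ Pts U F := fun w hw => hf.2 w (mem_disc.mpr hw)
  let φ : Fin (n + 1) → ℂ → ℂ := fun j w => f w j
  obtain ⟨j, k, hj, hk, hjk⟩ : ∃ j k, Nz (φ j) ∧ Nz (φ k) ∧
      (Pi.single j 1 - Pi.single k 1 : Fin (n + 1) → ℤ) ∉ Mon φ := by
    by_contra hcon
    apply hE
    apply extends_of f hfa (fun w hw => (hX w hw).1)
    intro j k hj hk
    apply MRel_of_Mon (f := φ) hP j k hj hk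
    by_contra hn
    exact hcon ⟨j, k, hj, hk, hn⟩
  obtain ⟨b, hb1, hb2⟩ := exists_form (Mon φ) (Mon_sat φ hP) _ hjk
  refine ⟨b, j, k, hj, hk, ?_, ?_⟩
  · intro h0
    apply hb2
    simp only [Pi.sub_apply, sub_mul, Finset.sum_sub_distrib, Pi.single_apply, ite_mul, one_mul,
      zero_mul, Finset.sum_ite_eq', Finset.mem_univ, if_true]
    rw [h0, sub_self]
  intro i v
  obtain ⟨N, hN0, hNc, hdiv⟩ := hC i
  let e : (Fin (n + 1) →₀ ℕ) → ℂ → ℂ := fun α w =>
    if α ∈ (F i).support then ∏ j, f w j ^ α j else 0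
  have he1 : ∀ α ∈ (F i).support, ∀ w, e α w = ∏ j, f w j ^ α j := fun α hα w => if_pos hα
  have he2 : ∀ α, α ∉ (F i).support → ∀ w, e α w = 0 := fun α hα w => if_neg hα
  have heP : ∀ α, Pun (e α) := by
    intro α
    by_cases hα : α ∈ (F i).support
    · have : e α = fun w => ∏ j, f w j ^ α j := funext (he1 α hα)
      rw [this]
      exact Pun.prod _ fun j _ => (hP j).pow _
    · have : e α = fun _ => 0 := funext (he2 α hα)
      rw [this]
      exact Pun.const 0
  have heR : ∀ α, ∃ g : ℂ → ℂ, Pun g ∧ ∀ᶠ t in 𝓝[≠] (0 : ℂ), g t ^ N = e α (t ^ N) := by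
    intro α
    by_cases hα : α ∈ (F i).support
    · have hroot : ∀ j, ∃ r : ℂ → ℂ, Pun r ∧ (j ∈ U → ∀ᶠ t in 𝓝[≠] (0 : ℂ),
          r t ^ N = f (t ^ N) j) := by
        intro j
        by_cases hj : j ∈ U
        · obtain ⟨r, hr1, hr2⟩ := root (hP j) (by
            filter_upwards [PB_mem one_pos] with w hw
            exact (hX w hw).2.1 j hj) hN0
          exact ⟨r, hr1, fun _ => hr2⟩
        · exact ⟨fun _ => 0, Pun.const 0, fun h => absurd h hj⟩
      choose r hr1 hr2 using hroot
      refine ⟨fun t => ∏ j, if j ∈ U then r j t ^ α j else f (t ^ N) j ^ (α j / N), ?_, ?_⟩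
      · apply Pun.prod
        intro j _
        by_cases hj : j ∈ U
        · simp only [hj, if_true]
          exact (hr1 j).pow _
        · simp only [hj, if_false]
          exact ((hP j).comp_pow hN0).pow _
      · have hall : ∀ᶠ t in 𝓝[≠] (0 : ℂ), ∀ j, j ∈ U → r j t ^ N = f (t ^ N) j := by
          rw [Filter.eventually_all]
          intro j
          by_cases hj : j ∈ U
          · filter_upwards [hr2 j hj] with t ht _
            exact ht
          · exact Eventually.of_forall fun t h => absurd h hj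
        filter_upwards [hall] with t ht
        rw [he1 α hα, ← Finset.prod_pow]
        refine Finset.prod_congr rfl fun j _ => ?_
        by_cases hj : j ∈ U
        · simp only [hj, if_true]
          rw [← pow_mul, mul_comm, pow_mul, ht j hj]
        · simp only [hj, if_false]
          rw [← pow_mul, Nat.div_mul_cancel (hdiv α hα j hj)]
    · exact ⟨fun _ => 0, Pun.const 0, Eventually.of_forall fun t => by
        rw [he2 α hα, zero_pow hN0.ne']⟩
  have hcol : ∀ α β, Nz (e α) → Nz (e β) → Gr (e α) (e β) →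
      ∑ j, (α j : ℤ) * b j = ∑ j, (β j : ℤ) * b j := by
    intro α β hα hβ hg
    have mα : α ∈ (F i).support := by
      by_contra h0
      exact hα (Eventually.of_forall (he2 α h0))
    have mβ : β ∈ (F i).support := by
      by_contra h0
      exact hβ (Eventually.of_forall (he2 β h0))
    have eα : e α = fun w => ∏ j, φ j w ^ α j := funext (he1 α mα)
    have eβ : e β = fun w => ∏ j, φ j w ^ β j := funext (he1 β mβ)
    rw [eα] at hα hg
    rw [eβ] at hβ hg
    have h1 := hb1 _ (Mon_of_gr (f := φ) hP (fun j => α j) (fun j => β j) hα hβ hg)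
    simp only [sub_mul, Finset.sum_sub_distrib] at h1
    linarith
  have hmain := color_sums hN0 e heP heR (fun α => ∑ j, (α j : ℤ) * b j) hcol (F i).support hNc
    (fun α _ => (F i).coeff α) (fun α => MeromorphicAt.const _ 0) (by
      filter_upwards [PB_mem one_pos] with w hw
      have h1 := (hX w hw).2.2 i
      rw [eval_eq'] at h1
      rw [← h1]
      exact Finset.sum_congr rfl fun α hα => by rw [he1 α hα]) v
  have han : AnalyticOnNhd ℂ (fun z => eval (f z) (sub (F i)
        ((F i).support.filter (fun α => ∑ j, (α j : ℤ) * b j = v)))) (PB 1) := by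
    intro w hw
    simp only [eval_sub']
    apply Finset.analyticAt_fun_sum
    intro α _
    apply AnalyticAt.fun_mul analyticAt_const
    apply Finset.analyticAt_fun_prod
    intro j _
    exact (hfa j w hw).fun_pow _
  apply eq_zero_on one_pos han
  filter_upwards [hmain] with w hw
  rw [eval_sub', ← hw]
  exact Finset.sum_congr rfl fun α hα => by rw [he1 α (Finset.mem_filter.mp hα).1]

/-- a point where finitely many functions do not vanish -/
theorem good_point {κ : Type} [Fintype κ] (g : κ → ℂ → ℂ) (hg : ∀ a, AnalyticOnNhd ℂ (g a) (PB 1))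
    (hn : ∀ a, Nz (g a)) : ∃ z ∈ PB 1, ∀ a, g a z ≠ 0 := by
  obtain ⟨z, hz, hz2⟩ := nz_on one_pos (Nz.prod Finset.univ (f := g)
    (fun a _ => on_pun one_pos (hg a)) (fun a _ => hn a))
  exact ⟨z, hz, fun a => Finset.prod_ne_zero_iff.mp hz2 a (Finset.mem_univ a)⟩

theorem nz_of_on {g : ℂ → ℂ} (hg : AnalyticOnNhd ℂ g (PB 1)) {z : ℂ} (hz : z ∈ PB 1)
    (h : g z ≠ 0) : Nz g := fun h0 => h (eq_zero_on one_pos hg h0 z hz)

theorem eval_an {f : ℂ → Fin (n + 1) → ℂ} (hfa : ∀ j, AnalyticOnNhd ℂ (fun w => f w j) (PB 1))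
    (G : MvPolynomial (Fin (n + 1)) ℂ) : AnalyticOnNhd ℂ (fun z => eval (f z) G) (PB 1) := by
  intro w hw
  simp only [eval_eq']
  apply Finset.analyticAt_fun_sum
  intro α _
  apply AnalyticAt.fun_mul analyticAt_const
  apply Finset.analyticAt_fun_prod
  intro j _
  exact (hfa j w hw).fun_pow _

theorem orbit_mem {F : ι → MvPolynomial (Fin (n + 1)) ℂ} {x : Fin (n + 1) → ℂ} (hx : x ∈ Pts U F)
    {b : Fin (n + 1) → ℤ} (hs : ∀ i (v : ℤ), eval x (sub (F i)
      ((F i).support.filter (fun α => ∑ j, (α j : ℤ) * b j = v))) = 0) {t : ℂ} (ht : t ≠ 0) :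
    (fun j => x j * t ^ b j) ∈ Pts U F := by
  refine ⟨?_, ?_, ?_⟩
  · obtain ⟨l, hl⟩ := Function.ne_iff.mp hx.1
    exact Function.ne_iff.mpr ⟨l, mul_ne_zero hl (zpow_ne_zero _ ht)⟩
  · exact fun j hj => mul_ne_zero (hx.2.1 j hj) (zpow_ne_zero _ ht)
  · intro i
    exact Pool.Agent.H159R3.BLV.eval_laurent_zero (RingHom.id ℂ) (F i) x b t ht (fun v => by
      rw [← hs i v, eval_sub']
      rfl)

theorem two_pow_inj {a b : ℤ} (h : (2 : ℂ) ^ a = 2 ^ b) : a = b := by
  have h1 : (2 : ℝ) ^ a = 2 ^ b := by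
    have := congrArg norm h
    rw [norm_zpow, norm_zpow] at this
    simpa using this
  exact zpow_right_injective₀ (by norm_num) (by norm_num) h1

/-- an entire curve composed with `sin (1 / w)` has an essential singularity -/
theorem sin_curve {F : ι → MvPolynomial (Fin (n + 1)) ℂ} {f : ℂ → Fin (n + 1) → ℂ}
    (hf : EntireCurve U F f) : PCurve U F (fun w => f (Complex.sin w⁻¹)) ∧
      ¬ Extends (fun w => f (Complex.sin w⁻¹)) := by
  obtain ⟨hf1, hf2, s, t, hst⟩ := hf
  refine ⟨⟨?_, fun z _ => hf2 _⟩, ?_⟩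
  · intro z hz
    have hz0 : z ≠ 0 := hz.2
    exact ((hf1 _).comp z ((Complex.differentiable_sin _).comp z
      (differentiableAt_inv hz0))).differentiableWithinAt
  · rintro ⟨g, hg1, hg2, hg3⟩
    have h0 : (0 : ℂ) ∈ ball (0 : ℂ) 1 := mem_ball_self one_pos
    have hcont : ContinuousAt g 0 := (hg1.differentiableAt (isOpen_ball.mem_nhds h0)).continuousAt
    -- the value at the puncture
    have key : ∀ s : ℂ, ∃ c : ℂ, g 0 = c • f s := by
      intro s
      obtain ⟨ζ, hζ⟩ := Complex.sin_surjective s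
      let w : ℕ → ℂ := fun k => (ζ + k * (2 * Real.pi))⁻¹
      have hinf : Tendsto (fun k : ℕ => ‖ζ + k * (2 * (Real.pi : ℂ))‖) atTop atTop := by
        have h1 : Tendsto (fun k : ℕ => (k : ℝ) * (2 * Real.pi) - ‖ζ‖) atTop atTop := by
          apply tendsto_atTop_add_const_right
          exact tendsto_natCast_atTop_atTop.atTop_mul_const (by positivity)
        apply tendsto_atTop_mono _ h1
        intro k
        have h2 : ‖(k : ℂ) * (2 * (Real.pi : ℂ))‖ = k * (2 * Real.pi) := by
          rw [norm_mul, norm_mul, Complex.norm_natCast, Complex.norm_real,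
            Real.norm_of_nonneg Real.pi_pos.le]
          simp
        have h3 := norm_sub_norm_le ((k : ℂ) * (2 * (Real.pi : ℂ))) (-ζ)
        rw [norm_neg, sub_neg_eq_add, add_comm ((k : ℂ) * (2 * (Real.pi : ℂ))) ζ] at h3
        linarith
      have hw0 : Tendsto w atTop (𝓝 0) := by
        rw [tendsto_zero_iff_norm_tendsto_zero]
        have : (fun k => ‖w k‖) = fun k : ℕ => ‖ζ + k * (2 * (Real.pi : ℂ))‖⁻¹ := by
          funext k
          simp only [w, norm_inv]
        rw [this]
        exact hinf.inv_tendsto_atTop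
      have hsin : ∀ k : ℕ, Complex.sin (w k)⁻¹ = s := by
        intro k
        simp only [w, inv_inv]
        rw [Complex.sin_add_nat_mul_two_pi, hζ]
      have hev : ∀ᶠ k in atTop, w k ∈ ball (0 : ℂ) 1 \ {0} := by
        have h1 := hw0.eventually (isOpen_ball.mem_nhds h0)
        have h2 := hinf.eventually_gt_atTop 0
        filter_upwards [h1, h2] with k hk1 hk2
        refine ⟨hk1, ?_⟩
        intro h3
        have h4 : (ζ + k * (2 * (Real.pi : ℂ)))⁻¹ = 0 := h3
        rw [inv_eq_zero] at h4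
        rw [h4, norm_zero] at hk2
        exact lt_irrefl _ hk2
      have hmem : ∀ᶠ k in atTop, g (w k) ∈ (Submodule.span ℂ {f s} : Set (Fin (n + 1) → ℂ)) := by
        filter_upwards [hev] with k hk
        obtain ⟨c, hc⟩ := hg3 _ hk
        simp only [hsin] at hc
        have hc0 : c ≠ 0 := by
          intro h4
          rw [h4, zero_smul] at hc
          exact (hf2 s).1 hc
        change g (w k) ∈ Submodule.span ℂ {f s}
        rw [Submodule.mem_span_singleton]
        exact ⟨c⁻¹, by rw [hc, smul_smul, inv_mul_cancel₀ hc0, one_smul]⟩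
      have hcl : IsClosed (Submodule.span ℂ {f s} : Set (Fin (n + 1) → ℂ)) :=
        Submodule.closed_of_finiteDimensional _
      have hlim := hcl.mem_of_tendsto (hcont.tendsto.comp hw0) hmem
      have hlim' : g 0 ∈ Submodule.span ℂ {f s} := hlim
      rw [Submodule.mem_span_singleton] at hlim'
      obtain ⟨c, hc⟩ := hlim'
      exact ⟨c, hc.symm⟩
    obtain ⟨c, hc⟩ := key s
    obtain ⟨c', hc'⟩ := key t
    have hc0 : c ≠ 0 := by
      intro h4
      rw [h4, zero_smul] at hc
      exact hg2 0 h0 hc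
    apply hst (c⁻¹ * c')
    rw [mul_smul, ← hc', hc, smul_smul, inv_mul_cancel₀ hc0, one_smul]

/-- `sin (1 / w)` takes all values in the punctured disc -/
theorem sin_point (z : ℂ) : ∃ w ∈ ball (0 : ℂ) 1 \ {0}, Complex.sin w⁻¹ = z := by
  obtain ⟨ζ, hζ⟩ := Complex.sin_surjective z
  obtain ⟨k, hk⟩ := exists_nat_gt (‖ζ‖ + 1)
  have h2 : ‖(k : ℂ) * (2 * (Real.pi : ℂ))‖ = k * (2 * Real.pi) := by
    rw [norm_mul, norm_mul, Complex.norm_natCast, Complex.norm_real,
      Real.norm_of_nonneg Real.pi_pos.le]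
    simp
  have h3 := norm_sub_norm_le ((k : ℂ) * (2 * (Real.pi : ℂ))) (-ζ)
  rw [norm_neg, sub_neg_eq_add, add_comm ((k : ℂ) * (2 * (Real.pi : ℂ))) ζ, h2] at h3
  have h4 : (k : ℝ) ≤ k * (2 * Real.pi) := by
    apply le_mul_of_one_le_right (Nat.cast_nonneg k)
    have := Real.pi_gt_three
    linarith
  have h5 : 1 < ‖ζ + k * (2 * (Real.pi : ℂ))‖ := by linarith
  have h6 : ζ + k * (2 * (Real.pi : ℂ)) ≠ 0 := by
    intro h0
    rw [h0, norm_zero] at h5
    linarith
  refine ⟨(ζ + k * (2 * (Real.pi : ℂ)))⁻¹, ⟨?_, inv_ne_zero h6⟩, ?_⟩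
  · rw [mem_ball, dist_zero_right, norm_inv]
    exact inv_lt_one_of_one_lt₀ h5
  · rw [inv_inv, Complex.sin_add_nat_mul_two_pi, hζ]

end Pool.Agent.W603.BP
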