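import Pool.Agent.W603.BP.MFun

/-!
The ring of germs of functions that are analytic on punctured neighbourhoods of the origin.
-/

set_option autoImplicit false

namespace Pool.Agent.W603.BPR

open Filter Topology MvPolynomial Pool.Agent.W603.BP

/-- germs of functions that are analytic on punctured neighbourhoods of the origin -/
noncomputable def An : Subring Gm where
  carrier := {g | ∃ f : ℂ → ℂ, Pun f ∧ gm f = g}
  mul_mem' := by
    rintro _ _ ⟨a, ha, rfl⟩ ⟨b, hb, rfl⟩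
    exact ⟨fun w => a w * b w, ha.mul hb, gm_mul a b⟩
  one_mem' := ⟨1, Pun.const 1, map_one _⟩
  add_mem' := by
    rintro _ _ ⟨a, ha, rfl⟩ ⟨b, hb, rfl⟩
    refine ⟨fun w => a w + b w, ?_, gm_add a b⟩
    filter_upwards [ha, hb] with w h1 h2
    exact h1.fun_add h2
  zero_mem' := ⟨0, Pun.const 0, map_zero _⟩
  neg_mem' := by
    rintro _ ⟨a, ha, rfl⟩
    refine ⟨-a, ?_, map_neg _ _⟩
    filter_upwards [ha] with w h1
    exact h1.neg

/-- the germ of an analytic function -/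
noncomputable def an (f : ℂ → ℂ) (hf : Pun f) : An := ⟨gm f, f, hf, rfl⟩

theorem an_eq {f g : ℂ → ℂ} (hf : Pun f) (hg : Pun g) :
    an f hf = an g hg ↔ ∀ᶠ w in 𝓝[≠] (0 : ℂ), f w = g w := by
  rw [← gm_eq]
  exact Subtype.ext_iff

theorem an_zero {f : ℂ → ℂ} (hf : Pun f) : an f hf = 0 ↔ ∀ᶠ w in 𝓝[≠] (0 : ℂ), f w = 0 := by
  rw [← gm_eq_zero]
  exact Subtype.ext_iff

theorem an_mul {f g : ℂ → ℂ} (hf : Pun f) (hg : Pun g) :
    an (fun w => f w * g w) (hf.mul hg) = an f hf * an g hg := Subtype.ext (gm_mul f g)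

theorem an_pow {f : ℂ → ℂ} (hf : Pun f) (N : ℕ) :
    an (fun w => f w ^ N) (hf.pow N) = an f hf ^ N := Subtype.ext (gm_pow f N)

theorem an_sum {ι : Type} (s : Finset ι) {f : ι → ℂ → ℂ} (hf : ∀ i, Pun (f i)) :
    an (fun w => ∑ i ∈ s, f i w) (Pun.sum s fun i _ => hf i) = ∑ i ∈ s, an (f i) (hf i) := by
  apply Subtype.ext
  rw [AddSubmonoidClass.coe_finset_sum]
  exact gm_sum s f

noncomputable instance : Nontrivial An := by
  refine ⟨⟨0, 1, fun h => ?_⟩⟩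
  have h1 : (0 : Gm) = 1 := congrArg Subtype.val h
  rw [← map_zero gm, ← map_one gm, gm_eq] at h1
  obtain ⟨w, hw⟩ := h1.exists
  exact zero_ne_one hw

instance : NoZeroDivisors An where
  eq_zero_or_eq_zero_of_mul_eq_zero := by
    rintro ⟨_, f, hf, rfl⟩ ⟨_, g, hg, rfl⟩ h
    have h1 : gm (fun w => f w * g w) = 0 := by
      rw [gm_mul]
      exact congrArg Subtype.val h
    rcases pun_mul_zero hf hg (gm_eq_zero.mp h1) with h2 | h2
    · left
      exact Subtype.ext (gm_eq_zero.mpr h2)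
    · right
      exact Subtype.ext (gm_eq_zero.mpr h2)

instance : IsDomain An := NoZeroDivisors.to_isDomain An

noncomputable instance : Algebra ℂ An := RingHom.toAlgebra
  { toFun := fun c => an (fun _ => c) (Pun.const c)
    map_one' := Subtype.ext (map_one gm)
    map_zero' := Subtype.ext (map_zero gm)
    map_mul' := fun a b => Subtype.ext (gm_mul (fun _ => a) (fun _ => b))
    map_add' := fun a b => Subtype.ext (gm_add (fun _ => a) (fun _ => b)) }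

theorem algebraMap_an (c : ℂ) : algebraMap ℂ An c = an (fun _ => c) (Pun.const c) := rfl

/-- the field of quotients -/
abbrev LL : Type := FractionRing An

/-- the embedding -/
noncomputable def toL : An →ₐ[ℂ] LL := IsScalarTower.toAlgHom ℂ An LL

theorem toL_inj : Function.Injective toL := IsFractionRing.injective An LL

theorem toL_zero {x : An} : toL x = 0 ↔ x = 0 :=
  ⟨fun h => toL_inj (by rw [h, map_zero]), fun h => by rw [h, map_zero]⟩

/-- the germs of meromorphic functions -/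
noncomputable def mer : Subalgebra ℂ LL where
  carrier := {x | ∃ (ρ : ℂ → ℂ) (h : MeromorphicAt ρ 0), x = toL (an ρ (Pun.mero h))}
  mul_mem' := by
    rintro _ _ ⟨a, ha, rfl⟩ ⟨b, hb, rfl⟩
    refine ⟨fun w => a w * b w, ha.fun_mul hb, ?_⟩
    rw [← map_mul]
    exact congrArg _ (Subtype.ext (gm_mul a b).symm)
  add_mem' := by
    rintro _ _ ⟨a, ha, rfl⟩ ⟨b, hb, rfl⟩
    refine ⟨fun w => a w + b w, ha.fun_add hb, ?_⟩
    rw [← map_add]
    exact congrArg _ (Subtype.ext (gm_add a b).symm)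
  algebraMap_mem' := by
    intro c
    refine ⟨fun _ => c, MeromorphicAt.const c 0, ?_⟩
    rw [← toL.commutes]
    rfl

theorem ratio_mem {e e' : ℂ → ℂ} (he : Pun e) (he' : Pun e') (hn : Nz e') (h : MRel e e') :
    toL (an e he) / toL (an e' he') ∈ mer := by
  obtain ⟨ρ, hρ, hρe⟩ := h
  refine ⟨ρ, hρ, ?_⟩
  have h0 : toL (an e' he') ≠ 0 := by
    intro h0
    exact hn ((an_zero he').mp (toL_zero.mp h0))
  rw [div_eq_iff h0, ← map_mul, ← an_mul]
  exact congrArg _ ((an_eq he _).mpr hρe)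

theorem root_bound {D : ℕ} (a : ℕ → ℂ) (x y : ℂ) (hD : a D ≠ 0)
    (h : ∑ d ∈ Finset.range (D + 1), a d * x ^ d * y ^ (D - d) = 0) (hpos : 0 < D) :
    ‖x‖ ≤ (1 + ∑ d ∈ Finset.range D, ‖a d / a D‖) * ‖y‖ := by
  have hS : 0 ≤ ∑ d ∈ Finset.range D, ‖a d / a D‖ := Finset.sum_nonneg fun _ _ => norm_nonneg _
  by_cases hxy : ‖x‖ ≤ ‖y‖
  · nlinarith [norm_nonneg y]
  push Not at hxy
  have hx : 0 < ‖x‖ := (norm_nonneg y).trans_lt hxy
  rw [Finset.sum_range_succ, Nat.sub_self, pow_zero, mul_one] at h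
  have h1 : x ^ D = -∑ d ∈ Finset.range D, (a d / a D) * x ^ d * y ^ (D - d) := by
    have h2 : a D * x ^ D = -∑ d ∈ Finset.range D, a d * x ^ d * y ^ (D - d) := by
      linear_combination h
    apply mul_left_cancel₀ hD
    rw [h2, mul_neg, Finset.mul_sum]
    congr 1
    refine Finset.sum_congr rfl fun d _ => ?_
    field_simp
  have h2 : ‖x‖ ^ D ≤ ∑ d ∈ Finset.range D, ‖a d / a D‖ * (‖x‖ ^ (D - 1) * ‖y‖) := by
    rw [← norm_pow, h1, norm_neg]
    refine (norm_sum_le _ _).trans (Finset.sum_le_sum fun d hd => ?_)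
    have hdD : d < D := Finset.mem_range.mp hd
    rw [norm_mul, norm_mul, norm_pow, norm_pow, mul_assoc]
    refine mul_le_mul_of_nonneg_left ?_ (norm_nonneg _)
    have e1 : D - d = (D - 1 - d) + 1 := by omega
    have e2 : D - 1 = d + (D - 1 - d) := by omega
    rw [e1, pow_succ, ← mul_assoc]
    refine mul_le_mul_of_nonneg_right ?_ (norm_nonneg _)
    conv_rhs => rw [e2, pow_add]
    exact mul_le_mul_of_nonneg_left (pow_le_pow_left₀ (norm_nonneg _) hxy.le _)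
      (pow_nonneg (norm_nonneg _) _)
  rw [← Finset.sum_mul] at h2
  have e3 : ‖x‖ ^ D = ‖x‖ ^ (D - 1) * ‖x‖ := by
    rw [← pow_succ]
    congr 1
    omega
  rw [e3] at h2
  have h3 : 0 < ‖x‖ ^ (D - 1) := pow_pos hx _
  have h4 : ‖x‖ ≤ (∑ d ∈ Finset.range D, ‖a d / a D‖) * ‖y‖ := by
    have h5 : ‖x‖ ^ (D - 1) * ‖x‖ ≤ ‖x‖ ^ (D - 1) * ((∑ d ∈ Finset.range D, ‖a d / a D‖) * ‖y‖) := by
      calc ‖x‖ ^ (D - 1) * ‖x‖ ≤ (∑ d ∈ Finset.range D, ‖a d / a D‖) * (‖x‖ ^ (D - 1) * ‖y‖) := h2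
        _ = _ := by ring
    exact le_of_mul_le_mul_left h5 h3
  nlinarith [norm_nonneg y]

theorem gr_of_alg {D : ℕ} (ρ : ℕ → ℂ → ℂ) (hρ : ∀ d, MeromorphicAt (ρ d) 0) (hD : Nz (ρ D))
    (x y : ℂ → ℂ) (hx : ∀ᶠ w in 𝓝[≠] (0 : ℂ),
      ∑ d ∈ Finset.range (D + 1), ρ d w * x w ^ d * y w ^ (D - d) = 0) : Gr x y := by
  have hρD := mero_ne (hρ D) hD
  by_cases hD0 : D = 0
  · exfalso
    subst hD0
    obtain ⟨w, h1, h2⟩ := (hx.and hρD).exists
    simp only [zero_add, Finset.sum_range_one, pow_zero, mul_one, Nat.sub_self] at h1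
    exact h2 h1
  have hG : ∀ d, ∃ (C : ℝ) (K : ℕ), ∀ᶠ w in 𝓝[≠] (0 : ℂ), ‖ρ d w / ρ D w‖ * ‖w‖ ^ K ≤ C := by
    intro d
    have h1 : MRel (fun w => ρ d w / ρ D w) (fun _ => 1) :=
      ⟨fun w => ρ d w / ρ D w, (hρ d).fun_div (hρ D), Eventually.of_forall fun w => (mul_one _).symm⟩
    obtain ⟨C, K, h⟩ := h1.gr
    refine ⟨C, K, ?_⟩
    filter_upwards [h] with w hw
    rwa [norm_one, mul_one] at hw
  choose C K hCK using hG
  have hall : ∀ᶠ w in 𝓝[≠] (0 : ℂ), ∀ d ∈ Finset.range D, ‖ρ d w / ρ D w‖ * ‖w‖ ^ K d ≤ C d :=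
    (Filter.eventually_all_finset _).mpr fun d _ => hCK d
  set KK : ℕ := ∑ d ∈ Finset.range D, K d with hKK
  refine ⟨1 + ∑ d ∈ Finset.range D, C d, KK, ?_⟩
  filter_upwards [hx, hρD, hall, PB_mem one_pos] with w h1 h2 h3 h4
  have hw1 : ‖w‖ ≤ 1 := h4.2.le
  have h5 := root_bound (fun d => ρ d w) (x w) (y w) h2 h1 (Nat.pos_of_ne_zero hD0)
  have h6 : (1 + ∑ d ∈ Finset.range D, ‖ρ d w / ρ D w‖) * ‖w‖ ^ KK ≤
      1 + ∑ d ∈ Finset.range D, C d := by
    rw [add_mul, one_mul, Finset.sum_mul]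
    refine add_le_add (pow_le_one₀ (norm_nonneg _) hw1) (Finset.sum_le_sum fun d hd => ?_)
    have h7 : ‖w‖ ^ KK ≤ ‖w‖ ^ K d := pow_le_pow_of_le_one (norm_nonneg _) hw1
      (Finset.single_le_sum (f := K) (fun _ _ => Nat.zero_le _) hd)
    exact (mul_le_mul_of_nonneg_left h7 (norm_nonneg _)).trans (h3 d hd)
  calc ‖x w‖ * ‖w‖ ^ KK
      ≤ ((1 + ∑ d ∈ Finset.range D, ‖ρ d w / ρ D w‖) * ‖y w‖) * ‖w‖ ^ KK :=
        mul_le_mul_of_nonneg_right h5 (pow_nonneg (norm_nonneg _) _)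
    _ = ((1 + ∑ d ∈ Finset.range D, ‖ρ d w / ρ D w‖) * ‖w‖ ^ KK) * ‖y w‖ := by ring
    _ ≤ _ := mul_le_mul_of_nonneg_right h6 (norm_nonneg _)

end Pool.Agent.W603.BPR
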