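import Pool.Agent.W603.PV.Abs

/-! Rigid systems of generalised unit equations over a subfield: the algebraic part. -/

set_option autoImplicit false

open MvPolynomial Pool.Agent.W603.LV Pool.Agent.W603.PV

namespace Pool.Agent.W603.BPR

universe v w z a b

variable {F : Type b} [Field F] {A : Type v} [CommRing A] [IsDomain A]
  [Algebra F A] {I : Type z} {s : I → ℕ}

theorem aeval_mem {L : Type w} [Field L] [Algebra F L] {ρ : Type*} (K : Subalgebra F L) {r : ρ → L}
    (hr : ∀ p, r p ∈ K) (c : MvPolynomial ρ F) : aeval r c ∈ K := by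
  induction c using MvPolynomial.induction_on with
  | C a => rw [aeval_C]; exact K.algebraMap_mem a
  | add p q hp hq => rw [map_add]; exact K.add_mem hp hq
  | mul_X p j hp => rw [map_mul, aeval_X]; exact K.mul_mem hp (hr j)

theorem core_alg [Finite I]
    (t : (i : I) → Fin (s i) → A) {J : Type a} [Finite J] (num den : J → A)
    (hden : ∀ j, den j ≠ 0)
    (hrig : ∀ R : (i : I) → Fin (s i) → Fin (s i) → Prop, (∀ i, Equivalence (R i)) →
      (∀ i a, ∑ b ∈ (by classical exact Finset.univ.filter (R i a)), t i b = 0) → ∀ j,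
        IsAlgebraic (IntermediateField.adjoin F (ratios t R))
          (algebraMap A (FractionRing A) (num j) / algebraMap A (FractionRing A) (den j))) :
    ∃ g : A, g ≠ 0 ∧ (∀ i a, t i a ≠ 0 → t i a ∣ g) ∧ ∀ (L : Type w) [Field L]
      [Algebra F L] (K : Subalgebra F L) (θ : A →ₐ[F] L), θ g ≠ 0 →
      (∀ i, ∃ R : {a : Fin (s i) // t i a ≠ 0} → {a : Fin (s i) // t i a ≠ 0} → Prop,
        Equivalence R ∧ (∀ a b, R a b → θ (t i a) / θ (t i b) ∈ K) ∧
        ∀ (a0 : {a : Fin (s i) // t i a ≠ 0}) (B : Finset {a : Fin (s i) // t i a ≠ 0}),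
          (∀ a, a ∈ B ↔ R a0 a) → ∑ a ∈ B, θ (t i a) = 0) →
      ∀ j, θ (den j) ≠ 0 ∧ ∃ (D : ℕ) (m : ℕ → L), (∀ d, m d ∈ K) ∧ m D ≠ 0 ∧
        ∑ d ∈ Finset.range (D + 1), m d * (θ (num j) / θ (den j)) ^ d = 0 := by
  classical
  have := Fintype.ofFinite I
  have := Fintype.ofFinite J
  -- admissible partitions
  let adm : ((i : I) → Fin (s i) → Fin (s i) → Prop) → Prop := fun R =>
    (∀ i, Equivalence (R i)) ∧ ∀ i a, ∑ b ∈ Finset.univ.filter (R i a), t i b = 0
  have key : ∀ (R : (i : I) → Fin (s i) → Fin (s i) → Prop) (j : J),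
      ∃ (D : ℕ) (c : ℕ → MvPolynomial (Idx s) F) (nm dn : A), nm ≠ 0 ∧ (adm R →
        aeval (rat t R) (c D) * algebraMap A (FractionRing A) dn =
          algebraMap A (FractionRing A) nm ∧
        ∑ d ∈ Finset.range (D + 1), aeval (rat t R) (c d) *
          (algebraMap A (FractionRing A) (num j) / algebraMap A (FractionRing A) (den j)) ^ d
            = 0) := by
    intro R j
    by_cases hR : adm R
    · have h1 := hrig R hR.1 (by
        intro i a
        refine Eq.trans ?_ (hR.2 i a)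
        refine Finset.sum_congr ?_ fun _ _ => rfl
        ext b
        simp only [Finset.mem_filter, Finset.mem_univ, true_and]) j
      rw [← adjoin_rat] at h1
      obtain ⟨D, c, hc, hc'⟩ := exists_rel' (rat t R) _ h1
      obtain ⟨nm, dn, hdn, hnd⟩ := IsFractionRing.div_surjective (A := A)
        (aeval (rat t R) (c D))
      have hdn0 : algebraMap A (FractionRing A) dn ≠ 0 := by
        intro h0
        have h2 : dn = 0 := IsFractionRing.injective A (FractionRing A) (by rw [h0, map_zero])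
        rw [h2] at hdn
        exact zero_notMem_nonZeroDivisors hdn
      refine ⟨D, c, nm, dn, ?_, fun _ => ⟨?_, hc'⟩⟩
      · rintro rfl
        rw [map_zero, zero_div] at hnd
        exact hc hnd.symm
      · rw [← hnd]; field_simp
    · exact ⟨0, fun _ => 0, 1, 1, one_ne_zero, fun h => absurd h hR⟩
  choose D c nm dn hnm hkey using key
  have hRfin : Finite ((i : I) → Fin (s i) → Fin (s i) → Prop) := inferInstance
  have := Fintype.ofFinite ((i : I) → Fin (s i) → Fin (s i) → Prop)
  -- the exceptional set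
  set g1 : A := ∏ i, ∏ a, (if t i a = 0 then 1 else t i a) with hg1
  set g2 : A := ∏ i, ∏ B : Finset (Fin (s i)), (if ∑ b ∈ B, t i b = 0 then 1 else ∑ b ∈ B, t i b)
    with hg2
  set g3 : A := ∏ R, ∏ j, nm R j with hg3
  set g4 : A := ∏ j, den j with hg4
  refine ⟨g1 * g2 * g3 * g4, ?_, ?_, ?_⟩
  · refine mul_ne_zero (mul_ne_zero (mul_ne_zero ?_ ?_) ?_) ?_
    · refine Finset.prod_ne_zero_iff.2 fun i _ => Finset.prod_ne_zero_iff.2 fun a _ => ?_
      split_ifs with h
      · exact one_ne_zero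
      · exact h
    · refine Finset.prod_ne_zero_iff.2 fun i _ => Finset.prod_ne_zero_iff.2 fun B _ => ?_
      split_ifs with h
      · exact one_ne_zero
      · exact h
    · exact Finset.prod_ne_zero_iff.2 fun R _ => Finset.prod_ne_zero_iff.2 fun j _ => hnm R j
    · exact Finset.prod_ne_zero_iff.2 fun j _ => hden j
  · intro i a ha
    have h1 : (if t i a = 0 then 1 else t i a) ∣ g1 :=
      (Finset.dvd_prod_of_mem (fun a => if t i a = 0 then 1 else t i a)
        (Finset.mem_univ a)).trans (Finset.dvd_prod_of_mem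
        (fun i => ∏ a, (if t i a = 0 then 1 else t i a)) (Finset.mem_univ i))
    rw [if_neg ha] at h1
    exact ((h1.mul_right _).mul_right _).mul_right _
  intro L _ _ K θ hθg hblk
  rw [map_mul, map_mul, map_mul] at hθg
  have hθg4 : θ g4 ≠ 0 := right_ne_zero_of_mul hθg
  have hθg3 : θ g3 ≠ 0 := right_ne_zero_of_mul (left_ne_zero_of_mul hθg)
  have hθg2 : θ g2 ≠ 0 := right_ne_zero_of_mul (left_ne_zero_of_mul (left_ne_zero_of_mul hθg))
  have hθg1 : θ g1 ≠ 0 := left_ne_zero_of_mul (left_ne_zero_of_mul (left_ne_zero_of_mul hθg))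
  have hθt : ∀ i a, t i a ≠ 0 → θ (t i a) ≠ 0 := by
    intro i a ha h0
    apply hθg1
    rw [hg1, map_prod]
    apply Finset.prod_eq_zero (Finset.mem_univ i)
    rw [map_prod]
    apply Finset.prod_eq_zero (Finset.mem_univ a)
    rw [if_neg ha, h0]
  have hθsum : ∀ i (B : Finset (Fin (s i))), θ (∑ b ∈ B, t i b) = 0 → ∑ b ∈ B, t i b = 0 := by
    intro i B h0
    by_contra hne
    apply hθg2
    rw [hg2, map_prod]
    apply Finset.prod_eq_zero (Finset.mem_univ i)
    rw [map_prod]
    apply Finset.prod_eq_zero (Finset.mem_univ B)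
    rw [if_neg hne, h0]
  have hθnum : ∀ R j, θ (nm R j) ≠ 0 := by
    intro R j h0
    apply hθg3
    rw [hg3, map_prod]
    apply Finset.prod_eq_zero (Finset.mem_univ R)
    rw [map_prod]
    exact Finset.prod_eq_zero (Finset.mem_univ j) h0
  have hθden : ∀ j, θ (den j) ≠ 0 := by
    intro j h0
    apply hθg4
    rw [hg4, map_prod]
    exact Finset.prod_eq_zero (Finset.mem_univ j) h0
  choose R0 hR0e hR0h hR0s using hblk
  obtain ⟨R, hRiff⟩ : ∃ R : (i : I) → Fin (s i) → Fin (s i) → Prop, ∀ i a b, R i a b ↔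
      (a = b ∨ ∃ (ha : t i a ≠ 0) (hb : t i b ≠ 0), R0 i ⟨a, ha⟩ ⟨b, hb⟩) :=
    ⟨fun i a b => a = b ∨ ∃ (ha : t i a ≠ 0) (hb : t i b ≠ 0), R0 i ⟨a, ha⟩ ⟨b, hb⟩,
      fun _ _ _ => Iff.rfl⟩
  have hRadm : adm R := by
    refine ⟨fun i => ⟨fun a => (hRiff i a a).2 (Or.inl rfl), ?_, ?_⟩, fun i a => ?_⟩
    · intro a b hab
      rw [hRiff] at hab ⊢
      rcases hab with rfl | ⟨ha, hb, h⟩
      · exact Or.inl rfl
      · exact Or.inr ⟨hb, ha, (hR0e i).symm h⟩
    · intro a b c hab hbc
      rw [hRiff] at hab hbc ⊢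
      rcases hab with rfl | ⟨ha, hb, h⟩
      · exact hbc
      · rcases hbc with rfl | ⟨hb', hc, h'⟩
        · exact Or.inr ⟨ha, hb, h⟩
        · exact Or.inr ⟨ha, hc, (hR0e i).trans h h'⟩
    · apply hθsum
      by_cases ha : t i a = 0
      · have h1 : Finset.univ.filter (R i a) = {a} := by
          ext b
          simp only [Finset.mem_filter, Finset.mem_univ, true_and, Finset.mem_singleton, hRiff]
          constructor
          · rintro (h | ⟨ha', -, -⟩)
            · exact h.symm
            · exact absurd ha ha'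
          · intro h; exact Or.inl h.symm
        rw [h1, Finset.sum_singleton, ha, map_zero]
      · rw [map_sum]
        have h1 := hR0s i ⟨a, ha⟩ (Finset.univ.filter (R0 i ⟨a, ha⟩)) (by simp)
        rw [← h1]
        symm
        refine Finset.sum_bij (fun b _ => (b : Fin (s i))) ?_ ?_ ?_ ?_
        · intro b hb
          simp only [Finset.mem_filter, Finset.mem_univ, true_and, hRiff] at hb ⊢
          exact Or.inr ⟨ha, b.2, hb⟩
        · intro b _ b' _ h
          exact Subtype.ext h
        · intro b hb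
          simp only [Finset.mem_filter, Finset.mem_univ, true_and, hRiff] at hb
          rcases hb with rfl | ⟨ha', hb, h⟩
          · exact ⟨⟨a, ha⟩, by simp [(hR0e i).refl], rfl⟩
          · exact ⟨⟨b, hb⟩, by simpa using h, rfl⟩
        · intro b _; rfl
  -- the ratios
  set rθ : Idx s → L := fun p => θ (nums t R p) / θ (dens t R p) with hrθ
  have hdens : ∀ p, θ (dens t R p) ≠ 0 := by
    intro p
    unfold dens
    split_ifs with h
    · exact hθt _ _ h.2
    · rw [map_one]; exact one_ne_zero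
  have hrθh : ∀ p, rθ p ∈ K := by
    intro p
    simp only [hrθ]
    unfold nums dens
    by_cases h : R p.1 p.2.1 p.2.2 ∧ t p.1 p.2.2 ≠ 0
    · rw [if_pos h, if_pos h]
      rcases (hRiff _ _ _).1 h.1 with h1 | ⟨ha, hb, h1⟩
      · rw [h1, div_self (hθt _ _ h.2)]; exact K.one_mem
      · exact hR0h p.1 _ _ h1
    · rw [if_neg h, map_zero, zero_div]; exact K.zero_mem
  -- transfer of the relations
  have hall : ∀ i : Idx s ⊕ J, θ (Sum.elim (dens t R) den i) ≠ 0 := by
    intro i
    cases i with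
    | inl p => exact hdens p
    | inr j => exact hθden j
  obtain ⟨Bt, _, _, q, xt, jt, Θ, hjinj, hjq, hΘq, hjx, hΘx⟩ :=
    transfer (k := F) (ρ := Idx s ⊕ J) θ (Sum.elim (nums t R) num) (Sum.elim (dens t R) den) hall
  have hjq' : (fun p => jt (q (Sum.inl p))) = rat t R := funext fun p => hjq (Sum.inl p)
  have hΘq' : (fun p => Θ (q (Sum.inl p))) = rθ := funext fun p => hΘq (Sum.inl p)
  intro j
  refine ⟨hθden j, ?_⟩
  obtain ⟨h1, h2⟩ := hkey R j hRadm
  have hjy := hjq (Sum.inr j)
  have hΘy := hΘq (Sum.inr j)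
  simp only [Sum.elim_inr] at hjy hΘy
  set y := q (Sum.inr j) with hy
  set q' : Idx s → Bt := fun p => q (Sum.inl p) with hq'
  have hjc : ∀ P : MvPolynomial (Idx s) F, jt (aeval q' P) = aeval (rat t R) P := by
    intro P
    rw [← hjq', ← AlgHom.comp_apply, comp_aeval]
  have hΘc : ∀ P : MvPolynomial (Idx s) F, Θ (aeval q' P) = aeval rθ P := by
    intro P
    rw [← hΘq', ← AlgHom.comp_apply, comp_aeval]
  have h3 : aeval q' (c R j (D R j)) * xt (dn R j) = xt (nm R j) := by
    apply hjinj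
    rw [map_mul, hjc, hjx, hjx, h1]
  have h4 : ∑ d ∈ Finset.range (D R j + 1), aeval q' (c R j d) * y ^ d = 0 := by
    apply hjinj
    rw [map_sum, map_zero, ← h2]
    refine Finset.sum_congr rfl fun d _ => ?_
    rw [map_mul, map_pow, hjc, hjy]
  have h5 := congrArg Θ h3
  rw [map_mul, hΘc, hΘx, hΘx] at h5
  have h6 : aeval rθ (c R j (D R j)) ≠ 0 := by
    intro h0
    rw [h0, zero_mul] at h5
    exact hθnum R j h5.symm
  have h7 := congrArg Θ h4
  rw [map_sum, map_zero] at h7
  refine ⟨D R j, fun d => aeval rθ (c R j d), fun d => aeval_mem K hrθh _, h6, ?_⟩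
  rw [← h7]
  refine Finset.sum_congr rfl fun d _ => ?_
  rw [map_mul, map_pow, hΘc, hΘy]

end Pool.Agent.W603.BPR
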