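import Pool.Agent.W603.BP.RCore
import Pool.Agent.W603.BP.RAn
import Pool.Agent.W603.BP.PSMain
import Pool.Agent.W603.PV.Main

/-!
Pseudo-Picard hyperbolicity of quasi-projective varieties with a rigid system of generalised unit
equations.
-/

set_option autoImplicit false

namespace Pool.Agent.W603.BPR

open MvPolynomial Filter Metric Topology Pool.Agent.W603.LV Pool.Agent.W603.PV
  Pool.Agent.W603.BP

variable {n : ℕ}

/-- Homogeneous coordinates of the points of the quasi-projective variety in `P^n` over the complex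
numbers that is the complement of the hypersurface `Q = 0` in the closed variety with the ideal
`p`. -/
def PtsP (p : Ideal (MvPolynomial (Fin (n + 1)) ℂ)) (Q : MvPolynomial (Fin (n + 1)) ℂ) :
    Set (Fin (n + 1) → ℂ) :=
  {x | x ≠ 0 ∧ (∀ H ∈ p, eval x H = 0) ∧ eval x Q ≠ 0}

/-- `f` is the vector of homogeneous coordinates of a holomorphic map from the punctured disc
to `X`. -/
def PCurve (p : Ideal (MvPolynomial (Fin (n + 1)) ℂ)) (Q : MvPolynomial (Fin (n + 1)) ℂ)
    (f : ℂ → Fin (n + 1) → ℂ) : Prop :=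
  DifferentiableOn ℂ f (ball 0 1 \ {0}) ∧ ∀ z ∈ ball (0 : ℂ) 1 \ {0}, f z ∈ PtsP p Q

/-- `f` is the vector of homogeneous coordinates of an entire curve in `X`, that is, of a
nonconstant holomorphic map from the complex plane to `X`. -/
def EntireCurve (p : Ideal (MvPolynomial (Fin (n + 1)) ℂ)) (Q : MvPolynomial (Fin (n + 1)) ℂ)
    (f : ℂ → Fin (n + 1) → ℂ) : Prop :=
  Differentiable ℂ f ∧ (∀ z, f z ∈ PtsP p Q) ∧ ∃ z w, ∀ c : ℂ, f z ≠ c • f w

/-- `X` is pseudo-Picard hyperbolic: all holomorphic maps from the punctured disc to `X` whose image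
is not contained in a certain hypersurface that does not contain `X` extend to the disc. -/
def PseudoPicard (p : Ideal (MvPolynomial (Fin (n + 1)) ℂ)) (Q : MvPolynomial (Fin (n + 1)) ℂ) :
    Prop :=
  ∃ G : MvPolynomial (Fin (n + 1)) ℂ, (∃ d, G.IsHomogeneous d) ∧ G ∉ p ∧
    (∀ f, PCurve p Q f → (∃ z ∈ ball (0 : ℂ) 1 \ {0}, eval (f z) G ≠ 0) → Extends f) ∧
    ∀ f, EntireCurve p Q f → ∀ z, eval (f z) G = 0

variable {p : Ideal (MvPolynomial (Fin (n + 1)) ℂ)} {Q : MvPolynomial (Fin (n + 1)) ℂ}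
  {q : ℕ} {I : Type} {s : I → ℕ}

theorem PCurve.an {f : ℂ → Fin (n + 1) → ℂ} (hf : PCurve p Q f) (j : Fin (n + 1)) :
    AnalyticOnNhd ℂ (fun w => f w j) (PB 1) := by
  intro w hw
  have h1 : DifferentiableOn ℂ (fun w => f w j) (ball 0 1 \ {0}) := by
    intro z hz
    exact (differentiableWithinAt_pi.mp (hf.1 z hz)) j
  exact h1.analyticAt (disc_open.mem_nhds (mem_disc.mpr hw))

theorem pun_eval {y : Fin (n + 1) → ℂ → ℂ} (hy : ∀ j, Pun (y j))
    (G : MvPolynomial (Fin (n + 1)) ℂ) : Pun (fun z => eval (fun j => y j z) G) := by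
  have h : ∀ᶠ w in 𝓝[≠] (0 : ℂ), ∀ j, AnalyticAt ℂ (y j) w := by
    rw [Filter.eventually_all]
    exact hy
  filter_upwards [h] with w hw
  simp only [eval_eq']
  apply Finset.analyticAt_fun_sum
  intro α _
  apply AnalyticAt.fun_mul analyticAt_const
  apply Finset.analyticAt_fun_prod
  intro j _
  exact (hw j).fun_pow _

/-- evaluation at germs -/
theorem aeval_toL (y : Fin (n + 1) → ℂ → ℂ) (hy : ∀ j, Pun (y j))
    (H : MvPolynomial (Fin (n + 1)) ℂ) :
    aeval (fun j => toL (BPR.an (y j) (hy j))) H =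
      toL (BPR.an (fun w => eval (fun j => y j w) H) (pun_eval hy H)) := by
  induction H using MvPolynomial.induction_on with
  | C a =>
    rw [aeval_C, ← toL.commutes]
    congr 1
    apply Subtype.ext
    change gm (fun _ => a) = gm (fun w => eval (fun j => y j w) (C a))
    congr 1
    funext w
    rw [eval_C]
  | add P R hP hR =>
    rw [map_add, hP, hR, ← map_add]
    congr 1
    apply Subtype.ext
    change gm _ + gm _ = gm _
    rw [← gm_add]
    congr 1
    funext w
    rw [map_add]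
  | mul_X P j hP =>
    rw [map_mul, aeval_X, hP, ← map_mul]
    congr 1
    apply Subtype.ext
    change gm _ * gm _ = gm _
    rw [← gm_mul]
    congr 1
    funext w
    rw [map_mul, eval_X]

theorem rigid_core [Finite I] [p.IsPrime] (E : EqSys p Q q s) (hE : E.Rigid)
    (hx : ∃ j, X j ∉ p) :
    ∃ G : MvPolynomial (Fin (n + 1)) ℂ, G ∉ p ∧
      ∀ f, PCurve p Q f → (∃ z ∈ ball (0 : ℂ) 1 \ {0}, eval (f z) G ≠ 0) → Extends f := by
  classical
  obtain ⟨l, hl⟩ := hx
  have hmk : ∀ H : MvPolynomial (Fin (n + 1)) ℂ, H ∉ p → Ideal.Quotient.mk p H ≠ 0 := by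
    intro H hH h
    exact hH (Ideal.Quotient.eq_zero_iff_mem.1 h)
  choose χ e m hχ hde hunit using E.unit
  obtain ⟨g, hg, hdvd, hcore⟩ := core_alg.{0, 0, 0, 0, 0} (F := ℂ)
    (A := MvPolynomial (Fin (n + 1)) ℂ ⧸ p) E.term
    (J := Fin (n + 1)) (fun j => Ideal.Quotient.mk p (X j)) (fun _ => Ideal.Quotient.mk p (X l))
    (fun _ => hmk _ hl) (by
      intro R hR hR2 j
      refine hE R hR (fun i a => ?_) j l
      refine Eq.trans ?_ (hR2 i a)
      refine Finset.sum_congr ?_ fun _ _ => rfl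
      ext b
      simp only [Finset.mem_filter, Finset.mem_univ, true_and])
  obtain ⟨G, hG⟩ := Ideal.Quotient.mk_surjective g
  refine ⟨G, fun h => hg (by rw [← hG]; exact Ideal.Quotient.eq_zero_iff_mem.2 h), ?_⟩
  rintro f hf ⟨z1, hz1, hGz⟩
  have hfa := hf.an
  have hP : ∀ j, Pun (fun w => f w j) := fun j => on_pun one_pos (hfa j)
  have hX : ∀ w ∈ PB 1, f w ∈ PtsP p Q := fun w hw => hf.2 w (mem_disc.mpr hw)
  have hXe : ∀ᶠ w in 𝓝[≠] (0 : ℂ), f w ∈ PtsP p Q := by
    filter_upwards [PB_mem one_pos] with w hw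
    exact hX w hw
  let fj : Fin (n + 1) → LL := fun j => toL (BPR.an (fun w => f w j) (hP j))
  have hev : ∀ H, aeval fj H = toL (BPR.an (fun w => eval (f w) H) (pun_eval hP H)) :=
    fun H => aeval_toL (fun j w => f w j) hP H
  have hker : ∀ H ∈ p, aeval fj H = 0 := by
    intro H hH
    rw [hev, toL_zero, an_zero]
    filter_upwards [hXe] with w hw
    exact hw.2.1 H hH
  let θ : (MvPolynomial (Fin (n + 1)) ℂ ⧸ p) →ₐ[ℂ] LL := Ideal.Quotient.liftₐ p (aeval fj) hker
  have hθ : ∀ H, θ (Ideal.Quotient.mk p H) = aeval fj H :=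
    fun H => Ideal.Quotient.liftₐ_apply p _ hker _
  have hNz : ∀ H : MvPolynomial (Fin (n + 1)) ℂ, Nz (fun w => eval (f w) H) ↔
      θ (Ideal.Quotient.mk p H) ≠ 0 := by
    intro H
    rw [hθ, hev, Ne, toL_zero, an_zero]
    rfl
  have hθg : θ g ≠ 0 := by
    rw [← hG, ← hNz]
    exact nz_of_on (eval_an hfa G) (mem_disc.mp hz1) hGz
  -- the terms
  let ev : (i : I) → Fin (s i) → ℂ → ℂ := fun i a w => eval (f w) (E.ψ i a * E.φ i a ^ E.N i)
  have hevP : ∀ i a, Pun (ev i a) := fun i a => pun_eval hP _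
  have hterm : ∀ i a, θ (E.term i a) = toL (BPR.an (ev i a) (hevP i a)) := by
    intro i a
    unfold EqSys.term
    rw [hθ, hev]
  have hroot : ∀ i a, ∃ g : ℂ → ℂ, Pun g ∧
      ∀ᶠ t in 𝓝[≠] (0 : ℂ), g t ^ E.N i = ev i a (t ^ E.N i) := by
    intro i a
    obtain ⟨g1, hg1, hg2⟩ := root (pun_eval hP (E.ψ i a)) (by
      filter_upwards [hXe] with w hw h0
      have h1 := hw.2.1 _ (hunit i a)
      rw [map_sub, map_mul, h0, zero_mul, zero_sub, neg_eq_zero, map_pow] at h1
      exact hw.2.2 (eq_zero_of_pow_eq_zero h1)) (E.pos i)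
    refine ⟨fun t => g1 t * eval (f (t ^ E.N i)) (E.φ i a), ?_, ?_⟩
    · exact hg1.mul ((pun_eval hP (E.φ i a)).comp_pow (E.pos i))
    · filter_upwards [hg2] with t ht
      simp only [ev]
      rw [mul_pow, ht, map_mul, map_pow]
  let col : (i : I) → Fin (s i) → Set (Fin (s i)) := fun i a =>
    {b | Gr (ev i b) (ev i a) ∧ Gr (ev i a) (ev i b)}
  have hcol : ∀ i a b, Nz (ev i a) → Nz (ev i b) → Gr (ev i a) (ev i b) →
      col i a = col i b := by
    intro i a b ha hb hab
    have h2 : Gr (ev i b) (ev i a) := ((growth_mero (hevP i a) (hevP i b) hb hab).symm ha).gr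
    ext x
    exact ⟨fun hx => ⟨hx.1.trans hab, h2.trans hx.2⟩, fun hx => ⟨hx.1.trans h2, hab.trans hx.2⟩⟩
  have hsum : ∀ i v, ∀ᶠ w in 𝓝[≠] (0 : ℂ),
      ∑ a ∈ Finset.univ.filter (fun a => col i a = v), ev i a w = 0 := by
    intro i v
    have h1 := color_sums (E.pos i) (ev i) (hevP i) (hroot i) (col i) (hcol i) Finset.univ
      (by rw [Finset.card_univ, Fintype.card_fin]; exact E.large i) (fun _ _ => 1)
      (fun _ => MeromorphicAt.const _ 0) (by
        filter_upwards [hXe] with w hw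
        have h2 := hw.2.1 _ (E.rel i)
        rw [map_sum] at h2
        rw [← h2]
        exact Finset.sum_congr rfl fun a _ => one_mul _) v
    filter_upwards [h1] with w hw
    rw [← hw]
    exact Finset.sum_congr rfl fun a _ => (one_mul _).symm
  have hblk := hcore LL mer θ hθg (by
    intro i
    refine ⟨fun a b => col i a = col i b, ⟨fun _ => rfl, fun h => h.symm, fun h h' => h.trans h'⟩,
      ?_, ?_⟩
    · rintro ⟨a, ha⟩ ⟨b, hb⟩ hab
      simp only at hab
      simp only
      rw [hterm, hterm]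
      have hbn : Nz (ev i b) := by
        have h1 : θ (E.term i b) ≠ 0 := by
          intro h0
          obtain ⟨c, hc⟩ := hdvd i b hb
          apply hθg
          rw [hc, map_mul, h0, zero_mul]
        rw [hterm, Ne, toL_zero, an_zero] at h1
        exact h1
      have h2 : a ∈ col i a := ⟨Gr.refl _, Gr.refl _⟩
      rw [hab] at h2
      exact ratio_mem _ _ hbn (growth_mero (hevP i a) (hevP i b) hbn h2.1)
    · intro a0 B hB
      have h1 : ∑ a ∈ B, θ (E.term i a) =
          ∑ a ∈ Finset.univ.filter (fun a => col i a = col i a0), θ (E.term i a) := by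
        refine Finset.sum_of_injOn (fun a : {a : Fin (s i) // E.term i a ≠ 0} => (a : Fin (s i)))
          (fun a _ b _ h => Subtype.ext h) ?_ ?_ fun a _ => rfl
        · intro a ha
          have := (hB a).mp ha
          exact Finset.mem_coe.mpr (Finset.mem_filter.mpr ⟨Finset.mem_univ _, this.symm⟩)
        · intro a ha hna
          by_cases h0 : E.term i a = 0
          · rw [h0, map_zero]
          · exfalso
            apply hna
            exact ⟨⟨a, h0⟩, (hB _).mpr (Finset.mem_filter.mp ha).2.symm, rfl⟩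
      rw [h1, Finset.sum_congr rfl fun a _ => hterm i a, ← map_sum,
        ← an_sum _ (fun a => hevP i a), toL_zero, an_zero]
      exact hsum i _)
  have hln : Nz (fun w => f w l) := by
    have h1 := (hblk l).1
    rw [← hNz] at h1
    simpa only [eval_X] using h1
  have hgr : ∀ j, Gr (fun w => f w j) (fun w => f w l) := by
    intro j
    obtain ⟨h0, D, mm, hmm, hmD, hrel⟩ := hblk j
    choose ρ hρ hρe using hmm
    have hfj : θ (Ideal.Quotient.mk p (X j)) = fj j := by rw [hθ, aeval_X]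
    have hfl : θ (Ideal.Quotient.mk p (X l)) = fj l := by rw [hθ, aeval_X]
    rw [hfl] at h0
    rw [hfj, hfl] at hrel
    apply gr_of_alg (D := D) ρ hρ
    · intro hz
      apply hmD
      rw [hρe, toL_zero, an_zero]
      exact hz
    · have hmul : ∀ d, Pun (fun w => ρ d w * f w j ^ d * f w l ^ (D - d)) := fun d =>
        ((Pun.mero (hρ d)).mul ((hP j).pow d)).mul ((hP l).pow (D - d))
      have h2 : toL (BPR.an (fun w => ∑ d ∈ Finset.range (D + 1),
          ρ d w * f w j ^ d * f w l ^ (D - d)) (Pun.sum _ fun d _ => hmul d)) = 0 := by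
        rw [an_sum _ hmul, map_sum]
        have h3 : ∀ d ∈ Finset.range (D + 1), toL (BPR.an (fun w =>
            ρ d w * f w j ^ d * f w l ^ (D - d)) (hmul d)) =
            fj l ^ D * (mm d * (fj j / fj l) ^ d) := by
          intro d hd
          have hdD : d ≤ D := Nat.lt_succ_iff.mp (Finset.mem_range.mp hd)
          have h4 : toL (BPR.an (fun w => ρ d w * f w j ^ d * f w l ^ (D - d)) (hmul d)) =
              mm d * fj j ^ d * fj l ^ (D - d) := by
            rw [hρe]
            simp only [fj]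
            rw [← map_pow, ← map_pow, ← map_mul, ← map_mul]
            rfl
          rw [h4]
          have h5 : fj l ^ D = fj l ^ (D - d) * fj l ^ d := by
            rw [← pow_add, Nat.sub_add_cancel hdD]
          rw [h5, div_pow]
          field_simp
        rw [Finset.sum_congr rfl h3, ← Finset.mul_sum, hrel, mul_zero]
      rw [toL_zero, an_zero] at h2
      exact h2
  apply extends_of f hfa (fun w hw => (hX w hw).1)
  intro j k _ hk
  have h1 : MRel (fun w => f w k) (fun w => f w l) := growth_mero (hP k) (hP l) hln (hgr k)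
  exact growth_mero (hP j) (hP k) hk ((hgr j).trans (h1.symm hk).gr)

/-- an entire curve composed with `sin (1 / w)` has an essential singularity -/
theorem sin_curve' {f : ℂ → Fin (n + 1) → ℂ} (hf : EntireCurve p Q f) :
    PCurve p Q (fun w => f (Complex.sin w⁻¹)) ∧ ¬ Extends (fun w => f (Complex.sin w⁻¹)) := by
  have h1 : Pool.Agent.H159R3.GGLLog.EntireCurve (∅ : Set (Fin (n + 1)))
      (fun e : Empty => e.elim) f :=
    ⟨hf.1, fun z => ⟨(hf.2.1 z).1, fun j hj => absurd hj (Set.notMem_empty j), fun e => e.elim⟩,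
      hf.2.2⟩
  exact ⟨⟨(sin_curve h1).1.1, fun z _ => hf.2.1 _⟩, (sin_curve h1).2⟩

theorem ae (x : Fin (n + 1) → ℂ) (H : MvPolynomial (Fin (n + 1)) ℂ) : aeval x H = eval x H := by
  rw [← MvPolynomial.coe_aeval_eq_eval]
  rfl

theorem scale (hp : IsHomog p) (hQ : Q.IsHomogeneous q) {f : ℂ → Fin (n + 1) → ℂ}
    (hf : PCurve p Q f) {c : ℂ} (hc : c ≠ 0) : PCurve p Q (fun w j => c * f w j) := by
  refine ⟨?_, fun z hz => ⟨?_, ?_, ?_⟩⟩
  · intro z hz
    rw [differentiableWithinAt_pi]
    intro j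
    exact ((differentiableWithinAt_pi.mp (hf.1 z hz)) j).const_mul c
  · obtain ⟨j, hj⟩ := Function.ne_iff.mp (hf.2 z hz).1
    exact Function.ne_iff.mpr ⟨j, mul_ne_zero hc hj⟩
  · intro H hH
    have h1 := aeval_scale_sum H (f z) c
    simp only [ae] at h1
    rw [h1]
    refine Finset.sum_eq_zero fun e _ => ?_
    rw [(hf.2 z hz).2.1 _ (hp H hH e), mul_zero]
  · have h1 := aeval_scale hQ (f z) c
    rw [ae, ae] at h1
    rw [h1]
    exact mul_ne_zero (pow_ne_zero _ hc) (hf.2 z hz).2.2

/-- The main theorem. -/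
theorem rigid_picard [Finite I] [p.IsPrime] (hp : IsHomog p) (hQ : Q.IsHomogeneous q)
    (E : EqSys p Q q s) (hE : E.Rigid) : PseudoPicard p Q := by
  by_cases hx : ∃ j, X j ∉ p
  · obtain ⟨G0, hG0, h⟩ := rigid_core E hE hx
    obtain ⟨d, hd⟩ := exists_component hp hG0
    have hmain : ∀ f, PCurve p Q f → (∃ z ∈ ball (0 : ℂ) 1 \ {0},
        eval (f z) (homogeneousComponent d G0) ≠ 0) → Extends f := by
      rintro f hf ⟨z, hz, hGz⟩
      obtain ⟨c, hc, hcG⟩ := exists_scale G0 (f z) d (by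
        rw [ae]
        exact hGz)
      rw [ae] at hcG
      obtain ⟨g, hg1, hg2, hg3⟩ := h (fun w j => c * f w j) (scale hp hQ hf hc) ⟨z, hz, hcG⟩
      refine ⟨g, hg1, hg2, fun w hw => ?_⟩
      obtain ⟨a, ha⟩ := hg3 w hw
      refine ⟨c⁻¹ * a, ?_⟩
      have h1 : f w = c⁻¹ • (fun j => c * f w j) := by
        funext j
        simp only [Pi.smul_apply, smul_eq_mul]
        rw [← mul_assoc, inv_mul_cancel₀ hc, one_mul]
      have ha' : (fun j => c * f w j) = a • g w := ha
      rw [h1, ha', smul_smul]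
    refine ⟨homogeneousComponent d G0, ⟨d, homogeneousComponent_isHomogeneous d G0⟩, hd, hmain, ?_⟩
    intro f hf z
    by_contra hne
    obtain ⟨h1, h2⟩ := sin_curve' hf
    obtain ⟨w, hw, hwz⟩ := sin_point z
    exact h2 (hmain _ h1 ⟨w, hw, by rw [hwz]; exact hne⟩)
  · push Not at hx
    refine ⟨1, ⟨0, isHomogeneous_one _ _⟩, fun h => (Ideal.ne_top_iff_one p).1
      (Ideal.IsPrime.ne_top inferInstance) h, ?_, ?_⟩
    · rintro f hf ⟨z, hz, -⟩
      exfalso
      apply (hf.2 z hz).1
      funext j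
      have := (hf.2 z hz).2.1 _ (hx j)
      rwa [eval_X] at this
    · intro f hf z
      exfalso
      apply (hf.2.1 z).1
      funext j
      have := (hf.2.1 z).2.1 _ (hx j)
      rwa [eval_X] at this

end Pool.Agent.W603.BPR
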