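import Pool.Agent.W603.BP.Germ

/-!
Relations between `N`-th powers of germs at a puncture.
-/

set_option autoImplicit false

namespace Pool.Agent.W603.BP

open Filter Metric Set Topology Pool.Agent.H159R3.NV

/-- an entire function without zeros is an exponential -/
theorem entire_log {G : ℂ → ℂ} (hG : Differentiable ℂ G) (hne : ∀ z, G z ≠ 0) :
    ∃ P : ℂ → ℂ, Differentiable ℂ P ∧ ∀ z, G z = Complex.exp (P z) := by
  have hd : Differentiable ℂ (fun z => deriv G z / G z) :=
    (hG.deriv).fun_div hG hne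
  obtain ⟨P, hP⟩ := hd.isExactOn_univ
  have h1 : ∀ z, HasDerivAt (fun z => G z * Complex.exp (-P z)) 0 z := by
    intro z
    have h2 := (hG z).hasDerivAt.mul ((hP z (mem_univ z)).neg.cexp)
    have e : deriv G z * Complex.exp (-P z)
        + G z * (Complex.exp (-P z) * -(deriv G z / G z)) = 0 := by
      have := hne z
      field_simp
      ring
    have h3 : HasDerivAt (fun z => G z * Complex.exp (-P z)) (deriv G z * Complex.exp (-P z)
        + G z * (Complex.exp (-P z) * -(deriv G z / G z))) z := h2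
    rw [e] at h3
    exact h3
  have h2 : ∀ z, G z * Complex.exp (-P z) = G 0 * Complex.exp (-P 0) := fun z =>
    is_const_of_deriv_eq_zero (fun z => (h1 z).differentiableAt) (fun z => (h1 z).deriv) z 0
  set c : ℂ := G 0 * Complex.exp (-P 0) with hc
  have hc0 : c ≠ 0 := mul_ne_zero (hne 0) (Complex.exp_ne_zero _)
  refine ⟨fun z => Complex.log c + P z, (fun z => ((hP z (mem_univ z)).differentiableAt).const_add _),
    ?_⟩
  intro z
  rw [Complex.exp_add, Complex.exp_log hc0, ← h2 z, mul_assoc, ← Complex.exp_add, neg_add_cancel,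
    Complex.exp_zero, mul_one]

/-- factorisation of a germ without zeros at a puncture -/
theorem pun_factor {u : ℂ → ℂ} (hu : Pun u) (hne : ∀ᶠ w in 𝓝[≠] (0 : ℂ), u w ≠ 0) :
    ∃ (k : ℤ) (q P : ℂ → ℂ), AnalyticAt ℂ q 0 ∧ Differentiable ℂ P ∧
      ∀ᶠ w in 𝓝[≠] (0 : ℂ), u w = (w⁻¹) ^ k * Complex.exp (q w) * Complex.exp (P w⁻¹) := by
  obtain ⟨δ1, h1, a1⟩ := pun_on hu
  obtain ⟨δ2, h2, a2⟩ := ev_iff.mp hne
  set δ := min δ1 δ2 with hδdef
  have hδ : 0 < δ := lt_min h1 h2
  have hi : 0 < δ⁻¹ := inv_pos.mpr hδ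
  have hua : AnalyticOnNhd ℂ u (PB δ) := a1.mono (PB_mono (min_le_left _ _))
  have hun : ∀ w ∈ PB δ, u w ≠ 0 := fun w hw => a2 w (PB_mono (min_le_right _ _) hw)
  have hF : DifferentiableOn ℂ (fun z => u z⁻¹) {z | δ⁻¹ < ‖z‖} := by
    intro z hz
    have h3 := hua _ (inv_mem_PB hδ hz)
    exact (h3.differentiableAt.comp z
      (differentiableAt_inv (ext_ne_zero hi.le hz))).differentiableWithinAt
  obtain ⟨k, q, G, hq, hG, hG0, hFG⟩ := birkhoff (F := fun z => u z⁻¹) (r0 := δ⁻¹)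
    (r1 := δ⁻¹ + 2) (a := δ⁻¹ + 1) hi.le (by linarith) (by linarith) hF
    (fun z hz _ => hun _ (inv_mem_PB hδ hz))
  set a : ℝ := δ⁻¹ + 1 with ha
  have ha0 : 0 < a := by linarith
  have hGne : ∀ z, G z ≠ 0 := by
    intro z
    by_cases hz : ‖z‖ ≤ a
    · exact hG0 z hz
    · push Not at hz
      intro h0
      have h3 := hFG z hz
      rw [h0, mul_zero] at h3
      exact hun _ (inv_mem_PB hδ (show z ∈ Ext δ⁻¹ by change δ⁻¹ < ‖z‖; linarith)) h3
  obtain ⟨P, hP, hGP⟩ := entire_log hG hGne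
  refine ⟨k, q, P, hq.analyticAt (isOpen_ball.mem_nhds (mem_ball_self (inv_pos.mpr ha0))), hP, ?_⟩
  filter_upwards [PB_mem (inv_pos.mpr ha0)] with w hw
  have h4 : w⁻¹ ∈ Ext a := by
    have := inv_mem_Ext hw
    rwa [inv_inv] at this
  have h5 := hFG _ h4
  simp only [inv_inv] at h5
  rw [h5, hGP]

/-- `N`-th roots after the substitution `w ↦ w ^ N` -/
theorem root {u : ℂ → ℂ} (hu : Pun u) (hne : ∀ᶠ w in 𝓝[≠] (0 : ℂ), u w ≠ 0) {N : ℕ} (hN : 0 < N) :
    ∃ g : ℂ → ℂ, Pun g ∧ ∀ᶠ t in 𝓝[≠] (0 : ℂ), g t ^ N = u (t ^ N) := by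
  obtain ⟨k, q, P, hq, hP, he⟩ := pun_factor hu hne
  refine ⟨fun t => (t⁻¹) ^ k * Complex.exp ((q (t ^ N) + P (t ^ N)⁻¹) / N), ?_, ?_⟩
  · have hqa : Pun q := (hq.eventually_analyticAt).filter_mono nhdsWithin_le_nhds
    filter_upwards [hqa.comp_pow hN, self_mem_nhdsWithin] with t ht ht0
    have ht0' : t ≠ 0 := ht0
    have htp : AnalyticAt ℂ (fun t : ℂ => t ^ N) t := analyticAt_id.fun_pow N
    apply AnalyticAt.fun_mul
    · exact (analyticAt_inv ht0').fun_zpow (inv_ne_zero ht0')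
    · apply AnalyticAt.cexp
      apply AnalyticAt.fun_div _ analyticAt_const (by exact_mod_cast hN.ne')
      apply AnalyticAt.fun_add ht
      have h5 : AnalyticAt ℂ (fun t : ℂ => (t ^ N)⁻¹) t := htp.fun_inv (pow_ne_zero _ ht0')
      exact (hP.analyticAt _).comp (g := P) (f := fun t : ℂ => (t ^ N)⁻¹) h5
  · filter_upwards [(tendsto_pow_punct hN).eventually he] with t ht
    rw [ht, mul_pow, ← Complex.exp_nat_mul, ← zpow_natCast, ← zpow_natCast, mul_assoc,
      ← Complex.exp_add]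
    congr 1
    · rw [inv_zpow, inv_zpow, inv_zpow, ← zpow_mul, ← zpow_mul, mul_comm]
    · congr 1
      have : (N : ℂ) ≠ 0 := by exact_mod_cast hN.ne'
      field_simp

theorem two_related {N : ℕ} {ι : Type} [DecidableEq ι] (h : ι → ℂ → ℂ) :
    ∀ (S : Finset ι), (S.card - 1) ^ 2 ≤ N → (∀ i ∈ S, Pun (h i)) → (∀ i ∈ S, Nz (h i)) →
      ∀ c : ι → ℂ, (∀ᶠ w in 𝓝[≠] (0 : ℂ), ∑ i ∈ S, c i * h i w ^ N = 0) → (∃ i ∈ S, c i ≠ 0) →
        ∃ i ∈ S, ∃ j ∈ S, i ≠ j ∧ MRel (h i) (h j) := by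
  intro S
  induction S using Finset.strongInduction with
  | H S ih =>
    intro hSN hP hNz c hc hex
    obtain ⟨i0, hi0, hci0⟩ := hex
    by_cases hall : ∀ i ∈ S, c i ≠ 0
    swap
    · push Not at hall
      obtain ⟨i, hi, hci⟩ := hall
      obtain ⟨i', hi', j', hj', hne, hr⟩ := ih (S.erase i) (Finset.erase_ssubset hi)
        (le_trans (Nat.pow_le_pow_left
          (Nat.sub_le_sub_right (Finset.card_le_card (Finset.erase_subset _ _)) 1) 2) hSN)
        (fun j hj => hP j (Finset.mem_of_mem_erase hj))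
        (fun j hj => hNz j (Finset.mem_of_mem_erase hj)) c (by
          filter_upwards [hc] with w hw
          rw [← Finset.add_sum_erase S _ hi, hci, zero_mul, zero_add] at hw
          exact hw)
        ⟨i0, Finset.mem_erase.mpr ⟨fun h0 => hci0 (by rw [h0]; exact hci), hi0⟩, hci0⟩
      exact ⟨i', Finset.mem_of_mem_erase hi', j', Finset.mem_of_mem_erase hj', hne, hr⟩
    obtain ⟨m, hm⟩ : ∃ m, S.card = m + 1 :=
      ⟨S.card - 1, by have := Finset.card_pos.mpr ⟨i0, hi0⟩; omega⟩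
    rcases Nat.eq_zero_or_pos m with hm0 | hmpos
    · exfalso
      rw [hm0] at hm
      obtain ⟨j, hj⟩ := Finset.card_eq_one.mp hm
      have hjS : j ∈ S := by rw [hj]; exact Finset.mem_singleton_self j
      apply hNz j hjS
      filter_upwards [hc] with w hw
      rw [hj, Finset.sum_singleton] at hw
      exact eq_zero_of_pow_eq_zero ((mul_eq_zero.mp hw).resolve_left (hall j hjS))
    have hmN : m ^ 2 ≤ N := by
      rw [hm] at hSN
      exact hSN
    have hN0 : 0 < N := lt_of_lt_of_le (by positivity) hmN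
    let e : Fin (m + 1) ≃ S := (Finset.equivFinOfCardEq hm).symm
    have hroot : ∀ i : ι, ∃ d : ℂ, d ^ N = c i := fun i => IsAlgClosed.exists_pow_nat_eq (c i) hN0
    choose d hdr using hroot
    have hd0 : ∀ i ∈ S, d i ≠ 0 := by
      intro i hi h0
      apply hall i hi
      rw [← hdr i, h0, zero_pow hN0.ne']
    let H : Fin (m + 1) → ℂ → ℂ := fun j z => d (e j) * h (e j) z
    have hHN : ∀ j z, H j z ^ N = c (e j) * h (e j) z ^ N := by
      intro j z
      simp only [H]
      rw [mul_pow, hdr]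
    have hsumH : ∀ (f : ι → ℂ), ∑ j, f (e j) = ∑ i ∈ S, f i := by
      intro f
      rw [← Finset.sum_coe_sort S f]
      exact Equiv.sum_comp e (fun i : S => f i)
    have hHP : ∀ j, Pun (H j) := fun j => (Pun.const _).mul (hP _ (e j).2)
    have hHn : ∀ j, Nz (H j) := fun j =>
      Nz.mul (Pun.const _) (hP _ (e j).2) (nz_const (hd0 _ (e j).2)) (hNz _ (e j).2)
    have h0mem : ((e 0 : S) : ι) ∈ S := (e 0).2
    by_cases hdep : ∃ b : Fin m → ℂ, b ≠ 0 ∧
        ∀ᶠ w in 𝓝[≠] (0 : ℂ), ∑ j, b j * H j.succ w ^ N = 0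
    · -- a shorter relation
      obtain ⟨b, hb0, hb⟩ := hdep
      let f : ι → ℂ := fun i => if hi : i ∈ S then
        (if h2 : (e.symm ⟨i, hi⟩) = 0 then 0 else b ((e.symm ⟨i, hi⟩).pred h2) * c i) else 0
      have hf0 : f (e 0) = 0 := by
        simp only [f]
        rw [dif_pos h0mem]
        rw [dif_pos]
        simp
      have hfs : ∀ j : Fin m, f (e j.succ) = b j * c (e j.succ) := by
        intro j
        simp only [f]
        rw [dif_pos (e j.succ).2]
        have h3 : e.symm ⟨(e j.succ : ι), (e j.succ).2⟩ = j.succ := by simp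
        have h4 : ¬ e.symm ⟨(e j.succ : ι), (e j.succ).2⟩ = 0 := by
          rw [h3]; exact Fin.succ_ne_zero j
        rw [dif_neg h4]
        congr 2
        apply Fin.succ_injective
        rw [Fin.succ_pred, h3]
      have hmem : ∀ j : Fin m, ((e j.succ : S) : ι) ∈ S.erase (e 0) := by
        intro j
        rw [Finset.mem_erase]
        refine ⟨?_, (e j.succ).2⟩
        intro h2
        exact Fin.succ_ne_zero j (e.injective (Subtype.ext h2))
      obtain ⟨j0, hj0⟩ := Function.ne_iff.mp hb0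
      obtain ⟨i', hi', j', hj', hne, hr⟩ := ih (S.erase (e 0)) (Finset.erase_ssubset h0mem)
        (le_trans (Nat.pow_le_pow_left
          (Nat.sub_le_sub_right (Finset.card_le_card (Finset.erase_subset _ _)) 1) 2) hSN)
        (fun j hj => hP j (Finset.mem_of_mem_erase hj))
        (fun j hj => hNz j (Finset.mem_of_mem_erase hj)) f (by
          filter_upwards [hb] with w hw
          have h3 : ∑ i ∈ S, f i * h i w ^ N = 0 := by
            rw [← hsumH (fun i => f i * h i w ^ N), Fin.sum_univ_succ, hf0, zero_mul, zero_add,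
              ← hw]
            refine Finset.sum_congr rfl fun j _ => ?_
            rw [hfs, hHN]; ring
          rw [← Finset.add_sum_erase S _ h0mem, hf0, zero_mul, zero_add] at h3
          exact h3)
        ⟨e j0.succ, hmem j0, by
          rw [hfs]
          exact mul_ne_zero hj0 (hall _ (e j0.succ).2)⟩
      exact ⟨i', Finset.mem_of_mem_erase hi', j', Finset.mem_of_mem_erase hj', hne, hr⟩
    · -- the minimal case
      replace hdep : ∀ b : Fin m → ℂ, b ≠ 0 →
        ¬ ∀ᶠ w in 𝓝[≠] (0 : ℂ), ∑ j, b j * H j.succ w ^ N = 0 := fun b hb h0 => hdep ⟨b, hb, h0⟩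
      have hall' : ∀ᶠ w in 𝓝[≠] (0 : ℂ), (∀ j, AnalyticAt ℂ (H j) w) ∧ ∑ j, H j w ^ N = 0 := by
        have h1 : ∀ᶠ w in 𝓝[≠] (0 : ℂ), ∀ j, AnalyticAt ℂ (H j) w := by
          rw [Filter.eventually_all]
          exact hHP
        filter_upwards [h1, hc] with w h2 h3
        refine ⟨h2, ?_⟩
        simp only [hHN]
        rw [hsumH (fun i => c i * h i w ^ N)]
        exact h3
      obtain ⟨δ, hδ, hall2⟩ := ev_iff.mp hall'
      have hi : 0 < δ⁻¹ := inv_pos.mpr hδ
      let v : Fin (m + 1) → ℂ → ℂ := fun j z => H j z⁻¹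
      have hv : ∀ j, AnalyticOnNhd ℂ (v j) (Ext δ⁻¹) := by
        intro j z hz
        exact ((hall2 _ (inv_mem_PB hδ hz)).1 j).comp (g := H j) (f := fun z : ℂ => z⁻¹)
          (analyticAt_inv (ext_ne_zero hi.le hz))
      have hvs : ∀ z ∈ Ext δ⁻¹, ∑ j, v j z ^ N = 0 := fun z hz =>
        (hall2 _ (inv_mem_PB hδ hz)).2
      have hvn : ∀ j, ∃ z ∈ Ext δ⁻¹, v j z ≠ 0 := by
        intro j
        obtain ⟨w, hw, hw2⟩ := nz_on hδ (hHn j)
        exact ⟨w⁻¹, inv_mem_Ext hw, by simpa [v] using hw2⟩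
      have hW : ∃ z ∈ Ext δ⁻¹, wr N v 0 z ≠ 0 := by
        obtain ⟨z, hz, hz2⟩ := wron_ne_loc (Ext_open δ⁻¹) (Ext_preconn hi) (Ext_nonempty _)
          (fun b : Fin m => fun z => v b.succ z ^ N)
          (fun b z hz => (hv b.succ z hz).fun_pow N) (by
            intro b hb
            by_contra hb0
            apply hdep b hb0
            apply ev_iff.mpr ⟨δ, hδ, ?_⟩
            intro w hw
            have := hb _ (inv_mem_Ext hw)
            simpa [v] using this)
        refine ⟨z, hz, ?_⟩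
        unfold wr
        simpa only [Fin.succAbove_zero] using hz2
      have hlast : (Fin.last m : Fin (m + 1)) ≠ 0 := by
        intro h0
        have := congrArg Fin.val h0
        simp only [Fin.val_last, Fin.val_zero] at this
        omega
      obtain ⟨R, hR, R0, hRe⟩ := core hmpos hmN hi v hv hvs hvn hW (Fin.last m)
      refine ⟨e (Fin.last m), (e _).2, e 0, (e 0).2, ?_, ?_⟩
      · intro h0
        exact hlast (e.injective (Subtype.ext h0))
      · refine ⟨fun w => (d (e (Fin.last m)))⁻¹ * (R w⁻¹ * d (e 0)),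
          (MeromorphicAt.const _ 0).fun_mul (hR.fun_mul (MeromorphicAt.const _ 0)), ?_⟩
        have hR1 : 0 < |R0| + 1 := by positivity
        apply ev_iff.mpr ⟨(|R0| + 1)⁻¹, inv_pos.mpr hR1, ?_⟩
        intro w hw
        have h1 : R0 < ‖w⁻¹‖ := by
          have h2 : (|R0| + 1)⁻¹⁻¹ < ‖w⁻¹‖ := inv_mem_Ext hw
          rw [inv_inv] at h2
          linarith [le_abs_self R0]
        have h2 := hRe _ h1
        simp only [v, H, inv_inv] at h2
        have h3 := hd0 _ (e (Fin.last m)).2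
        apply mul_left_cancel₀ h3
        rw [h2]
        change _ = d ↑(e (Fin.last m)) * ((d ↑(e (Fin.last m)))⁻¹ * (R w⁻¹ * d ↑(e 0))
          * h (↑(e 0)) w)
        rw [mul_assoc, mul_inv_cancel_left₀ h3]
        ring

theorem Gr.pow {e f : ℂ → ℂ} (h : Gr e f) (N : ℕ) : Gr (fun w => e w ^ N) (fun w => f w ^ N) := by
  induction N with
  | zero => simpa using Gr.refl (fun _ => (1 : ℂ))
  | succ N ih =>
    simp only [pow_succ]
    exact ih.mul h

theorem Gr.congr {e f e' f' : ℂ → ℂ} (h : Gr e f) (h1 : ∀ᶠ w in 𝓝[≠] (0 : ℂ), e w = e' w)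
    (h2 : ∀ᶠ w in 𝓝[≠] (0 : ℂ), f w = f' w) : Gr e' f' := by
  obtain ⟨C, K, h⟩ := h
  refine ⟨C, K, ?_⟩
  filter_upwards [h, h1, h2] with w a b c
  rw [← b, ← c]
  exact a

theorem color_sums {N : ℕ} (hN0 : 0 < N) {ι κ : Type} [DecidableEq ι] [DecidableEq κ]
    (e : ι → ℂ → ℂ) (he : ∀ a, Pun (e a))
    (hr : ∀ a, ∃ g : ℂ → ℂ, Pun g ∧ ∀ᶠ t in 𝓝[≠] (0 : ℂ), g t ^ N = e a (t ^ N))
    (col : ι → κ) (hcol : ∀ a b, Nz (e a) → Nz (e b) → Gr (e a) (e b) → col a = col b) :
    ∀ A : Finset ι, (A.card - 1) ^ 2 ≤ N → ∀ ρ : ι → ℂ → ℂ, (∀ a, MeromorphicAt (ρ a) 0) →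
      (∀ᶠ w in 𝓝[≠] (0 : ℂ), ∑ a ∈ A, ρ a w * e a w = 0) →
      ∀ v, ∀ᶠ w in 𝓝[≠] (0 : ℂ), ∑ a ∈ A.filter (fun a => col a = v), ρ a w * e a w = 0 := by
  intro A
  induction A using Finset.strongInduction with
  | H A ih =>
    intro hAN ρ hρ hrel v
    have hcard : ∀ a, ((A.erase a).card - 1) ^ 2 ≤ N := fun a =>
      le_trans (Nat.pow_le_pow_left
        (Nat.sub_le_sub_right (Finset.card_le_card (Finset.erase_subset _ _)) 1) 2) hAN
    by_cases hz : ∃ a ∈ A, ∀ᶠ w in 𝓝[≠] (0 : ℂ), ρ a w * e a w = 0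
    · obtain ⟨a, ha, haz⟩ := hz
      have h1 := ih (A.erase a) (Finset.erase_ssubset ha) (hcard a) ρ hρ (by
        filter_upwards [hrel, haz] with w h2 h3
        rw [← Finset.add_sum_erase A _ ha, h3, zero_add] at h2
        exact h2) v
      filter_upwards [h1, haz] with w h2 h3
      rw [Finset.filter_erase] at h2
      by_cases hv : a ∈ A.filter (fun a => col a = v)
      · rw [← Finset.add_sum_erase _ _ hv, h3, zero_add]
        exact h2
      · rw [Finset.erase_eq_of_notMem hv] at h2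
        exact h2
    replace hz : ∀ a ∈ A, Nz (fun w => ρ a w * e a w) := fun a ha h0 => hz ⟨a, ha, h0⟩
    rcases A.eq_empty_or_nonempty with rfl | hne
    · simp
    have hρn : ∀ a ∈ A, Nz (ρ a) := by
      intro a ha h0
      apply hz a ha
      filter_upwards [h0] with w hw
      rw [hw, zero_mul]
    have hen : ∀ a ∈ A, Nz (e a) := by
      intro a ha h0
      apply hz a ha
      filter_upwards [h0] with w hw
      rw [hw, mul_zero]
    have hg : ∀ a, ∃ g : ℂ → ℂ, a ∈ A → (Pun g ∧ ∀ᶠ t in 𝓝[≠] (0 : ℂ),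
        g t ^ N = ρ a (t ^ N) * e a (t ^ N)) := by
      intro a
      by_cases ha : a ∈ A
      · obtain ⟨g1, h1, h2⟩ := root (Pun.mero (hρ a)) (mero_ne (hρ a) (hρn a ha)) hN0
        obtain ⟨g2, h3, h4⟩ := hr a
        refine ⟨fun t => g1 t * g2 t, fun _ => ⟨h1.mul h3, ?_⟩⟩
        filter_upwards [h2, h4] with t h5 h6
        rw [mul_pow, h5, h6]
      · exact ⟨fun _ => 0, fun h => absurd h ha⟩
    choose g hg using hg
    have hgn : ∀ a ∈ A, Nz (g a) := by
      intro a ha h0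
      have h1 : Nz (fun w => ρ a w * e a w) := hz a ha
      apply h1.comp_pow hN0
      filter_upwards [h0, (hg a ha).2] with t h2 h3
      rw [← h3, h2, zero_pow hN0.ne']
    obtain ⟨a, ha, b, hb, hab, hMR⟩ := two_related (N := N) g A hAN (fun a ha => (hg a ha).1) hgn
      (fun _ => 1) (by
        have h1 : ∀ᶠ t in 𝓝[≠] (0 : ℂ), ∀ a ∈ A, g a t ^ N = ρ a (t ^ N) * e a (t ^ N) :=
          (Filter.eventually_all_finset A).mpr fun a ha => (hg a ha).2
        filter_upwards [h1, (tendsto_pow_punct hN0).eventually hrel] with t h2 h3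
        simp only [one_mul]
        rw [← h3]
        exact Finset.sum_congr rfl fun a ha => h2 a ha) (by
        obtain ⟨a, ha⟩ := hne
        exact ⟨a, ha, one_ne_zero⟩)
    have hGr : Gr (fun w => ρ a w * e a w) (fun w => ρ b w * e b w) :=
      gr_descend hN0 ((hMR.gr.pow N).congr (hg a ha).2 (hg b hb).2)
    obtain ⟨σ, hσ, hσe⟩ := growth_mero ((Pun.mero (hρ a)).mul (he a))
      ((Pun.mero (hρ b)).mul (he b)) (hz b hb) hGr
    have hcab : col a = col b := by
      apply hcol a b (hen a ha) (hen b hb)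
      apply MRel.gr
      refine ⟨fun w => (ρ a w)⁻¹ * (σ w * ρ b w), ((hρ a).fun_inv).fun_mul (hσ.fun_mul (hρ b)), ?_⟩
      filter_upwards [hσe, mero_ne (hρ a) (hρn a ha)] with w h1 h2
      field_simp
      linear_combination h1
    let ρ' : ι → ℂ → ℂ := fun i => if i = b then (fun w => ρ b w + σ w * ρ b w) else ρ i
    have hρ'b : ρ' b = fun w => ρ b w + σ w * ρ b w := if_pos rfl
    have hρ'n : ∀ i, i ≠ b → ρ' i = ρ i := fun i hi => if_neg hi
    have hρ'm : ∀ i, MeromorphicAt (ρ' i) 0 := by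
      intro i
      by_cases hi : i = b
      · rw [hi, hρ'b]
        exact (hρ b).fun_add (hσ.fun_mul (hρ b))
      · rw [hρ'n i hi]; exact hρ i
    have hbE : b ∈ A.erase a := Finset.mem_erase.mpr ⟨hab.symm, hb⟩
    have key : ∀ (T : Finset ι) (w : ℂ), ρ a w * e a w = σ w * (ρ b w * e b w) → b ∈ T → a ∉ T →
        ∑ i ∈ T, ρ' i w * e i w = ρ a w * e a w + ∑ i ∈ T, ρ i w * e i w := by
      intro T w hw hbT haT
      rw [← Finset.add_sum_erase T _ hbT, ← Finset.add_sum_erase T (fun i => ρ i w * e i w) hbT]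
      have h1 : ∑ i ∈ T.erase b, ρ' i w * e i w = ∑ i ∈ T.erase b, ρ i w * e i w :=
        Finset.sum_congr rfl fun i hi => by rw [hρ'n i (Finset.ne_of_mem_erase hi)]
      rw [h1, hρ'b, hw]
      ring
    have h1 := ih (A.erase a) (Finset.erase_ssubset ha) (hcard a) ρ' hρ'm (by
      filter_upwards [hrel, hσe] with w h2 h3
      rw [key _ w h3 hbE (Finset.notMem_erase a A), Finset.add_sum_erase A (fun i => ρ i w * e i w) ha]
      exact h2) v
    filter_upwards [h1, hσe] with w h2 h3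
    rw [Finset.filter_erase] at h2
    by_cases hv : col a = v
    · have haf : a ∈ A.filter (fun a => col a = v) := Finset.mem_filter.mpr ⟨ha, hv⟩
      have hbf : b ∈ (A.filter (fun a => col a = v)).erase a :=
        Finset.mem_erase.mpr ⟨hab.symm, Finset.mem_filter.mpr ⟨hb, by rw [← hcab]; exact hv⟩⟩
      rw [key _ w h3 hbf (Finset.notMem_erase a _),
        Finset.add_sum_erase _ (fun i => ρ i w * e i w) haf] at h2
      exact h2
    · have haf : a ∉ A.filter (fun a => col a = v) := fun h0 => hv (Finset.mem_filter.mp h0).2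
      rw [Finset.erase_eq_of_notMem haf] at h2
      rw [← h2]
      refine Finset.sum_congr rfl fun i hi => ?_
      have hib : i ≠ b := by
        intro h0
        apply hv
        rw [hcab, ← h0]
        exact (Finset.mem_filter.mp hi).2
      rw [hρ'n i hib]

end Pool.Agent.W603.BP
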