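import Pool.Agent.H159R3.NV.StepC

/-!
The second main theorem for a system of entire functions with moderate coefficients.
-/

set_option autoImplicit false

namespace Pool.Agent.W603.BP

open Filter Metric Real Set Topology Pool.Agent.H159R3.NV

/-- the data for the second main theorem -/
structure SysE (m N : ℕ) (g : Fin (m + 1) → ℂ → ℂ) (gW : ℂ → ℂ) (A : ℝ) (κ : ℕ)
    (Λ a Rs : ℝ) : Prop where
  hg : ∀ j, Differentiable ℂ (g j)
  hg0 : ∀ j, g j 0 ≠ 0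
  hW : Differentiable ℂ gW
  hW0 : gW 0 ≠ 0
  hΛ0 : 0 ≤ Λ
  hΛ : ∀ j, |Real.log ‖g j 0‖| ≤ Λ
  hΛW : -Λ ≤ Real.log ‖gW 0‖
  hord : ∀ z : ℂ, ‖z‖ ≤ Rs →
    0 ≤ meromorphicOrderAt (fun z => gW z / (∏ j, g j z) ^ (N + 1 - m)) z
  hA : 1 ≤ A
  up : ∀ z : ℂ, a ≤ ‖z‖ → ∀ ε : ℝ, 0 < ε → ε ≤ 1 → (∀ j, ∀ w ∈ closedBall z ε, g j w ≠ 0) →
    (∀ j, ∀ w ∈ closedBall z ε, ‖g j w / g 0 w‖ ≤ Real.exp 1 * ‖g j z / g 0 z‖) →
    ∀ i : Fin (m + 1), ‖gW z‖ ≤ A * ‖z‖ ^ κ * (1 / ε) ^ (m * m) *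
      ∏ b : Fin m, ‖g (i.succAbove b) z‖ ^ N

section

variable {m N : ℕ} {g : Fin (m + 1) → ℂ → ℂ} {gW : ℂ → ℂ} {A : ℝ} {κ : ℕ} {Λ a Rs : ℝ}

theorem SysE.L_ge (h : SysE m N g gW A κ Λ a Rs) (j : Fin (m + 1)) {R : ℝ} (hR : 0 < R) :
    -Λ ≤ L (g j) R := by
  have h1 := jensen_entire hR (h.hg j) (h.hg0 j)
  have h2 := (abs_le.mp (h.hΛ j)).1
  linarith

theorem SysE.term_nonneg (h : SysE m N g gW A κ Λ a Rs) (j : Fin (m + 1)) {R : ℝ} (hR : 0 < R) :
    0 ≤ T2 (g 0) (g j) R + Λ := by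
  have h1 := h.L_ge 0 hR
  have h2 := T2_ge_L0 (g 0) (g j) R
  linarith

theorem SysE.term_le (h : SysE m N g gW A κ Λ a Rs) (j : Fin (m + 1)) {R : ℝ} (hR : 0 < R) :
    T2 (g 0) (g j) R + Λ ≤ SS g Λ R :=
  Finset.single_le_sum (f := fun j => T2 (g 0) (g j) R + Λ)
    (fun i _ => h.term_nonneg i hR) (Finset.mem_univ j)

theorem SysE.SS_nonneg (h : SysE m N g gW A κ Λ a Rs) {R : ℝ} (hR : 0 < R) : 0 ≤ SS g Λ R :=
  Finset.sum_nonneg (fun i _ => h.term_nonneg i hR)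

theorem SysE.SS_mono (h : SysE m N g gW A κ Λ a Rs) {r R : ℝ} (hr : 0 < r) (hrR : r ≤ R) :
    SS g Λ r ≤ SS g Λ R := by
  unfold SS
  apply Finset.sum_le_sum
  intro j _
  have := T2_mono (h.hg 0) (h.hg0 0) (h.hg j) hr hrR
  linarith

theorem SysE.low (h : SysE m N g gW A κ Λ a Rs) {R : ℝ} (hR : 0 < R) (hRs : R ≤ Rs) :
    Real.log ‖gW 0‖ - ((N + 1 - m : ℕ) : ℝ) * ∑ j, Real.log ‖g j 0‖
      + ((N + 1 - m : ℕ) : ℝ) * ∑ j, L (g j) R ≤ L gW R := by
  set M : ℕ := N + 1 - m with hM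
  have hPd : Differentiable ℂ (fun z => (∏ j, g j z) ^ M) :=
    (Differentiable.fun_finsetProd fun j _ => h.hg j).pow M
  let E : ℂ → ℂ := fun z => gW z / (∏ j, g j z) ^ M
  have hEm : Meromorphic E :=
    fun z => ((h.hW.analyticAt z).meromorphicAt).div ((hPd.analyticAt z).meromorphicAt)
  have hP0 : (∏ j, g j 0) ^ M ≠ 0 := pow_ne_zero _ (Finset.prod_ne_zero_iff.mpr fun j _ => h.hg0 j)
  have hord : ∀ z ∈ closedBall (0 : ℂ) R, 0 ≤ meromorphicOrderAt E z := by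
    intro z0 hz0
    rw [mem_closedBall, dist_zero_right] at hz0
    exact h.hord z0 (hz0.trans hRs)
  have hEa : AnalyticAt ℂ E 0 := (h.hW.analyticAt 0).div (hPd.analyticAt 0) hP0
  have hE0 : E 0 ≠ 0 := div_ne_zero h.hW0 hP0
  have h1 := jensen_ge hR hEm hord hEa hE0
  have h2 : L E R = L gW R - (M : ℝ) * ∑ j, L (g j) R := by
    unfold L
    have e1 : (M : ℝ) * ∑ j, Real.circleAverage (fun z => Real.log ‖g j z‖) 0 R
        = Real.circleAverage (fun z => (M : ℝ) * ∑ j, Real.log ‖g j z‖) 0 R := by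
      rw [← Real.circleAverage_fun_sum (fun j _ => ci_log (mero_of_diff (h.hg j)) R)]
      exact (Real.circleAverage_fun_smul (a := (M : ℝ))).symm
    have hint : CircleIntegrable (fun z => (M : ℝ) * ∑ j, Real.log ‖g j z‖) 0 R := by
      have : CircleIntegrable (fun z => ∑ j, Real.log ‖g j z‖) 0 R :=
        CircleIntegrable.fun_sum _ (fun j _ => ci_log (mero_of_diff (h.hg j)) R)
      exact this.const_smul (a := (M : ℝ))
    rw [e1, ← Real.circleAverage_fun_sub (ci_log (mero_of_diff h.hW) R) hint]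
    apply Real.circleAverage_congr_codiscreteWithin _ hR.ne'
    filter_upwards [eventually_all_ne g h.hg h.hg0 R, ne_cod h.hW h.hW0 R] with z hz hz2
    have h3 : (∏ j, g j z) ^ M ≠ 0 := pow_ne_zero _ (Finset.prod_ne_zero_iff.mpr fun j _ => hz j)
    simp only [E]
    rw [norm_div, Real.log_div (norm_ne_zero_iff.mpr hz2) (norm_ne_zero_iff.mpr h3), norm_pow,
      Real.log_pow, norm_prod, Real.log_prod (fun j _ => norm_ne_zero_iff.mpr (hz j))]
  have h3 : Real.log ‖E 0‖ = Real.log ‖gW 0‖ - (M : ℝ) * ∑ j, Real.log ‖g j 0‖ := by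
    simp only [E]
    rw [norm_div, Real.log_div (norm_ne_zero_iff.mpr h.hW0) (norm_ne_zero_iff.mpr hP0), norm_pow,
      Real.log_pow, norm_prod, Real.log_prod (fun j _ => norm_ne_zero_iff.mpr (h.hg0 j))]
  rw [h2, h3] at h1
  linarith

/-- the main inequality on a circle without zeros -/
theorem SysE.main (h : SysE m N g gW A κ Λ a Rs) (hm : 1 ≤ m) (hN : m ^ 2 ≤ N) {s ε : ℝ}
    (hs1 : 1 ≤ s) (has : a ≤ s) (hsR : s ≤ Rs) (hε : 0 < ε) (hε1 : ε ≤ 1)
    (h0 : ∀ z, ‖z‖ = s → ∀ j, ∀ w ∈ closedBall z ε, g j w ≠ 0)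
    (hb : ∀ z, ‖z‖ = s → ∀ j, ∀ w ∈ closedBall z ε,
      ‖g j w / g 0 w‖ ≤ Real.exp 1 * ‖g j z / g 0 z‖) :
    SS g Λ s ≤ (m + 1) * (Real.log A + κ * Real.log s
      + m ^ 2 * Real.log (1 / ε) + (1 + (N + 1) * (m + 1)) * Λ + (N + 1) * Λ) := by
  have hs : 0 < s := by linarith
  have hmN : m ≤ N + 1 := by nlinarith
  have hA0 : 0 < A := by have := h.hA; linarith
  set G : ℂ → ℝ := fun z => Real.log (Finset.univ.sup' Finset.univ_nonempty (fun j => ‖g j z‖))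
    with hG
  have hsup_cont : Continuous (fun z : ℂ =>
      Finset.univ.sup' Finset.univ_nonempty (fun j : Fin (m + 1) => ‖g j z‖)) :=
    Continuous.finset_sup'_apply _ (fun j _ => (h.hg j).continuous.norm)
  have hle : ∀ z (j : Fin (m + 1)), ‖g j z‖
      ≤ Finset.univ.sup' Finset.univ_nonempty (fun j : Fin (m + 1) => ‖g j z‖) :=
    fun z j => Finset.le_sup' (fun j => ‖g j z‖) (Finset.mem_univ j)
  have hsph : ∀ z ∈ sphere (0 : ℂ) |s|, ‖z‖ = s := by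
    intro z hz
    rw [mem_sphere, dist_zero_right, abs_of_pos hs] at hz
    exact hz
  have hne : ∀ z, ‖z‖ = s → ∀ j, g j z ≠ 0 :=
    fun z hz j => h0 z hz j z (mem_closedBall_self hε.le)
  have hGint : CircleIntegrable G 0 s := by
    apply ContinuousOn.circleIntegrable'
    apply ContinuousOn.log hsup_cont.continuousOn
    intro z hz
    exact ((norm_pos_iff.mpr (hne z (hsph z hz) 0)).trans_le (hle z 0)).ne'
  set τ : ℝ := Real.circleAverage G 0 s with hτ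
  -- comparisons with τ
  have hLτ : ∀ j, L (g j) s ≤ τ := by
    intro j
    apply Real.circleAverage_mono (ci_log (mero_of_diff (h.hg j)) s) hGint
    intro z hz
    exact Real.log_le_log (norm_pos_iff.mpr (hne z (hsph z hz) j)) (hle z j)
  have hTτ : ∀ j, T2 (g 0) (g j) s ≤ τ := by
    intro j
    unfold T2
    unfold L
    rw [← Real.circleAverage_fun_add (ci_log (mero_of_diff (h.hg 0)) s)
      (ci_posLog (quot_mero (h.hg 0) (h.hg j)) s)]
    apply Real.circleAverage_mono ((ci_log (mero_of_diff (h.hg 0)) s).add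
      (ci_posLog (quot_mero (h.hg 0) (h.hg j)) s)) hGint
    intro z hz
    have hz' := hsph z hz
    have p0 := norm_pos_iff.mpr (hne z hz' 0)
    have pj := norm_pos_iff.mpr (hne z hz' j)
    change Real.log ‖g 0 z‖ + Real.posLog ‖g j z / g 0 z‖ ≤ G z
    rw [Real.posLog_apply, norm_div, Real.log_div pj.ne' p0.ne']
    have h1 : Real.log ‖g 0 z‖ ≤ G z := Real.log_le_log p0 (hle z 0)
    have h2 : Real.log ‖g j z‖ ≤ G z := Real.log_le_log pj (hle z j)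
    rcases max_cases (0 : ℝ) (Real.log ‖g j z‖ - Real.log ‖g 0 z‖) with ⟨h3, _⟩ | ⟨h3, _⟩ <;>
      rw [h3] <;> linarith
  have hτΛ : -Λ ≤ τ := (h.L_ge 0 hs).trans (hLτ 0)
  -- the upper bound for the Wronskian
  set C0 : ℝ := Real.log A + κ * Real.log s + m ^ 2 * Real.log (1 / ε) with hC0
  have hWup : L gW s ≤ C0 + N * ∑ j, L (g j) s - N * τ := by
    have hsumint : CircleIntegrable (fun z => ∑ j, Real.log ‖g j z‖) 0 s :=
      CircleIntegrable.fun_sum _ (fun j _ => ci_log (mero_of_diff (h.hg j)) s)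
    have i1 : CircleIntegrable (fun z => (N : ℝ) • ∑ j, Real.log ‖g j z‖) 0 s :=
      hsumint.const_smul
    have i2 : CircleIntegrable (fun z => (N : ℝ) • G z) 0 s := hGint.const_smul
    have i3 : CircleIntegrable (fun z => C0 + (N : ℝ) • ∑ j, Real.log ‖g j z‖) 0 s :=
      (circleIntegrable_const _ _ _).add i1
    have e1 : C0 + N * ∑ j, L (g j) s - N * τ
        = Real.circleAverage (fun z => (C0 + (N : ℝ) • ∑ j, Real.log ‖g j z‖) - (N : ℝ) • G z)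
          0 s := by
      rw [Real.circleAverage_fun_sub i3 i2, Real.circleAverage_fun_add
        (circleIntegrable_const _ _ _) i1, Real.circleAverage_const,
        Real.circleAverage_fun_smul, Real.circleAverage_fun_smul, Real.circleAverage_fun_sum
        (fun j _ => ci_log (mero_of_diff (h.hg j)) s)]
      rfl
    rw [e1]
    apply avg_le_cod (ci_log (mero_of_diff h.hW) s) (i3.sub i2) hs.ne'
    filter_upwards [ne_cod h.hW h.hW0 s, self_mem_codiscreteWithin _] with z hz hzs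
    have hz' := hsph z hzs
    obtain ⟨i, _, hi⟩ := Finset.exists_mem_eq_sup' Finset.univ_nonempty
      (fun j : Fin (m + 1) => ‖g j z‖)
    have hup := h.up z (by rw [hz']; exact has) ε hε hε1 (h0 z hz') (hb z hz') i
    have hpos : 0 < ‖gW z‖ := norm_pos_iff.mpr hz
    have h1 := Real.log_le_log hpos hup
    have hprod : (∏ b : Fin m, ‖g (i.succAbove b) z‖ ^ N) ≠ 0 :=
      Finset.prod_ne_zero_iff.mpr fun b _ => pow_ne_zero _ (norm_ne_zero_iff.mpr (hne z hz' _))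
    have hεp : (1 / ε) ^ (m * m) ≠ 0 := pow_ne_zero _ (by positivity)
    have hzκ : ‖z‖ ^ κ ≠ 0 := pow_ne_zero _ (by rw [hz']; exact hs.ne')
    rw [Real.log_mul (mul_ne_zero (mul_ne_zero hA0.ne' hzκ) hεp) hprod,
      Real.log_mul (mul_ne_zero hA0.ne' hzκ) hεp, Real.log_mul hA0.ne' hzκ, Real.log_pow,
      Real.log_pow, hz'] at h1
    rw [Real.log_prod (fun b _ => pow_ne_zero _ (norm_ne_zero_iff.mpr (hne z hz' _)))] at h1
    simp only [Real.log_pow] at h1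
    rw [← Finset.mul_sum] at h1
    have h2 : ∑ j, Real.log ‖g j z‖ = Real.log ‖g i z‖
        + ∑ b : Fin m, Real.log ‖g (i.succAbove b) z‖ :=
      Fin.sum_univ_succAbove (fun j => Real.log ‖g j z‖) i
    have h3 : G z = Real.log ‖g i z‖ := by
      simp only [hG]
      rw [hi]
    change Real.log ‖gW z‖ ≤ (C0 + (N : ℝ) * ∑ j, Real.log ‖g j z‖) - (N : ℝ) * G z
    rw [h2, h3, hC0]
    push_cast at h1
    nlinarith
  have hlow := h.low hs hsR
  have hM : ((N + 1 - m : ℕ) : ℝ) = N + 1 - m := by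
    rw [Nat.cast_sub hmN]; push_cast; ring
  rw [hM] at hlow
  have hsum0 : ∑ j, Real.log ‖g j 0‖ ≤ (m + 1) * Λ := by
    calc ∑ j, Real.log ‖g j 0‖ ≤ ∑ _j : Fin (m + 1), Λ :=
          Finset.sum_le_sum fun j _ => (abs_le.mp (h.hΛ j)).2
      _ = (m + 1) * Λ := by simp
  have hsumL : ∑ j, L (g j) s ≤ (m + 1) * τ := by
    calc ∑ j, L (g j) s ≤ ∑ _j : Fin (m + 1), τ := Finset.sum_le_sum fun j _ => hLτ j
      _ = (m + 1) * τ := by simp
  have hm' : (1 : ℝ) ≤ m := by exact_mod_cast hm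
  have hN' : (m : ℝ) ^ 2 ≤ N := by exact_mod_cast hN
  have hmN' : (m : ℝ) ≤ N + 1 := by exact_mod_cast hmN
  have hΛ0 := h.hΛ0
  have hW0 := h.hΛW
  have h4 : (N : ℝ) * τ ≤ C0 + (m - 1) * ((m + 1) * τ) + (1 + (N + 1 - m) * (m + 1)) * Λ := by
    have h5 : ((m : ℝ) - 1) * ∑ j, L (g j) s ≤ (m - 1) * ((m + 1) * τ) :=
      mul_le_mul_of_nonneg_left hsumL (by linarith)
    have h6 : ((N : ℝ) + 1 - m) * ∑ j, Real.log ‖g j 0‖ ≤ (N + 1 - m) * ((m + 1) * Λ) :=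
      mul_le_mul_of_nonneg_left hsum0 (by linarith)
    nlinarith [hlow, hWup, h5, h6, hW0]
  have h7 : (1 + ((N : ℝ) + 1 - m) * (m + 1)) * Λ ≤ (1 + (N + 1) * (m + 1)) * Λ := by
    apply mul_le_mul_of_nonneg_right _ hΛ0
    have : ((N : ℝ) + 1 - m) * (m + 1) ≤ (N + 1) * (m + 1) :=
      mul_le_mul_of_nonneg_right (by linarith) (by linarith)
    linarith
  have h8 : τ + Λ ≤ C0 + (1 + (N + 1) * (m + 1)) * Λ + (N + 1) * Λ := by
    have hd : 1 ≤ (N : ℝ) - (m ^ 2 - 1) := by linarith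
    have h9 : τ + Λ ≤ ((N : ℝ) - (m ^ 2 - 1)) * (τ + Λ) :=
      le_mul_of_one_le_left (by linarith) hd
    have h10 : ((N : ℝ) - (m ^ 2 - 1)) * Λ ≤ (N + 1) * Λ := by
      apply mul_le_mul_of_nonneg_right _ hΛ0
      nlinarith
    have h11 : ((N : ℝ) - (m ^ 2 - 1)) * τ ≤ C0 + (1 + (N + 1) * (m + 1)) * Λ := by
      have : ((N : ℝ) - (m ^ 2 - 1)) * τ = N * τ - (m - 1) * ((m + 1) * τ) := by ring
      rw [this]
      linarith
    calc τ + Λ ≤ ((N : ℝ) - (m ^ 2 - 1)) * (τ + Λ) := h9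
      _ = ((N : ℝ) - (m ^ 2 - 1)) * τ + ((N : ℝ) - (m ^ 2 - 1)) * Λ := by ring
      _ ≤ _ := by linarith
  unfold SS
  calc ∑ j, (T2 (g 0) (g j) s + Λ) ≤ ∑ _j : Fin (m + 1), (τ + Λ) :=
        Finset.sum_le_sum fun j _ => by linarith [hTτ j]
    _ = (m + 1) * (τ + Λ) := by simp; ring
    _ ≤ _ := mul_le_mul_of_nonneg_left h8 (by linarith)

end

end Pool.Agent.W603.BP
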