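import Pool.Agent.W603.BP.Birk
import Pool.Agent.W603.BP.LWron

/-!
The exterior of a disc, zero free annuli and units of moderate growth.
-/

set_option autoImplicit false

namespace Pool.Agent.W603.BP

open Metric Set Complex Filter
open scoped Real Topology

/-- the exterior of a disc -/
def Ext (a : ℝ) : Set ℂ := {z : ℂ | a < ‖z‖}

theorem Ext_open (a : ℝ) : IsOpen (Ext a) := isOpen_ext a

theorem Ext_nonempty (a : ℝ) : (Ext a).Nonempty := by
  refine ⟨((|a| + 1 : ℝ) : ℂ), ?_⟩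
  change a < ‖((|a| + 1 : ℝ) : ℂ)‖
  rw [Complex.norm_real, Real.norm_of_nonneg (by positivity)]
  have := le_abs_self a
  linarith

theorem Ext_preconn {a : ℝ} (ha : 0 < a) : IsPreconnected (Ext a) := by
  have h1 : Ext a = Complex.exp '' {ζ : ℂ | Real.log a < ζ.re} := by
    ext z
    constructor
    · intro hz
      have hz' : a < ‖z‖ := hz
      have hz0 : z ≠ 0 := by
        intro h
        rw [h, norm_zero] at hz'
        linarith
      refine ⟨Complex.log z, ?_, Complex.exp_log hz0⟩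
      change Real.log a < (Complex.log z).re
      rw [Complex.log_re]
      exact Real.log_lt_log ha hz'
    · rintro ⟨ζ, hζ, rfl⟩
      have hζ' : Real.log a < ζ.re := hζ
      change a < ‖exp ζ‖
      rw [Complex.norm_exp, ← Real.exp_log ha]
      exact Real.exp_lt_exp.mpr hζ'
  rw [h1]
  exact (convex_halfSpace_re_gt _).isPreconnected.image _ Complex.continuous_exp.continuousOn

theorem ext_ne_zero {a : ℝ} (ha : 0 ≤ a) {z : ℂ} (hz : z ∈ Ext a) : z ≠ 0 := by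
  intro h
  have hz' : a < ‖z‖ := hz
  rw [h, norm_zero] at hz'
  linarith

theorem Ext_mono {a b : ℝ} (h : a ≤ b) : Ext b ⊆ Ext a := fun _ hz => lt_of_le_of_lt h hz

/-- an analytic function that is not identically zero has no zeros in some annulus -/
theorem annulus {r0 : ℝ} (hr0 : 0 < r0) {F : ℂ → ℂ} (hF : AnalyticOnNhd ℂ F (Ext r0))
    (hne : ∃ z ∈ Ext r0, F z ≠ 0) :
    ∃ r1 r2, r0 < r1 ∧ r1 < r2 ∧ ∀ z, r1 < ‖z‖ → ‖z‖ < r2 → F z ≠ 0 := by
  classical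
  have hcod := hF.eqOn_zero_or_eventually_ne_zero_of_preconnected (Ext_preconn hr0)
  have hcod' : ∀ z ∈ Ext r0, ∀ᶠ w in 𝓝 z, w = z ∨ F w ≠ 0 := by
    intro z hz
    rcases hcod with h | h
    · obtain ⟨w, hw, hw0⟩ := hne
      exact absurd (h hw) hw0
    · have h2 := (mem_codiscreteWithin_iff_forall_mem_nhdsNE.1 h) z hz
      have h3 : ∀ᶠ w in 𝓝[≠] z, w ∈ {w | F w ≠ 0} ∪ (Ext r0)ᶜ := h2
      rw [eventually_nhdsWithin_iff] at h3
      filter_upwards [h3, (Ext_open r0).mem_nhds hz] with w hw hw2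
      by_cases hwz : w = z
      · exact Or.inl hwz
      · right
        rcases hw hwz with h4 | h4
        · exact h4
        · exact absurd hw2 h4
  set K : Set ℂ := {z : ℂ | r0 + 1 ≤ ‖z‖ ∧ ‖z‖ ≤ r0 + 2} with hK
  have hKc : IsCompact K := by
    apply (isCompact_closedBall (0 : ℂ) (r0 + 2)).of_isClosed_subset
    · exact (isClosed_le continuous_const continuous_norm).inter
        (isClosed_le continuous_norm continuous_const)
    · intro z hz
      rw [mem_closedBall, dist_zero_right]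
      exact hz.2
  have hKE : ∀ z ∈ K, z ∈ Ext r0 := fun z hz => by
    have := hz.1
    change r0 < ‖z‖
    linarith
  obtain ⟨t, -, ht⟩ := hKc.elim_nhds_subcover (fun z => {w | w = z ∨ F w ≠ 0})
    (fun z hz => hcod' z (hKE z hz))
  have hzeros : ∀ z ∈ K, F z = 0 → z ∈ t := by
    intro z hz h0
    obtain ⟨x, hx, hzx⟩ := mem_iUnion₂.mp (ht hz)
    rcases hzx with h | h
    · rw [h]; exact hx
    · exact absurd h0 h
  set T : Finset ℝ := t.image (fun z => ‖z‖) with hT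
  have hTo : IsOpen ((T : Set ℝ)ᶜ) := (Finset.finite_toSet T).isClosed.isOpen_compl
  have hUo : IsOpen (Ioo (r0 + 1) (r0 + 2) ∩ (T : Set ℝ)ᶜ) := isOpen_Ioo.inter hTo
  have hUne : (Ioo (r0 + 1) (r0 + 2) ∩ (T : Set ℝ)ᶜ).Nonempty := by
    have h1 : (Ioo (r0 + 1) (r0 + 2)).Infinite := Ioo_infinite (by linarith)
    exact (h1.sdiff (Finset.finite_toSet T)).nonempty
  obtain ⟨s, hs⟩ := hUne
  obtain ⟨ε, hε, hball⟩ := Metric.isOpen_iff.mp hUo s hs
  refine ⟨s - ε / 2, s + ε / 2, ?_, by linarith, ?_⟩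
  · have h1 : s - ε / 2 ∈ ball s ε := by
      rw [mem_ball, Real.dist_eq]
      have : s - ε / 2 - s = -(ε / 2) := by ring
      rw [this, abs_neg, abs_of_pos (by linarith)]
      linarith
    have := (hball h1).1.1
    linarith
  · intro z h1 h2 h0
    have h3 : ‖z‖ ∈ ball s ε := by
      rw [mem_ball, Real.dist_eq, abs_lt]
      constructor <;> linarith
    have h4 := hball h3
    have h5 : z ∈ K := ⟨h4.1.1.le, h4.1.2.le⟩
    have h6 := hzeros z h5 h0
    apply h4.2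
    rw [hT, Finset.coe_image]
    exact ⟨z, h6, rfl⟩

/-- units of moderate growth in the exterior of a disc -/
structure Tame (a : ℝ) (H : ℂ → ℂ) : Prop where
  an : AnalyticOnNhd ℂ H (Ext a)
  ne : ∀ z ∈ Ext a, H z ≠ 0
  bd : ∃ C : ℝ, 1 ≤ C ∧ ∃ κ : ℕ, ∀ z : ℂ, a + 1 ≤ ‖z‖ →
    ‖H z‖ ≤ C * ‖z‖ ^ κ ∧ 1 ≤ C * ‖z‖ ^ κ * ‖H z‖
  osc : ∃ C : ℝ, 1 ≤ C ∧ ∀ z w : ℂ, a + 2 ≤ ‖z‖ → ‖w - z‖ ≤ 1 →
    ‖H w‖ ≤ C * ‖H z‖ ∧ ‖H z‖ ≤ C * ‖H w‖

theorem zpow_le_two {x y : ℝ} (hx : 0 < x) (hy : 0 < y) (hxy : x ≤ 2 * y) (hyx : y ≤ 2 * x)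
    (k : ℤ) : x ^ k ≤ 2 ^ k.natAbs * y ^ k := by
  rcases Int.natAbs_eq k with h | h
  · rw [h, zpow_natCast, zpow_natCast, Int.natAbs_natCast, ← mul_pow]
    exact pow_le_pow_left₀ hx.le hxy _
  · rw [h, zpow_neg, zpow_neg, zpow_natCast, zpow_natCast, Int.natAbs_neg, Int.natAbs_natCast]
    have h1 : y ^ k.natAbs ≤ 2 ^ k.natAbs * x ^ k.natAbs := by
      rw [← mul_pow]
      exact pow_le_pow_left₀ hy.le hyx _
    have h2 : 0 < y ^ k.natAbs := pow_pos hy _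
    have h3 : 0 < x ^ k.natAbs := pow_pos hx _
    rw [inv_eq_one_div, ← div_eq_mul_inv, div_le_div_iff₀ h3 h2]
    linarith

theorem zpow_bd {x : ℝ} (hx : 1 ≤ x) (k : ℤ) : x ^ k ≤ x ^ k.natAbs ∧ 1 ≤ x ^ k.natAbs * x ^ k := by
  have h0 : 0 < x := by linarith
  constructor
  · rw [← zpow_natCast]
    exact zpow_le_zpow_right₀ hx (by omega)
  · rw [← zpow_natCast, ← zpow_add₀ h0.ne']
    exact one_le_zpow₀ hx (by omega)

theorem tame_of {a : ℝ} (ha : 1 ≤ a) (k : ℤ) {q : ℂ → ℂ}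
    (hq : DifferentiableOn ℂ q (ball 0 a⁻¹)) : Tame a (fun z => z ^ k * exp (q z⁻¹)) := by
  have ha0 : 0 < a := by linarith
  have hinv : ∀ z ∈ Ext a, z⁻¹ ∈ ball (0 : ℂ) a⁻¹ := by
    intro z hz
    rw [mem_ball, dist_zero_right, norm_inv]
    exact inv_strictAnti₀ ha0 hz
  obtain ⟨B0, hB0⟩ := (isCompact_closedBall (0 : ℂ) (a + 1)⁻¹).exists_bound_of_continuousOn
    (f := q) (hq.continuousOn.mono (by
      intro w hw
      rw [mem_closedBall, dist_zero_right] at hw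
      rw [mem_ball, dist_zero_right]
      exact hw.trans_lt (inv_strictAnti₀ ha0 (by linarith))))
  set B : ℝ := max B0 0 with hBdef
  have hB : ∀ z : ℂ, a + 1 ≤ ‖z‖ → |(q z⁻¹).re| ≤ B := by
    intro z hz
    refine (Complex.abs_re_le_norm _).trans ((hB0 _ ?_).trans (le_max_left _ _))
    rw [mem_closedBall, dist_zero_right, norm_inv]
    exact inv_anti₀ (by linarith) hz
  have hBn : 0 ≤ B := le_max_right _ _
  have hnorm : ∀ z : ℂ, ‖z ^ k * exp (q z⁻¹)‖ = ‖z‖ ^ k * Real.exp (q z⁻¹).re := by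
    intro z
    rw [norm_mul, norm_zpow, Complex.norm_exp]
  refine ⟨?_, ?_, ?_, ?_⟩
  · intro z hz
    have hz0 := ext_ne_zero ha0.le hz
    apply AnalyticAt.fun_mul
    · exact analyticAt_id.zpow hz0
    · apply AnalyticAt.cexp
      exact ((hq.analyticAt (isOpen_ball.mem_nhds (hinv z hz)))).comp (analyticAt_inv hz0)
  · intro z hz
    exact mul_ne_zero (zpow_ne_zero _ (ext_ne_zero ha0.le hz)) (Complex.exp_ne_zero _)
  · refine ⟨Real.exp B, Real.one_le_exp hBn, k.natAbs, ?_⟩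
    intro z hz
    have hz1 : 1 ≤ ‖z‖ := by linarith
    obtain ⟨h1, h2⟩ := zpow_bd hz1 k
    have h3 := abs_le.mp (hB z hz)
    have e1 : Real.exp (q z⁻¹).re ≤ Real.exp B := Real.exp_le_exp.mpr h3.2
    have e2 : 1 ≤ Real.exp B * Real.exp (q z⁻¹).re := by
      rw [← Real.exp_add]
      exact Real.one_le_exp (by linarith)
    rw [hnorm]
    constructor
    · calc ‖z‖ ^ k * Real.exp (q z⁻¹).re ≤ ‖z‖ ^ k.natAbs * Real.exp B :=
            mul_le_mul h1 e1 (Real.exp_pos _).le (by positivity)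
        _ = _ := mul_comm _ _
    · calc (1 : ℝ) ≤ (‖z‖ ^ k.natAbs * ‖z‖ ^ k) * (Real.exp B * Real.exp (q z⁻¹).re) :=
            one_le_mul_of_one_le_of_one_le h2 e2
        _ = _ := by ring
  · refine ⟨2 ^ k.natAbs * Real.exp (2 * B),
      one_le_mul_of_one_le_of_one_le (one_le_pow₀ (by norm_num)) (Real.one_le_exp (by linarith)), ?_⟩
    intro z w hz hw
    have hw1 : ‖w‖ ≤ ‖z‖ + 1 := by
      calc ‖w‖ = ‖z + (w - z)‖ := by congr 1; ring
        _ ≤ ‖z‖ + ‖w - z‖ := norm_add_le _ _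
        _ ≤ _ := by linarith
    have hw2 : ‖z‖ ≤ ‖w‖ + 1 := by
      calc ‖z‖ = ‖w - (w - z)‖ := by congr 1; ring
        _ ≤ ‖w‖ + ‖w - z‖ := norm_sub_le _ _
        _ ≤ _ := by linarith
    have hz0 : 0 < ‖z‖ := by linarith
    have hw0 : 0 < ‖w‖ := by linarith
    have hBz := abs_le.mp (hB z (by linarith))
    have hBw := abs_le.mp (hB w (by linarith))
    have key : ∀ x y : ℂ, 0 < ‖x‖ → 0 < ‖y‖ → ‖x‖ ≤ 2 * ‖y‖ → ‖y‖ ≤ 2 * ‖x‖ →
        (q x⁻¹).re ≤ 2 * B + (q y⁻¹).re →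
        ‖x ^ k * exp (q x⁻¹)‖ ≤ 2 ^ k.natAbs * Real.exp (2 * B) * ‖y ^ k * exp (q y⁻¹)‖ := by
      intro x y h1 h2 h3 h4 h5
      rw [hnorm, hnorm]
      have h6 := zpow_le_two h1 h2 h3 h4 k
      have h7 : Real.exp (q x⁻¹).re ≤ Real.exp (2 * B) * Real.exp (q y⁻¹).re := by
        rw [← Real.exp_add]
        exact Real.exp_le_exp.mpr h5
      calc ‖x‖ ^ k * Real.exp (q x⁻¹).re
          ≤ (2 ^ k.natAbs * ‖y‖ ^ k) * (Real.exp (2 * B) * Real.exp (q y⁻¹).re) :=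
            mul_le_mul h6 h7 (Real.exp_pos _).le (by positivity)
        _ = _ := by ring
    exact ⟨key w z hw0 hz0 (by linarith) (by linarith) (by linarith),
      key z w hz0 hw0 (by linarith) (by linarith) (by linarith)⟩

end Pool.Agent.W603.BP
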